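import Pool.Agent.Lib.MP_dd58da_co.Sweeps

set_option autoImplicit false

open MeasureTheory Set Filter
open scoped Classical

namespace Pool.Agent.Lib.MP_dd58da_co

theorem dyadic_aux {d0 u : ℝ} (hd : 0 < d0) (hu : 0 < u) (m : ℕ) :
    ∑ j ∈ Finset.range m, ind (Ici u) (d0 * 2 ^ j) / (d0 * 2 ^ j) + 2 / max u (d0 * 2 ^ m) ≤
      2 / u := by
  induction m with
  | zero =>
    simp only [Finset.range_zero, Finset.sum_empty, zero_add]
    gcongr
    exact le_max_left _ _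
  | succ m ih =>
    rw [Finset.sum_range_succ]
    have h0 : 0 < d0 * 2 ^ m := by positivity
    rcases le_or_gt u (d0 * 2 ^ m) with h | h
    · rw [ind_of_mem (show d0 * 2 ^ m ∈ Ici u from h)]
      rw [max_eq_right h] at ih
      rw [max_eq_right (by rw [pow_succ]; linarith)]
      have : 1 / (d0 * 2 ^ m) + 2 / (d0 * 2 ^ (m + 1)) = 2 / (d0 * 2 ^ m) := by
        rw [pow_succ]; field_simp; ring
      linarith
    · rw [ind_of_not (show d0 * 2 ^ m ∉ Ici u from not_le.mpr h)]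
      rw [max_eq_left h.le] at ih
      have : 2 / max u (d0 * 2 ^ (m + 1)) ≤ 2 / u := by
        gcongr
        exact le_max_left _ _
      simp only [zero_div, add_zero]
      linarith

theorem dyadic {d0 u : ℝ} (hd : 0 < d0) (hu : 0 < u) (m : ℕ) :
    ∑ j ∈ Finset.range m, ind (Ici u) (d0 * 2 ^ j) / (d0 * 2 ^ j) ≤ 2 / u := by
  have h1 := dyadic_aux hd hu m
  have h2 : 0 < 2 / max u (d0 * 2 ^ m) := div_pos two_pos (lt_max_of_lt_left hu)
  linarith

theorem markov_sets {α κ : Type} [MeasurableSpace α] {μ : Measure α} [IsFiniteMeasure μ]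
    (R : Finset κ) (E : κ → Set α) {N : ℝ} (hN : 0 ≤ N) :
    N * μ.real {x | N ≤ ∑ j ∈ R, ind (E j) x} ≤ ∑ j ∈ R, μ.real (E j) := by
  have hm : ∀ j ∈ R, MeasurableSet (toMeasurable μ (E j)) :=
    fun j _ => measurableSet_toMeasurable _ _
  have h1 := markov (μ := μ) (integrable_sum_ind R (fun _ => 1) _ hm)
    (Eventually.of_forall fun x => Finset.sum_nonneg fun j _ =>
      mul_nonneg zero_le_one (ind_nonneg _ _)) (E := {x | N ≤ ∑ j ∈ R, ind (E j) x}) hN
    (Eventually.of_forall fun x hx => le_trans hx (Finset.sum_le_sum fun j _ => by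
      rw [one_mul]; exact ind_mono (subset_toMeasurable _ _) x))
  rw [integral_sum_ind R (fun _ => 1) _ hm] at h1
  simpa [Measure.real, measure_toMeasurable] using h1

namespace Cfg

variable {ι : Type} {c : Cfg ι}

theorem palm_markov (T : ℝ) {κ : Type} (R : Finset κ) (E : κ → ι → Set ℝ) {N : ℝ} (hN : 0 ≤ N) :
    N * c.palm T (fun p => {t | N ≤ ∑ j ∈ R, ind (E j p) t}) ≤ ∑ j ∈ R, c.palm T (E j) := by
  unfold palm
  rw [Finset.mul_sum, Finset.sum_comm]
  exact Finset.sum_le_sum fun p _ => markov_sets R (fun j => E j p) hN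

theorem sum_ind_near (V t : ℝ) (a : ι) :
    ∑ p ∈ c.P, ind (c.near V a p) t ≤ c.cnt V t (c.Y a t) univ := by
  apply sum_ind_le
  intro S hS h
  exact card_le_cnt S fun q hq => ⟨hS hq, h q hq, mem_univ _⟩

/-- Points that pass the apex soon have bounded total weight. -/
theorem H3.near_sum (h : c.H3) {a q : ι} (ha : a ∈ c.P) (hq : q ∈ c.P) (haq : a ≠ q) {t u B : ℝ}
    (hu : 0 < u) (hB : 0 < B) (hc : t ∈ c.near (1 / 4) a q) (hv : |c.x q - c.x a| ≤ u)
    (Nr : Finset ι) (hN : ∀ b ∈ Nr, b ∈ c.P ∧ a ≠ b ∧ q ≠ b ∧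
      u * |c.Y b t - c.Y a t| ≤ B * |c.x b - c.x a|) :
    ∑ b ∈ Nr, 2 / |c.Y b t - c.Y a t| ≤ 32 * B := by
  have h1 : ∀ b ∈ Nr, 3 / 4 < |c.Y b t - c.Y a t| := fun b hb =>
    h.far_of_coll ha hq (hN b hb).1 haq (hN b hb).2.1 (hN b hb).2.2.1 hc
  have h2 : ∀ b ∈ Nr, 0 < |c.x b - c.x a| := by
    intro b hb
    have k1 := (hN b hb).2.2.2
    have k2 := h1 b hb
    by_contra hn
    have k3 : |c.x b - c.x a| = 0 := le_antisymm (not_lt.mp hn) (abs_nonneg _)
    rw [k3] at k1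
    nlinarith
  have h3 := h.arcs ha Nr (fun b hb => (hN b hb).1) t (2 * B / u) (by positivity)
    (fun b hb => abs_pos.mp (h2 b hb)) (by
      intro b hb t' ht'
      have k1 := time_shift ht' (show t ∈ c.near |c.Y b t - c.Y a t| a b from
        le_refl |c.Y b t - c.Y a t|)
      have k2 := (hN b hb).2.2.2
      have k3 := h1 b hb
      rw [le_div_iff₀ hu]
      have k4 : |t' - t| * u * |c.x b - c.x a| ≤ 2 * B * |c.x b - c.x a| := by nlinarith
      exact le_of_mul_le_mul_right k4 (h2 b hb))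
  have h4 : ∀ b ∈ Nr, 2 / |c.Y b t - c.Y a t| ≤ 8 * u * (1 / |c.x b - c.x a|) := by
    intro b hb
    have k1 := h.cone ha hq (hN b hb).1 haq (hN b hb).2.1 (hN b hb).2.2.1 hu hc hv
    rw [mul_one_div, div_le_div_iff₀ (by linarith [h1 b hb]) (h2 b hb)]
    linarith
  refine (Finset.sum_le_sum h4).trans ?_
  rw [← Finset.mul_sum]
  refine (mul_le_mul_of_nonneg_left h3 (by positivity)).trans (le_of_eq ?_)
  field_simp; ring

/-- The multi-scale count around an apex. -/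
theorem H3.apex (h : c.H3) {a q : ι} (ha : a ∈ c.P) (hq : q ∈ c.P) (haq : a ≠ q)
    {t u B W θ0 : ℝ} (hu : 0 < u) (hB : 0 < B) (hW : 0 ≤ W) (hθ : 0 ≤ θ0)
    (hc : t ∈ c.near (1 / 4) a q) (hv : |c.x q - c.x a| ≤ u) (m : ℕ) (Jb : Finset ℕ)
    (ζ Hv : ℕ → ℝ)
    (hJ : ∀ j ∈ Finset.range m, j ∉ Jb → c.M W a t (u * (2 * 2 ^ j) / B) ≤ ζ j)
    (hH : ∀ j ∈ Finset.range m, ∀ Q : Finset ι, (∀ b ∈ Q, b ∈ c.P ∧ a ≠ b ∧
      t ∈ c.near (2 * 2 ^ j) a b ∧
      θ0 * (2 * 2 ^ j) ≤ c.cnt (2 * 2 ^ j) t (c.Y a t) (c.cb a |c.x b - c.x a|) ∧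
      c.M W a t |c.x b - c.x a| ≤ ζ j) → (Q.card : ℝ) ≤ Hv j) :
    ∑ j ∈ Finset.range m, c.cnt (2 * 2 ^ j) t (c.Y a t) univ / (2 * 2 ^ j) ≤
      5 * Jb.card + 2 + 32 * B + m * θ0 + ∑ j ∈ Finset.range m, Hv j / (2 * 2 ^ j) := by
  set Nr := c.P.filter (fun b => a ≠ b ∧ q ≠ b ∧ u * |c.Y b t - c.Y a t| ≤ B * |c.x b - c.x a|)
    with hNr
  have hN := h.near_sum ha hq haq hu hB hc hv Nr (fun b hb => Finset.mem_filter.mp hb)
  have s1 : ∀ j ∈ Finset.range m, c.cnt (2 * 2 ^ j) t (c.Y a t) univ / (2 * 2 ^ j) ≤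
      5 * ind (Jb : Set ℕ) j + 2 * (ind (Ici (2 : ℝ)) (2 * 2 ^ j) / (2 * 2 ^ j)) +
      ∑ b ∈ Nr, ind (Ici |c.Y b t - c.Y a t|) (2 * 2 ^ j) / (2 * 2 ^ j) + θ0 +
      Hv j / (2 * 2 ^ j) := by
    intro j hj
    have hd2 : (2 : ℝ) ≤ 2 * 2 ^ j := by
      have : (1 : ℝ) ≤ 2 ^ j := one_le_pow₀ (by norm_num)
      linarith
    set d : ℝ := 2 * 2 ^ j with hd
    have hd0 : 0 < d := by linarith
    have hHv : 0 ≤ Hv j := by simpa using hH j hj ∅ (by simp)
    have k0 : 0 ≤ ∑ b ∈ Nr, ind (Ici |c.Y b t - c.Y a t|) d / d :=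
      Finset.sum_nonneg fun b _ => div_nonneg (ind_nonneg _ _) hd0.le
    rw [ind_of_mem (show d ∈ Ici (2 : ℝ) from hd2)]
    by_cases hjb : j ∈ Jb
    · rw [ind_of_mem (show j ∈ (Jb : Set ℕ) from hjb)]
      have k1 : c.cnt d t (c.Y a t) univ / d ≤ 5 := by
        rw [div_le_iff₀ hd0]
        linarith [h.cnt_le hd0.le t (c.Y a t) univ]
      have : 0 ≤ Hv j / d := by positivity
      have : 0 ≤ 2 * (1 / d) := by positivity
      linarith
    · rw [ind_of_not (show j ∉ (Jb : Set ℕ) from hjb)]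
      set S := c.sel d t (c.Y a t) univ with hS
      set S1 := Nr.filter (fun b => |c.Y b t - c.Y a t| ≤ d) with hS1
      set S2 := S.filter (fun b => a ≠ b ∧ |c.x b - c.x a| ≤ u * d / B ∧
        θ0 * d ≤ c.cnt d t (c.Y a t) (c.cb a |c.x b - c.x a|)) with hS2
      set S3 := S.filter (fun b => c.cnt d t (c.Y a t) (c.cb a |c.x b - c.x a|) < θ0 * d) with hS3
      have k1 : S ⊆ {a, q} ∪ S1 ∪ S2 ∪ S3 := by
        intro b hb
        have hb' := mem_sel.mp hb
        simp only [Finset.mem_union, Finset.mem_insert, Finset.mem_singleton, hS1, hS2, hS3, hNr,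
          Finset.mem_filter]
        by_cases e1 : a = b
        · exact Or.inl (Or.inl (Or.inl (Or.inl e1.symm)))
        by_cases e2 : q = b
        · exact Or.inl (Or.inl (Or.inl (Or.inr e2.symm)))
        by_cases e3 : u * |c.Y b t - c.Y a t| ≤ B * |c.x b - c.x a|
        · exact Or.inl (Or.inl (Or.inr ⟨⟨hb'.1, e1, e2, e3⟩, hb'.2.1⟩))
        by_cases e4 : θ0 * d ≤ c.cnt d t (c.Y a t) (c.cb a |c.x b - c.x a|)
        · refine Or.inl (Or.inr ⟨hb, e1, ?_, e4⟩)
          rw [le_div_iff₀ hB]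
          have := mul_le_mul_of_nonneg_left hb'.2.1 hu.le
          linarith [not_le.mp e3]
        · exact Or.inr ⟨hb, not_le.mp e4⟩
      have k2 : S.card ≤ 2 + S1.card + S2.card + S3.card := by
        have a1 := Finset.card_le_card k1
        have a2 := Finset.card_union_le ({a, q} ∪ S1 ∪ S2) S3
        have a3 := Finset.card_union_le ({a, q} ∪ S1) S2
        have a4 := Finset.card_union_le {a, q} S1
        have a5 : ({a, q} : Finset ι).card ≤ 2 := Finset.card_le_two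
        omega
      have k3 : (S1.card : ℝ) ≤ ∑ b ∈ Nr, ind (Ici |c.Y b t - c.Y a t|) d :=
        le_sum_ind Nr (fun b => Ici |c.Y b t - c.Y a t|) d S1 (Finset.filter_subset _ _)
          fun b hb => (Finset.mem_filter.mp hb).2
      have k4 : (S2.card : ℝ) ≤ Hv j := by
        apply hH j hj
        intro b hb
        have b1 := Finset.mem_filter.mp hb
        have b2 := mem_sel.mp b1.1
        exact ⟨b2.1, b1.2.1, b2.2.1, b1.2.2.2, (M_mono hW a t b1.2.2.1).trans (hJ j hj hjb)⟩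
      have k5 : (S3.card : ℝ) ≤ θ0 * d := by
        apply card_le_of_max S3 (fun b => |c.x b - c.x a|) (by positivity)
        intro b hb hmax
        refine le_trans (card_le_cnt S3 fun b' hb' => ?_) (Finset.mem_filter.mp hb).2.le
        have b2 := mem_sel.mp (Finset.mem_filter.mp hb').1
        exact ⟨b2.1, b2.2.1, hmax b' hb'⟩
      have k6 : (S.card : ℝ) ≤ 2 + S1.card + S2.card + S3.card := by exact_mod_cast k2
      rw [← Finset.sum_div]
      have e : 5 * 0 + 2 * (1 / d) + (∑ b ∈ Nr, ind (Ici |c.Y b t - c.Y a t|) d) / d + θ0 +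
          Hv j / d = (2 + (∑ b ∈ Nr, ind (Ici |c.Y b t - c.Y a t|) d) + Hv j + θ0 * d) / d := by
        field_simp; ring
      rw [e]
      apply div_le_div_of_nonneg_right _ hd0.le
      unfold cnt
      linarith
  refine (Finset.sum_le_sum s1).trans ?_
  simp only [Finset.sum_add_distrib, ← Finset.mul_sum, Finset.sum_const, Finset.card_range,
    nsmul_eq_mul]
  have s2 : ∑ j ∈ Finset.range m, ind (Jb : Set ℕ) j ≤ Jb.card := by
    have := sum_ind_le (Finset.range m) (fun j => {_u : Unit | j ∈ (Jb : Set ℕ)}) ()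
      (B := Jb.card) (fun S _ hS => by
        exact_mod_cast Finset.card_le_card fun j hj => hS j hj)
    exact this
  have s3 := dyadic (d0 := 2) (u := 2) two_pos two_pos m
  have s4 : ∑ j ∈ Finset.range m, ∑ b ∈ Nr,
      ind (Ici |c.Y b t - c.Y a t|) (2 * 2 ^ j) / (2 * 2 ^ j) ≤ 32 * B := by
    rw [Finset.sum_comm]
    refine le_trans (Finset.sum_le_sum fun b hb => dyadic two_pos ?_ m) hN
    have := Finset.mem_filter.mp hb
    linarith [h.far_of_coll ha hq this.1 haq this.2.1 this.2.2.1 hc]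
  linarith

/-- Lower bound for the number of close pairs of apexes. -/
theorem Adm.energy {K T d x : ℝ} (hc : c.Adm K T) (hd : 0 < d) (hdT : d / 2 ≤ T) (hx : 0 ≤ x)
    (R : Finset (ι × ι)) (hR : ∀ i ∈ R, i.1 ∈ c.P) (B : Set (ℝ × ℝ))
    (hB : ∀ i ∈ R, ∀ t s, |t| ≤ T → t ∈ c.near (1 / 4) i.1 i.2 → |c.Y i.1 t - s| ≤ d / 2 →
      (t, s) ∈ B) :
    2 * x * d * c.lam T (1 / 4) R (fun _ => 1) ≤
      d * ∑ k ∈ R ×ˢ R, (mu T).real (c.near (1 / 4) k.1.1 k.1.2 ∩
        (c.near (1 / 4) k.2.1 k.2.2 ∩ c.near d k.1.1 k.2.1)) + x ^ 2 * (bx T).real B := by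
  set S : ι × ι → Set (ℝ × ℝ) := fun i => c.strip (c.near (1 / 4) i.1 i.2) i.1 (d / 2) with hS
  have hm : ∀ i, MeasurableSet (S i) := fun i => measurable_strip (measurable_near _ _ _) _ _
  have s1 := upper1 (μ := bx T) (integrable_sum_ind R (fun _ => 2 * x) S fun i _ => hm i)
    (integrable_sum_ind (R ×ˢ R) (fun _ => 1) (fun k => S k.1 ∩ S k.2)
      fun k _ => (hm k.1).inter (hm k.2)) B (sq_nonneg x) (by
      filter_upwards [bx_ae T] with z hz
      simp only [one_mul, ind_inter, ← Finset.mul_sum]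
      rw [Finset.sum_product' (f := fun i j => ind (S i) z * ind (S j) z), ← Finset.sum_mul_sum]
      by_cases hex : ∃ i ∈ R, z ∈ S i
      · obtain ⟨i, hi, hz'⟩ := hex
        rw [ind_of_mem (show z ∈ B from hB i hi z.1 z.2 hz.1 hz'.1 hz'.2)]
        nlinarith [sq_nonneg (∑ i ∈ R, ind (S i) z - x)]
      · push Not at hex
        rw [Finset.sum_eq_zero fun i hi => ind_of_not (hex i hi)]
        have := ind_nonneg B z
        simp only [mul_zero, zero_add]
        positivity)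
  rw [integral_sum_ind R (fun _ => 2 * x) S fun i _ => hm i,
    integral_sum_ind (R ×ˢ R) (fun _ => 1) (fun k => S k.1 ∩ S k.2)
      fun k _ => (hm k.1).inter (hm k.2)] at s1
  have s2 : 2 * x * d * c.lam T (1 / 4) R (fun _ => 1) ≤ ∑ i ∈ R, 2 * x * (bx T).real (S i) := by
    unfold lam
    rw [Finset.mul_sum]
    refine Finset.sum_le_sum fun i hi => ?_
    have := hc.strip_ge (measurable_near (c := c) (1 / 4) i.1 i.2) (hR i hi) (h := d / 2) (by linarith) hdT
    have := mul_le_mul_of_nonneg_left this (show 0 ≤ 2 * x by linarith)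
    simp only [hS]
    linarith
  have s3 : ∑ k ∈ R ×ˢ R, 1 * (bx T).real (S k.1 ∩ S k.2) ≤
      d * ∑ k ∈ R ×ˢ R, (mu T).real (c.near (1 / 4) k.1.1 k.1.2 ∩
        (c.near (1 / 4) k.2.1 k.2.2 ∩ c.near d k.1.1 k.2.1)) := by
    rw [Finset.mul_sum]
    refine Finset.sum_le_sum fun k _ => ?_
    have k1 := strip_le (c := c) T ((measurable_near (c := c) (1 / 4) k.1.1 k.1.2).inter
      ((measurable_near (c := c) (1 / 4) k.2.1 k.2.2).inter
        (measurable_near (c := c) d k.1.1 k.2.1))) k.1.1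
      (h := d / 2) (by linarith)
    have k2 : (bx T).real (S k.1 ∩ S k.2) ≤ (bx T).real (c.strip (c.near (1 / 4) k.1.1 k.1.2 ∩
        (c.near (1 / 4) k.2.1 k.2.2 ∩ c.near d k.1.1 k.2.1)) k.1.1 (d / 2)) := by
      apply measureReal_mono
      · rintro z ⟨⟨a1, a2⟩, a3, a4⟩
        refine ⟨⟨a1, a3, ?_⟩, a2⟩
        show |c.Y k.2.1 z.1 - c.Y k.1.1 z.1| ≤ d
        rw [abs_le] at a2 a4 ⊢
        constructor <;> linarith [a2.1, a2.2, a4.1, a4.2]
      · exact measure_ne_top _ _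
    linarith
  linarith

end Cfg

end Pool.Agent.Lib.MP_dd58da_co
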