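import Mathlib

set_option autoImplicit false

open MeasureTheory Set Filter
open scoped Classical

namespace Pool.Agent.Lib.MP_dd58da_co

/-- A finite family of moving points: point `p` sits at height `y p - t * x p` at time `t`. -/
structure Cfg (ι : Type) where
  P : Finset ι
  x : ι → ℝ
  y : ι → ℝ

/-- Splitting a range of length `L` into cells of width `w`. -/
theorem cells {ι : Type} (S : Finset ι) (f g : ι → ℝ) (a L w B : ℝ) (hw : 0 < w) (hL : 0 ≤ L)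
    (hB : 0 ≤ B) (hf : ∀ z ∈ S, a ≤ f z ∧ f z ≤ a + L)
    (hS : ∀ S' ⊆ S, (∀ z ∈ S', ∀ z' ∈ S', |f z - f z'| ≤ w) → ∑ z ∈ S', g z ≤ B) :
    ∑ z ∈ S, g z ≤ (L / w + 1) * B := by
  have hmaps : ∀ z ∈ S, ⌊(f z - a) / w⌋₊ ∈ Finset.range (⌊L / w⌋₊ + 1) := by
    intro z hz
    rw [Finset.mem_range, Nat.lt_succ_iff]
    apply Nat.floor_le_floor
    have := (hf z hz).2
    gcongr
    linarith
  rw [← Finset.sum_fiberwise_of_maps_to hmaps]
  have h1 : ∀ k ∈ Finset.range (⌊L / w⌋₊ + 1),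
      ∑ z ∈ S.filter (fun z => ⌊(f z - a) / w⌋₊ = k), g z ≤ B := by
    intro k _
    apply hS _ (Finset.filter_subset _ _)
    intro z hz z' hz'
    rw [Finset.mem_filter] at hz hz'
    have h0 : 0 ≤ (f z - a) / w := div_nonneg (by linarith [(hf z hz.1).1]) hw.le
    have h0' : 0 ≤ (f z' - a) / w := div_nonneg (by linarith [(hf z' hz'.1).1]) hw.le
    have a1 := Nat.floor_le h0
    have a2 := Nat.lt_floor_add_one ((f z - a) / w)
    have b1 := Nat.floor_le h0'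
    have b2 := Nat.lt_floor_add_one ((f z' - a) / w)
    rw [hz.2] at a1 a2
    rw [hz'.2] at b1 b2
    rw [le_div_iff₀ hw] at a1 b1
    rw [div_lt_iff₀ hw] at a2 b2
    rw [abs_le]
    constructor <;> nlinarith
  calc _ ≤ ∑ _k ∈ Finset.range (⌊L / w⌋₊ + 1), B := Finset.sum_le_sum h1
    _ = ((⌊L / w⌋₊ : ℝ) + 1) * B := by simp
    _ ≤ (L / w + 1) * B := by
        have := Nat.floor_le (div_nonneg hL hw.le)
        gcongr

namespace Cfg

variable {ι : Type} (c : Cfg ι)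

def Y (p : ι) (t : ℝ) : ℝ := c.y p - t * c.x p

/-- No three points are ever within a window of height one. -/
def H3 : Prop :=
  ∀ t : ℝ, ∀ p ∈ c.P, ∀ q ∈ c.P, ∀ z ∈ c.P, p ≠ q → p ≠ z → q ≠ z →
    |c.Y p t - c.Y q t| ≤ 1 → |c.Y p t - c.Y z t| ≤ 1 → |c.Y q t - c.Y z t| ≤ 1 → False

structure Adm (K T : ℝ) : Prop where
  h3 : c.H3
  hx : ∀ p ∈ c.P, 0 ≤ c.x p ∧ c.x p ≤ 1
  hy : ∀ p ∈ c.P, 0 ≤ c.y p ∧ c.y p ≤ T
  sep : ∀ p ∈ c.P, ∀ q ∈ c.P, p ≠ q → K ≤ |c.x p - c.x q| * T ∨ K ≤ |c.y p - c.y q|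
  hK : K ≤ T

noncomputable def sel (W t s : ℝ) (I : Set ℝ) : Finset ι :=
  c.P.filter (fun z => |c.Y z t - s| ≤ W ∧ c.x z ∈ I)

noncomputable def cnt (W t s : ℝ) (I : Set ℝ) : ℝ := ((c.sel W t s I).card : ℝ)

noncomputable def dens (W t s : ℝ) (I : Set ℝ) : ℝ := c.cnt W t s I / (2 * W)

def Ubad (ε V W t s : ℝ) : Prop :=
  ∃ I : Set ℝ, I.OrdConnected ∧ ε < |c.dens V t s I - c.dens W t s I|

/-- The slopes within `r` of the slope of `p`. -/
def cb (p : ι) (r : ℝ) : Set ℝ := {u | |u - c.x p| ≤ r}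

noncomputable def M (W : ℝ) (p : ι) (t r : ℝ) : ℝ := c.dens W t (c.Y p t) (c.cb p r)

/-- Times at which `p` and `q` are within `V`. -/
def near (V : ℝ) (p q : ι) : Set ℝ := {t | |c.Y q t - c.Y p t| ≤ V}

variable {c}

theorem mem_sel {W t s : ℝ} {I : Set ℝ} {z : ι} :
    z ∈ c.sel W t s I ↔ z ∈ c.P ∧ |c.Y z t - s| ≤ W ∧ c.x z ∈ I := by
  simp [sel]

theorem cb_ord (p : ι) (r : ℝ) : (c.cb p r).OrdConnected := by
  have : c.cb p r = Icc (c.x p - r) (c.x p + r) := by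
    ext u
    simp only [cb, mem_ofPred_eq, mem_Icc, abs_le]
    constructor <;> rintro ⟨h1, h2⟩ <;> constructor <;> linarith
  rw [this]
  exact ordConnected_Icc

theorem Adm.mono_T {K T T' : ℝ} (h : c.Adm K T) (hT : T ≤ T') : c.Adm K T' where
  h3 := h.h3
  hx := h.hx
  hy := fun p hp => ⟨(h.hy p hp).1, (h.hy p hp).2.trans hT⟩
  sep := fun p hp q hq hpq => (h.sep p hp q hq hpq).imp_left fun h1 =>
    h1.trans (mul_le_mul_of_nonneg_left hT (abs_nonneg _))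
  hK := h.hK.trans hT

theorem Y_sub (p q : ι) (t t' : ℝ) :
    c.Y q t' - c.Y p t' = (c.Y q t - c.Y p t) - (t' - t) * (c.x q - c.x p) := by
  simp only [Y]; ring

theorem H3.card_le_two (h : c.H3) (t : ℝ) (S : Finset ι) (hS : S ⊆ c.P)
    (hd : ∀ z ∈ S, ∀ z' ∈ S, |c.Y z t - c.Y z' t| ≤ 1) : S.card ≤ 2 := by
  by_contra hc
  push Not at hc
  obtain ⟨p, q, z, hp, hq, hz, hpq, hpz, hqz⟩ := Finset.two_lt_card_iff.mp hc
  exact h t p (hS hp) q (hS hq) z (hS hz) hpq hpz hqz (hd p hp q hq) (hd p hp z hz) (hd q hq z hz)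

/-- Points of `P` in a window of height `L`. -/
theorem H3.card_window (h : c.H3) (t a L : ℝ) (hL : 0 ≤ L) (S : Finset ι) (hS : S ⊆ c.P)
    (hf : ∀ z ∈ S, a ≤ c.Y z t ∧ c.Y z t ≤ a + L) : (S.card : ℝ) ≤ 2 * L + 2 := by
  have := cells S (fun z => c.Y z t) (fun _ => 1) a L 1 2 one_pos hL (by norm_num) hf (by
    intro S' hS' hd
    have := h.card_le_two t S' (hS'.trans hS) hd
    simp only [Finset.sum_const, nsmul_eq_mul, mul_one]
    exact_mod_cast this)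
  simp only [Finset.sum_const, nsmul_eq_mul, mul_one] at this
  linarith

theorem H3.cnt_le (h : c.H3) {W : ℝ} (hW : 0 ≤ W) (t s : ℝ) (I : Set ℝ) :
    c.cnt W t s I ≤ 4 * W + 2 := by
  have := h.card_window t (s - W) (2 * W) (by linarith) (c.sel W t s I) (Finset.filter_subset _ _)
    (by
      intro z hz
      have := (mem_sel.mp hz).2.1
      rw [abs_le] at this
      constructor <;> linarith [this.1, this.2])
  unfold cnt
  linarith

theorem cnt_nonneg (W t s : ℝ) (I : Set ℝ) : 0 ≤ c.cnt W t s I := Nat.cast_nonneg _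

theorem dens_nonneg {W : ℝ} (hW : 0 ≤ W) (t s : ℝ) (I : Set ℝ) : 0 ≤ c.dens W t s I :=
  div_nonneg (cnt_nonneg _ _ _ _) (by linarith)

theorem H3.dens_le (h : c.H3) {W : ℝ} (hW : 1 ≤ W) (t s : ℝ) (I : Set ℝ) :
    c.dens W t s I ≤ 3 := by
  have := h.cnt_le (W := W) (by linarith) t s I
  unfold dens
  rw [div_le_iff₀ (by linarith)]
  linarith

theorem cnt_mono {W W' t t' s s' : ℝ} {I I' : Set ℝ}
    (h : ∀ z ∈ c.P, |c.Y z t - s| ≤ W → c.x z ∈ I → |c.Y z t' - s'| ≤ W' ∧ c.x z ∈ I') :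
    c.cnt W t s I ≤ c.cnt W' t' s' I' := by
  unfold cnt
  have : c.sel W t s I ⊆ c.sel W' t' s' I' := by
    intro z hz
    rw [mem_sel] at hz ⊢
    exact ⟨hz.1, h z hz.1 hz.2.1 hz.2.2⟩
  exact_mod_cast Finset.card_le_card this

theorem dens_mono {W t s : ℝ} (hW : 0 ≤ W) {I I' : Set ℝ} (h : I ⊆ I') :
    c.dens W t s I ≤ c.dens W t s I' := by
  unfold dens
  apply div_le_div_of_nonneg_right _ (by linarith)
  exact cnt_mono fun z _ h1 h2 => ⟨h1, h h2⟩

theorem M_mono {W : ℝ} (hW : 0 ≤ W) (p : ι) (t : ℝ) {r r' : ℝ} (h : r ≤ r') :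
    c.M W p t r ≤ c.M W p t r' :=
  dens_mono hW fun _ hu => le_trans hu h

theorem M_nonneg {W : ℝ} (hW : 0 ≤ W) (p : ι) (t r : ℝ) : 0 ≤ c.M W p t r :=
  dens_nonneg hW _ _ _

theorem cnt_diff {W t s : ℝ} {I J : Set ℝ} (h : J ⊆ I) :
    c.cnt W t s (I \ J) = c.cnt W t s I - c.cnt W t s J := by
  unfold cnt
  have h1 : c.sel W t s (I \ J) = c.sel W t s I \ c.sel W t s J := by
    ext z
    simp only [mem_sel, Finset.mem_sdiff, Set.mem_sdiff]
    tauto
  have h2 : c.sel W t s J ⊆ c.sel W t s I := by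
    intro z hz
    rw [mem_sel] at hz ⊢
    exact ⟨hz.1, hz.2.1, h hz.2.2⟩
  rw [h1, Finset.card_sdiff_of_subset h2, Nat.cast_sub (Finset.card_le_card h2)]

theorem dens_diff {W t s : ℝ} {I J : Set ℝ} (h : J ⊆ I) :
    c.dens W t s (I \ J) = c.dens W t s I - c.dens W t s J := by
  unfold dens
  rw [cnt_diff h]; ring

/-- Stability of window counts. -/
theorem H3.cnt_stab (h : c.H3) {W e : ℝ} (he : 0 ≤ e) (t s t' s' : ℝ) (I : Set ℝ)
    (hI : ∀ z ∈ c.P, c.x z ∈ I → |(c.Y z t - s) - (c.Y z t' - s')| ≤ e) :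
    c.cnt W t s I ≤ c.cnt W t' s' I + (4 * e + 4) := by
  set A := c.P.filter (fun z => s' + W ≤ c.Y z t' ∧ c.Y z t' ≤ s' + W + e) with hA
  set B := c.P.filter (fun z => s' - W - e ≤ c.Y z t' ∧ c.Y z t' ≤ s' - W - e + e) with hB
  have hA' : (A.card : ℝ) ≤ 2 * e + 2 :=
    h.card_window t' (s' + W) e he A (Finset.filter_subset _ _)
      (fun z hz => (Finset.mem_filter.mp hz).2)
  have hB' : (B.card : ℝ) ≤ 2 * e + 2 :=
    h.card_window t' (s' - W - e) e he B (Finset.filter_subset _ _)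
      (fun z hz => (Finset.mem_filter.mp hz).2)
  have hsub : c.sel W t s I ⊆ c.sel W t' s' I ∪ A ∪ B := by
    intro z hz
    rw [mem_sel] at hz
    obtain ⟨hP, h1, h2⟩ := hz
    have h3 := hI z hP h2
    rw [abs_le] at h1 h3
    simp only [Finset.mem_union, mem_sel, hA, hB, Finset.mem_filter, abs_le]
    by_cases c1 : s' + W ≤ c.Y z t'
    · left; right; exact ⟨hP, c1, by linarith⟩
    · by_cases c2 : c.Y z t' ≤ s' - W
      · right; exact ⟨hP, by linarith, by linarith⟩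
      · left; left; exact ⟨hP, ⟨by linarith, by linarith⟩, h2⟩
  have h4 := Finset.card_le_card hsub
  have h5 := Finset.card_union_le (c.sel W t' s' I ∪ A) B
  have h6 := Finset.card_union_le (c.sel W t' s' I) A
  have h7 : ((c.sel W t s I).card : ℝ) ≤ (c.sel W t' s' I).card + A.card + B.card := by
    exact_mod_cast (by omega)
  unfold cnt
  linarith

theorem H3.dens_stab (h : c.H3) {W e : ℝ} (hW : 0 < W) (he : 0 ≤ e) (t s t' s' : ℝ) (I : Set ℝ)
    (hI : ∀ z ∈ c.P, c.x z ∈ I → |(c.Y z t - s) - (c.Y z t' - s')| ≤ e) :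
    c.dens W t s I ≤ c.dens W t' s' I + (2 * e + 2) / W := by
  have := h.cnt_stab (W := W) he t s t' s' I hI
  unfold dens
  rw [div_add_div _ _ (by positivity) (by positivity), div_le_div_iff₀ (by positivity) (by positivity)]
  nlinarith [mul_pos hW hW]

theorem H3.dens_shift (h : c.H3) {W e : ℝ} (hW : 0 < W) (t s s' : ℝ) (I : Set ℝ)
    (hs : |s - s'| ≤ e) : c.dens W t s I ≤ c.dens W t s' I + (2 * e + 2) / W := by
  apply h.dens_stab hW ((abs_nonneg _).trans hs)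
  intro z _ _
  have : c.Y z t - s - (c.Y z t - s') = -(s - s') := by ring
  rw [this, abs_neg]
  exact hs

/-- Stability in time of the density seen from `p`, for slopes within `r` of that of `p`. -/
theorem H3.dens_time (h : c.H3) {W e r : ℝ} (hW : 0 < W) (he : 0 ≤ e) (p : ι) (t t' : ℝ)
    (I : Set ℝ) (hI : I ⊆ c.cb p r) (ht : |t - t'| * r ≤ e) :
    c.dens W t (c.Y p t) I ≤ c.dens W t' (c.Y p t') I + (2 * e + 2) / W := by
  apply h.dens_stab hW he
  intro z _ hz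
  have h1 : |c.x z - c.x p| ≤ r := hI hz
  have : c.Y z t - c.Y p t - (c.Y z t' - c.Y p t') = -((t - t') * (c.x z - c.x p)) := by
    simp only [Y]; ring
  rw [this, abs_neg, abs_mul]
  exact (mul_le_mul_of_nonneg_left h1 (abs_nonneg _)).trans ht

theorem H3.M_time (h : c.H3) {W e r : ℝ} (hW : 0 < W) (he : 0 ≤ e) (p : ι) (t t' : ℝ)
    (ht : |t - t'| * r ≤ e) : c.M W p t r ≤ c.M W p t' r + (2 * e + 2) / W :=
  h.dens_time hW he p t t' _ subset_rfl ht

theorem time_shift {V V' : ℝ} {p q : ι} {t t' : ℝ} (h1 : t ∈ c.near V p q)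
    (h2 : t' ∈ c.near V' p q) : |t - t'| * |c.x q - c.x p| ≤ V + V' := by
  have e : (t - t') * (c.x q - c.x p) = (c.Y q t' - c.Y p t') - (c.Y q t - c.Y p t) := by
    simp only [Y]; ring
  rw [← abs_mul, e]
  have a1 : |c.Y q t - c.Y p t| ≤ V := h1
  have a2 : |c.Y q t' - c.Y p t'| ≤ V' := h2
  exact (abs_sub _ _).trans (by linarith)

theorem H3.far_of_coll (h : c.H3) {p q z : ι} (hp : p ∈ c.P) (hq : q ∈ c.P) (hz : z ∈ c.P)
    (hpq : p ≠ q) (hpz : p ≠ z) (hqz : q ≠ z) {t : ℝ} (hc : t ∈ c.near (1 / 4) p q) :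
    3 / 4 < |c.Y z t - c.Y p t| := by
  by_contra hn
  push Not at hn
  have hc' : |c.Y q t - c.Y p t| ≤ 1 / 4 := hc
  rw [abs_le] at hn hc'
  apply h t p hp q hq z hz hpq hpz hqz <;> rw [abs_le] <;> constructor <;> linarith

/-- Cone exclusion around a collision. -/
theorem H3.cone (h : c.H3) {p q z : ι} (hp : p ∈ c.P) (hq : q ∈ c.P) (hz : z ∈ c.P)
    (hpq : p ≠ q) (hpz : p ≠ z) (hqz : q ≠ z) {t u : ℝ} (hu : 0 < u)
    (hc : t ∈ c.near (1 / 4) p q) (hv : |c.x q - c.x p| ≤ u) :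
    |c.x z - c.x p| < 4 * u * |c.Y z t - c.Y p t| := by
  by_contra hn
  push Not at hn
  have h0 := h.far_of_coll hp hq hz hpq hpz hqz hc
  have hxz : 0 < |c.x z - c.x p| := lt_of_lt_of_le (by positivity) hn
  have hne : c.x z - c.x p ≠ 0 := abs_pos.mp hxz
  set τ := (c.Y z t - c.Y p t) / (c.x z - c.x p) with hτ
  have hτ1 : |τ| * (4 * u) ≤ 1 := by
    rw [hτ, abs_div, div_mul_eq_mul_div, div_le_one hxz]
    linarith
  have e1 : c.Y z (t + τ) - c.Y p (t + τ) = 0 := by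
    rw [Y_sub p z t (t + τ), hτ]
    field_simp
    ring
  have e2 : |c.Y q (t + τ) - c.Y p (t + τ)| ≤ 1 / 2 := by
    rw [Y_sub p q t (t + τ)]
    have hc' : |c.Y q t - c.Y p t| ≤ 1 / 4 := hc
    have : |(t + τ - t) * (c.x q - c.x p)| ≤ 1 / 4 := by
      rw [add_sub_cancel_left, abs_mul]
      have := mul_le_mul_of_nonneg_left hv (abs_nonneg τ)
      linarith
    exact (abs_sub _ _).trans (by linarith)
  rw [abs_le] at e2
  apply h (t + τ) p hp q hq z hz hpq hpz hqz <;> rw [abs_le] <;> constructor <;> linarith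

theorem Adm.T_pos {K T : ℝ} (h : c.Adm K T) (hK : 0 < K) : 0 < T := hK.trans_le h.hK

/-- Close pairs are not too slow. -/
theorem Adm.speed {K T V : ℝ} (h : c.Adm K T) (hV : 0 ≤ V) {p q : ι} (hp : p ∈ c.P) (hq : q ∈ c.P)
    (hpq : p ≠ q) {t : ℝ} (ht : |t| ≤ T) (hn : t ∈ c.near V p q) :
    K - V ≤ |c.x q - c.x p| * T := by
  rcases h.sep p hp q hq hpq with h1 | h1
  · rw [abs_sub_comm] at h1
    linarith
  · have hn' : |c.Y q t - c.Y p t| ≤ V := hn
    have e : c.y p - c.y q = -(c.Y q t - c.Y p t) - t * (c.x q - c.x p) := by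
      simp only [Y]; ring
    rw [e] at h1
    have h2 := abs_sub (-(c.Y q t - c.Y p t)) (t * (c.x q - c.x p))
    rw [abs_neg, abs_mul] at h2
    have h3 := mul_le_mul_of_nonneg_right ht (abs_nonneg (c.x q - c.x p))
    linarith

theorem Adm.Y_range {K T T' : ℝ} (h : c.Adm K T) {p : ι} (hp : p ∈ c.P) {t : ℝ} (ht : |t| ≤ T') :
    -T' ≤ c.Y p t ∧ c.Y p t ≤ T + T' := by
  obtain ⟨x0, x1⟩ := h.hx p hp
  obtain ⟨y0, y1⟩ := h.hy p hp
  rw [abs_le] at ht
  unfold Y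
  constructor <;> nlinarith [ht.1, ht.2]

theorem Adm.card_le {K T : ℝ} (h : c.Adm K T) (hT : 1 ≤ T) : (c.P.card : ℝ) ≤ 4 * T := by
  have := h.h3.card_window 0 0 T (by linarith) c.P subset_rfl (by
    intro z hz
    have := h.hy z hz
    simpa [Y] using this)
  linarith

end Cfg

end Pool.Agent.Lib.MP_dd58da_co
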