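import Pool.Agent.Lib.MP_dd58da_co.NJ

set_option autoImplicit false

open MeasureTheory Set Filter
open scoped Classical

namespace Pool.Agent.Lib.MP_dd58da_co

namespace Cfg

variable {ι : Type} {c : Cfg ι}

theorem J_nonneg {W A ε V : ℝ} (hW : 0 ≤ W) (hε : 0 < ε) (p : ι) (t r : ℝ) :
    0 ≤ c.J W A ε V p t r :=
  Finset.sum_nonneg fun q _ => by
    have := M_nonneg (c := c) hW p t (A * |c.x q - c.x p|)
    positivity

theorem Adm.M_small {K T W : ℝ} (hc : c.Adm K T) (hW : 0 < W) (hK : 2 * W ≤ K) {p : ι}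
    (hp : p ∈ c.P) {t : ℝ} (ht : |t| ≤ T) : c.M W p t (W / (2 * T)) ≤ 1 / (2 * W) := by
  have hT : 0 < T := hc.T_pos (by linarith)
  unfold M dens cnt
  apply div_le_div_of_nonneg_right _ (by linarith)
  have : c.sel W t (c.Y p t) (c.cb p (W / (2 * T))) ⊆ {p} := by
    intro q hq
    rw [mem_sel] at hq
    rw [Finset.mem_singleton]
    by_contra hne
    have h1 := hc.speed hW.le hp hq.1 (Ne.symm hne) ht hq.2.1
    have h2 : |c.x q - c.x p| ≤ W / (2 * T) := hq.2.2
    rw [le_div_iff₀ (by positivity)] at h2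
    linarith
  exact_mod_cast (Finset.card_le_card this).trans (by simp)

theorem H3.stage (h : c.H3) {W V A ε μ r0 rs t : ℝ} {p : ι} {L : ℕ} (hW : 1 ≤ W) (hV : 0 < V)
    (hA : 2 ≤ A) (hε : 0 < ε) (hεμ : ε ≤ μ / 8) (hr0 : 0 < r0) (hL : 3 < μ * 2 ^ L)
    (hU : t ∉ c.UP ε V W p) (h1 : μ ≤ c.M W p t (r0 / A ^ L)) (hrs : 0 < rs)
    (h2 : c.M W p t rs ≤ μ / 2) :
    ∃ r2, 0 < r2 ∧ μ / 2 ≤ c.M W p t r2 ∧
      c.J W A ε V p t (r2 / A) + V / 6 ≤ c.J W A ε V p t (r0 / A) := by
  have hW0 : 0 ≤ W := by linarith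
  have hA0 : 0 < A := by linarith
  have hμ : 0 < μ := by linarith
  have e1 : ∃ i < L, c.M W p t (r0 / A ^ i) < 2 * c.M W p t (r0 / A ^ (i + 1)) := by
    by_contra hn
    push Not at hn
    have : ∀ i ≤ L, 2 ^ i * c.M W p t (r0 / A ^ i) ≤ c.M W p t r0 := by
      intro i
      induction i with
      | zero => simp
      | succ i ih =>
        intro hi
        have a1 := ih (by omega)
        have a2 := mul_le_mul_of_nonneg_left (hn i (by omega)) (show (0 : ℝ) ≤ 2 ^ i by positivity)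
        rw [pow_succ 2]
        linarith
    have a1 := this L le_rfl
    have a2 : c.M W p t r0 ≤ 3 := h.dens_le hW _ _ _
    have a3 := mul_le_mul_of_nonneg_left h1 (show (0 : ℝ) ≤ 2 ^ L by positivity)
    linarith
  obtain ⟨i, hi, e2⟩ := e1
  set r1 := r0 / A ^ (i + 1) with hr1
  have hr1' : 0 < r1 := by positivity
  have b1 : μ ≤ c.M W p t r1 := by
    refine h1.trans (M_mono hW0 p t ?_)
    apply div_le_div_of_nonneg_left hr0.le (by positivity)
    exact pow_le_pow_right₀ (by linarith) hi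
  have b2 : r1 ≤ r0 / A := by
    apply div_le_div_of_nonneg_left hr0.le hA0
    exact le_self_pow₀ (by linarith) (by omega)
  have b3 : r0 / A ^ i = A * r1 := by rw [hr1, pow_succ]; field_simp
  rw [b3] at e2
  have hex : ∃ j : ℕ, c.M W p t (r1 / A ^ j) ≤ c.M W p t r1 / 2 := by
    obtain ⟨j, hj⟩ := pow_unbounded_of_one_lt (r1 / rs) (show (1 : ℝ) < A by linarith)
    refine ⟨j, le_trans (M_mono hW0 p t ?_) (h2.trans (by linarith))⟩
    rw [div_lt_iff₀ hrs] at hj
    rw [div_le_iff₀ (by positivity)]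
    linarith
  have h3 := Nat.find_spec hex
  rcases hn : Nat.find hex with _ | n
  · rw [hn] at h3
    simp only [pow_zero, div_one] at h3
    linarith
  rw [hn] at h3
  have h4 := not_le.mp (Nat.find_min hex (show n < Nat.find hex by omega))
  refine ⟨r1 / A ^ n, by positivity, by linarith, ?_⟩
  rw [show r1 / A ^ n / A = r1 / A ^ (n + 1) by rw [pow_succ, div_div]]
  set r3 := r1 / A ^ (n + 1) with hr3
  have hr3' : 0 < r3 := by positivity
  have b4 : r3 ≤ r1 := div_le_self hr1'.le (one_le_pow₀ (by linarith))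
  have b5 := ann_cnt hV b4 hU
  set S1 := (c.sel V t (c.Y p t) (c.cb p r3)).erase p with hS1
  set S2 := c.sel V t (c.Y p t) (c.cb p r1 \ c.cb p r3) with hS2
  have b6 : Disjoint S1 S2 := by
    rw [Finset.disjoint_left]
    intro q h1 h2
    exact (mem_sel.mp h2).2.2.2 (mem_sel.mp (Finset.mem_of_mem_erase h1)).2.2
  have b7 : S1 ∪ S2 ⊆ (c.sel V t (c.Y p t) (c.cb p (r0 / A))).erase p := by
    intro q hq
    rcases Finset.mem_union.mp hq with hq | hq
    · have q1 := Finset.mem_erase.mp hq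
      have q2 := mem_sel.mp q1.2
      exact Finset.mem_erase.mpr ⟨q1.1, mem_sel.mpr ⟨q2.1, q2.2.1,
        cb_mono p (b4.trans b2) q2.2.2⟩⟩
    · have q2 := mem_sel.mp hq
      exact Finset.mem_erase.mpr ⟨(ne_of_lt_abs hr3'.le (not_le.mp q2.2.2.2)).symm,
        mem_sel.mpr ⟨q2.1, q2.2.1, cb_mono p b2 q2.2.2.1⟩⟩
  have b8 : V / 6 ≤ ∑ q ∈ S2, 1 / (c.M W p t (A * |c.x q - c.x p|) + ε) := by
    have c1 : ∀ q ∈ S2, 1 / (3 * c.M W p t r1) ≤ 1 / (c.M W p t (A * |c.x q - c.x p|) + ε) := by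
      intro q hq
      have := M_nonneg (c := c) hW0 p t (A * |c.x q - c.x p|)
      apply one_div_le_one_div_of_le (by linarith)
      have q3 : |c.x q - c.x p| ≤ r1 := (mem_sel.mp hq).2.2.1
      have := M_mono (c := c) hW0 p t (mul_le_mul_of_nonneg_left q3 hA0.le)
      linarith
    refine le_trans ?_ (Finset.sum_le_sum c1)
    simp only [Finset.sum_const, nsmul_eq_mul]
    rw [mul_one_div, le_div_iff₀ (by linarith)]
    unfold cnt at b5
    nlinarith
  unfold J
  refine le_trans ?_ (Finset.sum_le_sum_of_subset_of_nonneg b7 fun q _ _ => by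
    have := M_nonneg (c := c) hW0 p t (A * |c.x q - c.x p|)
    positivity)
  rw [Finset.sum_union b6]
  linarith

theorem Adm.palm_low {K T W μ : ℝ} (hc : c.Adm K T) (hW : 0 < W) (hWT : W ≤ T) (hμ : 0 < μ) :
    c.palm T (fun p => {t | c.M W p t 1 < μ}) ≤ 16 * μ * T ^ 2 := by
  have hm : ∀ p ∈ c.P, MeasurableSet {t | c.M W p t 1 < μ} := by
    intro p _
    apply measurableSet_lt _ measurable_const
    have h0 : Measurable (fun t : ℝ => ((t, c.Y p t) : ℝ × ℝ)) :=
      measurable_id.prodMk (measurable_Y p)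
    have h1 := ((measurable_cnt (c := c) W (c.cb p 1)).comp h0).div_const (2 * W)
    simpa only [M, dens, Function.comp_def] using h1
  have h1 := integral_sum_ind (μ := mu T) c.P (fun _ => 1) _ hm
  have h2 : ∫ t, ∑ p ∈ c.P, 1 * ind {t | c.M W p t 1 < μ} t ∂mu T ≤ ∫ _t, 8 * T * μ ∂mu T := by
    apply integral_mono_ae (integrable_sum_ind _ _ _ hm) (integrable_const _)
    filter_upwards [mu_ae T] with t ht
    simp only [one_mul]
    apply sum_ind_le
    intro S hS hSM
    have c1 := cells S (fun z => c.Y z t) (fun _ => 1) (-T) (3 * T) W (2 * W * μ) hW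
      (by linarith) (by positivity) (fun z hz => by
        have := hc.Y_range (hS hz) ht
        constructor <;> linarith [this.1, this.2]) (by
        intro S' hS' hd
        simp only [Finset.sum_const, nsmul_eq_mul, mul_one]
        apply card_le_of_max S' (fun _ => 0) (by positivity)
        intro p hp _
        have e1 := card_le_cnt (c := c) (W := W) (t := t) (s := c.Y p t) (I := c.cb p 1) S' (by
          intro q hq
          refine ⟨hS (hS' hq), hd q hq p hp, ?_⟩
          have a1 := hc.hx q (hS (hS' hq))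
          have a2 := hc.hx p (hS (hS' hp))
          show |c.x q - c.x p| ≤ 1
          rw [abs_le]
          constructor <;> linarith [a1.1, a1.2, a2.1, a2.2])
        have e2 : c.M W p t 1 < μ := hSM p (hS' hp)
        unfold M dens at e2
        rw [div_lt_iff₀ (by linarith)] at e2
        linarith)
    simp only [Finset.sum_const, nsmul_eq_mul, mul_one] at c1
    have e : (3 * T / W + 1) * (2 * W * μ) = (3 * T + W) * (2 * μ) := by field_simp
    rw [e] at c1
    nlinarith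
  rw [h1, integral_const_mu (by linarith)] at h2
  simp only [one_mul] at h2
  unfold palm
  linarith

end Cfg

variable {ι : Type}

theorem chain (k : ℕ) {ε0 : ℝ} (hε0 : 0 < ε0) (hε1 : ε0 ≤ 1) : ∀ μ : ℝ, 0 < μ → ∃ ν : ℝ, 0 < ν ∧
    ∀ ε, 0 < ε → ε ≤ ν → ∀ A, 2 ≤ A →
    ∀ᶠ W : ℝ in atTop, ∀ᶠ K : ℝ in atTop, ∀ (c : Cfg ι) (T : ℝ), c.Adm K T → ∀ V, 0 < V →
      c.palm T (fun p => {t | t ∉ c.UP ε V W p ∧ ∃ r, 0 < r ∧ μ ≤ c.M W p t r ∧
        c.J W A ε V p t (r / A) < k * V / 6}) ≤ k * ε0 * T ^ 2 := by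
  induction k with
  | zero =>
    intro μ _
    refine ⟨1, one_pos, fun ε hε _ A _ => ?_⟩
    filter_upwards [eventually_ge_atTop 0] with W hW
    refine Eventually.of_forall fun K c T _ V _ => ?_
    have := Cfg.palm_mono (c := c) (T := T)
      (E := fun p => {t | t ∉ c.UP ε V W p ∧ ∃ r, 0 < r ∧ μ ≤ c.M W p t r ∧
        c.J W A ε V p t (r / A) < (0 : ℕ) * V / 6}) (E' := fun _ => ∅) (by
        rintro p _ t _ ⟨_, r, _, _, h⟩
        have := Cfg.J_nonneg (c := c) (A := A) (V := V) hW hε p t (r / A)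
        simp only [Nat.cast_zero, zero_mul, zero_div] at h
        linarith)
    refine this.trans ?_
    simp [Cfg.palm]
  | succ k ih =>
    intro μ hμ
    obtain ⟨μ', hμ', hNJ⟩ := NJ (ι := ι) hμ hε0 hε1
    obtain ⟨ν, hν, hih⟩ := ih (μ' / 2) (by positivity)
    obtain ⟨L, hL⟩ := pow_unbounded_of_one_lt (3 / μ') (show (1 : ℝ) < 2 by norm_num)
    rw [div_lt_iff₀ hμ'] at hL
    refine ⟨min ν (μ' / 8), lt_min hν (by positivity), fun ε hε hεν A hA => ?_⟩
    filter_upwards [hNJ (A ^ L) (one_le_pow₀ (by linarith)), hih ε hε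
      (hεν.trans (min_le_left _ _)) A hA, eventually_ge_atTop 1, ev_div 1 hμ'] with W k1 k2 k3 k4
    filter_upwards [k1, k2, eventually_ge_atTop (2 * W)] with K l1 l2 l3 c T hc V hV
    have hT : 0 < T := hc.T_pos (by linarith)
    have s1 := Cfg.palm_le_add (c := c) (T := T)
      (E := fun p => {t | t ∉ c.UP ε V W p ∧ ∃ r, 0 < r ∧ μ ≤ c.M W p t r ∧
        c.J W A ε V p t (r / A) < (k + 1 : ℕ) * V / 6})
      (E1 := fun p => {t | ∃ r, 0 < r ∧ μ ≤ c.M W p t r ∧ c.M W p t (r / A ^ L) < μ'})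
      (E2 := fun p => {t | t ∉ c.UP ε V W p ∧ ∃ r, 0 < r ∧ μ' / 2 ≤ c.M W p t r ∧
        c.J W A ε V p t (r / A) < k * V / 6}) (by
        rintro p hp t ht ⟨a1, r, a2, a3, a4⟩
        by_cases h : c.M W p t (r / A ^ L) < μ'
        · exact Or.inl ⟨r, a2, a3, h⟩
        · right
          have b1 := hc.M_small (W := W) (by linarith) l3 hp ht
          have b2 : 1 / (2 * W) ≤ μ' / 2 := by
            have : 1 / (2 * W) = 1 / W / 2 := by field_simp
            linarith
          obtain ⟨r2, c1, c2, c3⟩ := hc.h3.stage k3 hV hA hε (hεν.trans (min_le_right _ _)) a2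
            (L := L) (by linarith) a1 (not_lt.mp h) (rs := W / (2 * T)) (by positivity)
            (b1.trans b2)
          refine ⟨a1, r2, c1, c2, ?_⟩
          push_cast at a4
          linarith)
    have s2 := l1 c T hc
    have s3 := l2 c T hc V hV
    push_cast at s1 ⊢
    linarith

/-- An admissible configuration has `o(T)` points. -/
theorem main_bound {γ : ℝ} (hγ : 0 < γ) :
    ∀ᶠ K : ℝ in atTop, ∀ (c : Cfg ι) (T : ℝ), c.Adm K T → (c.P.card : ℝ) < γ * T := by
  obtain ⟨m, hm⟩ : ∃ m : ℕ, 2688 / γ ≤ m := exists_nat_ge _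
  have hm0 : (0 : ℝ) < m := lt_of_lt_of_le (by positivity) hm
  rw [div_le_iff₀ hγ] at hm
  set ε0 := min 1 (γ / (2 * m)) with hε0
  have hε1 : m * ε0 ≤ γ / 2 := by
    have : ε0 ≤ γ / (2 * m) := min_le_right _ _
    rw [le_div_iff₀ (by positivity)] at this
    linarith
  obtain ⟨ν, hν, h1⟩ := chain (ι := ι) m (ε0 := ε0) (lt_min one_pos (by positivity))
    (min_le_left _ _) (γ / 32) (by positivity)
  obtain ⟨A, hA, h2⟩ := ((eventually_ge_atTop 2).and (WC (ι := ι) hν)).exists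
  obtain ⟨V, hV, h3⟩ := PU' (ι := ι) hν (show 0 < γ / 4 by positivity)
  obtain ⟨W, hW, k1, k2, k3⟩ := ((eventually_ge_atTop 1).and
    ((h1 ν hν le_rfl A hA).and ((h2 V hV).and h3))).exists
  filter_upwards [k1, k2, k3, eventually_ge_atTop W] with K l1 l2 l3 l4 c T hc
  have hWT : W ≤ T := l4.trans hc.hK
  have hT : 0 < T := by linarith
  have s1 := l1 c T hc V (by linarith)
  have s2 := l2 c T hc (m * V / 6) (by positivity)
  have s3 := l3 c T hc
  have s4 := hc.palm_low (W := W) (μ := γ / 32) (by linarith) hWT (by positivity)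
  have a1 := Cfg.palm_le_add (c := c) (T := T) (E := fun _ => univ)
    (E1 := fun p => {t | c.M W p t 1 < γ / 32}) (E2 := fun p => {t | γ / 32 ≤ c.M W p t 1})
    (fun p _ t _ _ => lt_or_ge (c.M W p t 1) (γ / 32))
  have a2 := Cfg.palm_le_add (c := c) (T := T) (E := fun p => {t | γ / 32 ≤ c.M W p t 1})
    (E1 := c.UP ν V W) (E2 := fun p => {t | t ∉ c.UP ν V W p ∧ γ / 32 ≤ c.M W p t 1}) (by
      intro p _ t _ ht
      by_cases h : t ∈ c.UP ν V W p
      · exact Or.inl h
      · exact Or.inr ⟨h, ht⟩)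
  have a3 := Cfg.palm_le_add (c := c) (T := T)
    (E := fun p => {t | t ∉ c.UP ν V W p ∧ γ / 32 ≤ c.M W p t 1})
    (E1 := fun p => {t | t ∉ c.UP ν V W p ∧ ∃ r, 0 < r ∧ γ / 32 ≤ c.M W p t r ∧
        c.J W A ν V p t (r / A) < m * V / 6})
    (E2 := fun p => {t | ∃ r, m * V / 6 ≤ c.J W A ν V p t r}) (by
      intro p _ t _ ht
      by_cases h : c.J W A ν V p t (1 / A) < m * V / 6
      · exact Or.inl ⟨ht.1, 1, one_pos, ht.2, h⟩
      · exact Or.inr ⟨_, not_lt.mp h⟩)
  rw [Cfg.palm_univ hT.le] at a1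
  have s5 : c.palm T (fun p => {t | ∃ r, m * V / 6 ≤ c.J W A ν V p t r}) ≤ γ / 2 * T ^ 2 := by
    have b1 : 224 * V * T ^ 2 ≤ m * V / 6 * (γ / 2 * T ^ 2) := by
      have : 0 ≤ V * T ^ 2 := by positivity
      nlinarith
    exact le_of_mul_le_mul_left (s2.trans b1) (by positivity)
  have s6 := mul_le_mul_of_nonneg_right hε1 (sq_nonneg T)
  have s7 : 2 * T * c.P.card < 2 * T * (γ * T) := by
    have : 0 < γ * T ^ 2 := by positivity
    linarith
  exact lt_of_mul_lt_mul_left s7 (by linarith)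

end Pool.Agent.Lib.MP_dd58da_co
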