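import Pool.Agent.Lib.MP_dd58da_co.Unif

set_option autoImplicit false

open MeasureTheory Set Filter
open scoped Classical

namespace Pool.Agent.Lib.MP_dd58da_co

namespace Cfg

variable {ι : Type} {c : Cfg ι}

variable (c) in
noncomputable def gd (S W Kw : ℝ) (Z : ℕ) (t s : ℝ) (a : ℕ) : ℝ :=
  if 2 * c.dens W t s (c.blk Kw Z t s a) ≤ c.dens (2 * S) t s (c.blk Kw Z t s a) then
    4 * S * c.dens (2 * S) t s (c.blk Kw Z t s a) else 0

theorem gd_nonneg {S : ℝ} (hS : 0 ≤ S) (W Kw : ℝ) (Z : ℕ) (t s : ℝ) (a : ℕ) :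
    0 ≤ c.gd S W Kw Z t s a := by
  unfold gd
  split_ifs
  · exact mul_nonneg (by linarith) (dens_nonneg (by linarith) _ _ _)
  · exact le_rfl

theorem H3.D2a (h : c.H3) {S W Kw ζ t s : ℝ} {Z : ℕ} (hS : 1 ≤ S) (hSW : 2 * S ≤ W)
    (hWK : W ≤ Kw) (he : (2 * S + 2) / W ≤ ζ) (hZ : (Z : ℝ) = 12 * ζ * Kw) (hinj : c.Inj Kw t s)
    (hU : ¬ c.Ubad ζ W Kw t s) {p : ι} (hp : p ∈ c.P) (hps : |c.Y p t - s| ≤ S) {r : ℝ}
    (hr : 0 ≤ r) (h1 : 56 * ζ * S ≤ c.cnt S t (c.Y p t) (c.cb p r)) (h2 : c.M W p t r ≤ ζ) :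
    Z / 2 * c.cnt S t (c.Y p t) (c.cb p r) ≤
      ∑ a ∈ Finset.range (c.P.card + Z + 1),
        ind (c.blk Kw Z t s a) (c.x p) * c.gd S W Kw Z t s a := by
  have hW : 0 < W := by linarith
  have hKw : 0 < Kw := by linarith
  have hU' : ∀ I : Set ℝ, I.OrdConnected → |c.dens W t s I - c.dens Kw t s I| ≤ ζ := by
    intro I hI
    by_contra hn
    exact hU ⟨I, hI, not_le.mp hn⟩
  have a1 := h.dens_shift hW t s (c.Y p t) (c.cb p r) (show |s - c.Y p t| ≤ S by rwa [abs_sub_comm])
  have a2 := abs_le.mp (hU' _ (cb_ord (c := c) p r))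
  have a3 : c.cnt Kw t s (c.cb p r) ≤ Z / 2 := by
    have : c.dens Kw t s (c.cb p r) ≤ 3 * ζ := by
      unfold M at h2
      linarith [a2.1]
    unfold dens at this
    rw [div_le_iff₀ (by linarith)] at this
    linarith
  set b1 := (c.sel Kw t s (Iio (c.x p - r))).card with hb1
  set b2 := (c.sel Kw t s (Iic (c.x p + r))).card with hb2
  have a4 : c.cnt Kw t s (c.cb p r) = (b2 : ℝ) - b1 := by
    have e : c.cb p r = Iic (c.x p + r) \ Iio (c.x p - r) := by
      ext u
      simp only [cb, mem_ofPred_eq, Set.mem_sdiff, mem_Iic, mem_Iio, not_lt, abs_le]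
      constructor <;> rintro ⟨h1, h2⟩ <;> constructor <;> linarith
    rw [e, cnt_diff (fun u hu => by
      simp only [mem_Iio] at hu
      simp only [mem_Iic]; linarith)]
    rfl
  have a5 : 2 * b2 ≤ 2 * b1 + Z := by
    have : 2 * (b2 : ℝ) ≤ 2 * b1 + Z := by linarith
    exact_mod_cast this
  have a6 : b1 ≤ c.P.card := Finset.card_le_card (Finset.filter_subset _ _)
  have a7 : ∀ a ∈ Finset.Icc b2 (b1 + Z), ∀ z ∈ c.P, |c.Y z t - s| ≤ Kw → c.x z ∈ c.cb p r →
      c.x z ∈ c.blk Kw Z t s a := by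
    intro a ha z hz hw hx
    have hx' : |c.x z - c.x p| ≤ r := hx
    rw [abs_le] at hx'
    have k1 := (mem_lower (isLowerSet_Iic (c.x p + r)) hz hw).mp (by
      simp only [mem_Iic]; linarith [hx'.2])
    have k2 : ¬ c.Rk Kw t s (c.x z) ≤ b1 := fun k => by
      have := (mem_lower (isLowerSet_Iio (c.x p - r)) hz hw).mpr k
      simp only [mem_Iio] at this
      linarith [hx'.1]
    rw [Finset.mem_Icc] at ha
    constructor <;> omega
  have a8 : ∀ a ∈ Finset.Icc b2 (b1 + Z), c.cnt S t (c.Y p t) (c.cb p r) ≤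
      ind (c.blk Kw Z t s a) (c.x p) * c.gd S W Kw Z t s a := by
    intro a ha
    rw [ind_of_mem (a7 a ha p hp (by linarith) (by simpa [cb] using hr)), one_mul]
    have k1 : c.cnt S t (c.Y p t) (c.cb p r) ≤ c.cnt (2 * S) t s (c.blk Kw Z t s a) := by
      apply cnt_mono
      intro z hz hw hx
      have : |c.Y z t - s| ≤ 2 * S := by
        rw [abs_le] at hw hps ⊢
        constructor <;> linarith [hw.1, hw.2, hps.1, hps.2]
      exact ⟨this, a7 a ha z hz (by linarith) hx⟩
    have k2 : c.cnt (2 * S) t s (c.blk Kw Z t s a) =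
        4 * S * c.dens (2 * S) t s (c.blk Kw Z t s a) := by
      unfold dens; field_simp; ring
    have k3 := abs_le.mp (hU' _ (blk_ord (c := c) Kw Z t s a))
    have k4 : c.dens Kw t s (c.blk Kw Z t s a) ≤ 6 * ζ := by
      unfold dens
      rw [div_le_iff₀ (by linarith)]
      linarith [hinj.cnt_blk Z a]
    have k5 : 14 * ζ ≤ c.dens (2 * S) t s (c.blk Kw Z t s a) := by
      by_contra hn
      push Not at hn
      nlinarith
    unfold gd
    rw [if_pos (by linarith [k3.2])]
    linarith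
  have a9 : (Z : ℝ) / 2 ≤ (Finset.Icc b2 (b1 + Z)).card := by
    rw [Nat.card_Icc]
    have : Z ≤ 2 * (b1 + Z + 1 - b2) := by omega
    have : (Z : ℝ) ≤ 2 * ((b1 + Z + 1 - b2 : ℕ) : ℝ) := by exact_mod_cast this
    linarith
  calc _ ≤ (Finset.Icc b2 (b1 + Z)).card * c.cnt S t (c.Y p t) (c.cb p r) :=
        mul_le_mul_of_nonneg_right a9 (cnt_nonneg _ _ _ _)
    _ = ∑ _a ∈ Finset.Icc b2 (b1 + Z), c.cnt S t (c.Y p t) (c.cb p r) := by simp
    _ ≤ _ := Finset.sum_le_sum a8
    _ ≤ _ := by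
        apply Finset.sum_le_sum_of_subset_of_nonneg
        · intro a ha
          rw [Finset.mem_Icc] at ha
          rw [Finset.mem_range]
          omega
        · intro a _ _
          exact mul_nonneg (ind_nonneg _ _) (gd_nonneg (by linarith) _ _ _ _ _ _)

theorem D2b {S W Kw t s : ℝ} (Z : ℕ) (hS : 1 ≤ S) (hSW : 2 * S ≤ W) :
    ∑ p ∈ c.sel S t s univ, ∑ a ∈ Finset.range (c.P.card + Z + 1),
        ind (c.blk Kw Z t s a) (c.x p) * c.gd S W Kw Z t s a ≤
      64 * S ^ 2 * c.En (2 * S) W Kw Z (t, s) := by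
  rw [Finset.sum_comm]
  unfold En
  rw [Finset.mul_sum]
  refine Finset.sum_le_sum fun a _ => ?_
  rw [← Finset.sum_mul]
  have k1 : ∑ p ∈ c.sel S t s univ, ind (c.blk Kw Z t s a) (c.x p) ≤
      c.cnt (2 * S) t s (c.blk Kw Z t s a) := by
    have := sum_ind_le (c.sel S t s univ) (fun p => {u : Unit | c.x p ∈ c.blk Kw Z t s a}) ()
      (B := c.cnt (2 * S) t s (c.blk Kw Z t s a)) (by
        intro Q hQ hm
        apply card_le_cnt
        intro q hq
        have := mem_sel.mp (hQ hq)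
        exact ⟨this.1, by linarith [this.2.1], hm q hq⟩)
    exact this
  have k2 : c.cnt (2 * S) t s (c.blk Kw Z t s a) =
      4 * S * c.dens (2 * S) t s (c.blk Kw Z t s a) := by
    unfold dens; field_simp; ring
  refine (mul_le_mul_of_nonneg_right k1 (gd_nonneg (by linarith) _ _ _ _ _ _)).trans ?_
  rw [k2]
  unfold gd fa
  simp only
  have k3 := dens_nonneg (c := c) (W := W) (by linarith) t s (c.blk Kw Z t s a)
  split_ifs with k4
  · have : c.dens (2 * S) t s (c.blk Kw Z t s a) ^ 2 ≤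
        4 * (c.dens (2 * S) t s (c.blk Kw Z t s a) - c.dens W t s (c.blk Kw Z t s a)) ^ 2 := by
      nlinarith
    nlinarith [mul_le_mul_of_nonneg_left this (sq_nonneg S)]
  · rw [mul_zero]; positivity

end Cfg

variable {ι : Type}

/-- Heavy clusters of slopes at an intermediate scale are rare. -/
theorem HL {ζ S : ℝ} (hζ : 0 < ζ) (hS : 1 ≤ S) :
    ∀ᶠ W : ℝ in atTop, ∀ᶠ K : ℝ in atTop, ∀ (c : Cfg ι) (T : ℝ), c.Adm K T →
      ∀ (R : Finset (ι × ι)) (S' : ℝ), S' ≤ S →
      (∀ i ∈ R, i.1 ∈ c.P ∧ i.2 ∈ c.P ∧ ∀ t, |t| ≤ T → t ∈ c.near S' i.1 i.2 →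
        56 * ζ * S ≤ c.cnt S t (c.Y i.1 t) (c.cb i.1 |c.x i.2 - c.x i.1|) ∧
        c.M W i.1 t |c.x i.2 - c.x i.1| ≤ ζ) →
      c.lam T S' R (fun _ => 1) ≤ 5000 * T ^ 2 := by
  have hS0 : 0 < S := by linarith
  filter_upwards [U0 (ι := ι) hζ (show 0 < 1 / (36 * S) by positivity), ev_div (2 * S + 2) hζ,
    eventually_ge_atTop (2 * S)] with W hW he hSW
  obtain ⟨Z, hZ1, hZ2, hZ3⟩ := exists_nat_div (27648 * W) (12 * ζ * W)
    (show 0 < 1 / (2 * S) by positivity)
  have hZ' : (3 : ℝ) ≤ Z := by exact_mod_cast hZ1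
  set Kw := Z / (12 * ζ) with hKw
  have hZK : (Z : ℝ) = 12 * ζ * Kw := by rw [hKw]; field_simp
  have hWK : W ≤ Kw := by
    rw [hKw, le_div_iff₀ (by positivity)]; linarith
  filter_upwards [hW Kw hWK, ev_div (6912 * W) (show 0 < 1 / (2 * S) by positivity),
    eventually_ge_atTop (6 * W), eventually_gt_atTop (2 * Kw)] with K k1 k2 k3 k4 c T hc R S' hS' hR
  have hST : S ≤ T := by linarith [hc.hK]
  have hm : ∀ i ∈ R, MeasurableSet (c.strip (c.near S' i.1 i.2) i.1 S) :=
    fun i _ => Cfg.measurable_strip (Cfg.measurable_near _ _ _) _ _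
  have s1 : 2 * S * c.lam T S' R (fun _ => 1) ≤
      ∑ i ∈ R, 1 * (bx T).real (c.strip (c.near S' i.1 i.2) i.1 S) := by
    unfold Cfg.lam
    rw [Finset.mul_sum]
    refine Finset.sum_le_sum fun i hi => ?_
    simp only [one_mul]
    exact hc.strip_ge (Cfg.measurable_near _ _ _) (hR i hi).1 hS0.le hST
  have s2 := upper1 (μ := bx T) (integrable_sum_ind R (fun _ => 1) _ hm)
    ((Cfg.integrable_En (c := c) (V := 2 * S) (W := W) (by linarith) hSW Kw Z T).const_mul
      (128 * S ^ 2 / Z)) (c.UB ζ W Kw) (u := 36 * S ^ 2) (by positivity) (by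
      filter_upwards [bx_ae T] with z hz
      obtain ⟨t, s⟩ := z
      simp only [one_mul]
      set Qp : ι → Finset ι := fun p => c.P.filter (fun q => (p, q) ∈ R ∧ t ∈ c.near S' p q)
        with hQp
      have b1 := sum_pairs_le c.P R (fun i hi => (hR i hi).1)
        (fun i => c.strip (c.near S' i.1 i.2) i.1 S) (t, s)
        (fun p => if p ∈ c.sel S t s univ then ((Qp p).card : ℝ) else 0) (by
          intro p hp Q hQ
          rcases Q.eq_empty_or_nonempty with rfl | ⟨q, hq⟩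
          · simp only [Finset.card_empty, Nat.cast_zero]
            split_ifs
            · exact Nat.cast_nonneg _
            · exact le_rfl
          · rw [if_pos (Cfg.mem_sel.mpr ⟨hp, (hQ q hq).2.2, mem_univ _⟩)]
            have : Q ⊆ Qp p := fun q' hq' =>
              Finset.mem_filter.mpr ⟨(hR _ (hQ q' hq').1).2.1, (hQ q' hq').1, (hQ q' hq').2.1⟩
            exact_mod_cast Finset.card_le_card this)
      rw [Finset.sum_ite_mem, Finset.inter_eq_right.mpr
        (show c.sel S t s univ ⊆ c.P from fun z hz => (Cfg.mem_sel.mp hz).1)] at b1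
      refine b1.trans ?_
      have hEn := Cfg.En_nonneg (c := c) (2 * S) W Kw Z (t, s)
      by_cases hU : (t, s) ∈ c.UB ζ W Kw
      · rw [ind_of_mem hU]
        have b2 : ∀ p ∈ c.sel S t s univ, ((Qp p).card : ℝ) ≤ 6 * S := by
          intro p _
          have := Cfg.card_le_cnt (c := c) (W := S) (t := t) (s := c.Y p t) (I := univ) (Qp p) (by
            intro q hq
            have := Finset.mem_filter.mp hq
            exact ⟨this.1, le_trans this.2.2 hS', mem_univ _⟩)
          linarith [hc.h3.cnt_le hS0.le t (c.Y p t) univ]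
        have b3 := Finset.sum_le_sum b2
        have b4 := hc.h3.cnt_le hS0.le t s univ
        simp only [Finset.sum_const, nsmul_eq_mul] at b3
        unfold Cfg.cnt at b4
        have : 0 ≤ 128 * S ^ 2 / Z * c.En (2 * S) W Kw Z (t, s) := by positivity
        nlinarith
      · rw [ind_of_not hU, mul_zero, add_zero]
        have b2 : ∀ p ∈ c.sel S t s univ, Z / 2 * ((Qp p).card : ℝ) ≤
            ∑ a ∈ Finset.range (c.P.card + Z + 1),
              ind (c.blk Kw Z t s a) (c.x p) * c.gd S W Kw Z t s a := by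
          intro p hp
          rw [Cfg.mem_sel] at hp
          rcases (Qp p).eq_empty_or_nonempty with h0 | hne
          · rw [h0]
            simp only [Finset.card_empty, Nat.cast_zero, mul_zero]
            exact Finset.sum_nonneg fun a _ =>
              mul_nonneg (ind_nonneg _ _) (Cfg.gd_nonneg hS0.le _ _ _ _ _ _)
          · obtain ⟨q, hq, hmax⟩ := (Qp p).exists_max_image (fun q => |c.x q - c.x p|) hne
            have hq' := Finset.mem_filter.mp hq
            obtain ⟨d1, d2⟩ := (hR _ hq'.2.1).2.2 t hz.1 hq'.2.2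
            refine le_trans (mul_le_mul_of_nonneg_left ?_ (by positivity))
              (hc.h3.D2a hS hSW hWK he hZK (hc.inj (by linarith) k4 hz.1 s) hU hp.1 hp.2.1
                (abs_nonneg _) d1 d2)
            apply Cfg.card_le_cnt
            intro q' hq''
            have := Finset.mem_filter.mp hq''
            exact ⟨this.1, le_trans this.2.2 hS', hmax q' hq''⟩
        have b3 := (Finset.sum_le_sum b2).trans (Cfg.D2b Z hS hSW)
        rw [← Finset.mul_sum] at b3
        rw [div_mul_eq_mul_div, le_div_iff₀ (by linarith)]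
        linarith)
  rw [integral_sum_ind R (fun _ => 1) _ hm, integral_const_mul] at s2
  have s3 := hc.L2 (V := 2 * S) (W := W) (Kw := Kw) (by linarith) hSW k3 Z
  have s4 := k1 c T hc
  have hK0 : 0 < K := by linarith
  have s5 : 128 * S ^ 2 / Z * (T ^ 2 * (144 * Z / (2 * S) + 27648 * W + 6912 * Z * W / K)) =
      128 * S ^ 2 * T ^ 2 * (72 / S + 27648 * W / Z + 6912 * W / K) := by
    field_simp; ring
  have s6 : 72 / S + 27648 * W / Z + 6912 * W / K ≤ 73 / S := by
    have : 73 / S = 72 / S + 1 / (2 * S) + 1 / (2 * S) := by field_simp; ring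
    linarith
  have s7 := mul_le_mul_of_nonneg_left s3 (show 0 ≤ 128 * S ^ 2 / Z by positivity)
  have s8 := mul_le_mul_of_nonneg_left s6 (show 0 ≤ 128 * S ^ 2 * T ^ 2 by positivity)
  have s9 := mul_le_mul_of_nonneg_left s4 (show 0 ≤ 36 * S ^ 2 by positivity)
  have e1 : 128 * S ^ 2 * T ^ 2 * (73 / S) = 9344 * S * T ^ 2 := by field_simp; ring
  have e2 : 36 * S ^ 2 * (1 / (36 * S) * T ^ 2) = S * T ^ 2 := by field_simp
  have s10 : 2 * S * c.lam T S' R (fun _ => 1) ≤ 2 * S * (5000 * T ^ 2) := by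
    have : 0 ≤ S * T ^ 2 := by positivity
    linarith
  exact le_of_mul_le_mul_left s10 (by positivity)

end Pool.Agent.Lib.MP_dd58da_co
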