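import Pool.Agent.Lib.MP_dd58da_co.Two

set_option autoImplicit false

open MeasureTheory Set Filter
open scoped Classical

namespace Pool.Agent.Lib.MP_dd58da_co

noncomputable def phi (V u : ℝ) : ℝ := ind (Icc (-V) V) u / (2 * V)

noncomputable def psi (V W u : ℝ) : ℝ := phi V u - phi W u

theorem phi_of_le {V u : ℝ} (h : |u| ≤ V) : phi V u = 1 / (2 * V) := by
  unfold phi; rw [ind_of_mem (show u ∈ Icc (-V) V from abs_le.mp h)]

theorem phi_of_gt {V u : ℝ} (h : V < |u|) : phi V u = 0 := by
  unfold phi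
  rw [ind_of_not (show u ∉ Icc (-V) V from fun h' => absurd (abs_le.mpr h') (not_le.mpr h))]
  simp

theorem phi_nonneg {V : ℝ} (hV : 0 ≤ V) (u : ℝ) : 0 ≤ phi V u :=
  div_nonneg (ind_nonneg _ _) (by linarith)

theorem measurable_phi (V : ℝ) : Measurable (phi V) :=
  (measurable_ind measurableSet_Icc).div_const _

theorem measurable_psi (V W : ℝ) : Measurable (psi V W) :=
  (measurable_phi V).sub (measurable_phi W)

theorem integrable_phi (V : ℝ) : Integrable (phi V) := by
  unfold phi
  apply Integrable.div_const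
  rw [ind_eq_indicator, integrable_indicator_iff measurableSet_Icc]
  exact integrableOn_const (by simp)

theorem integral_phi {V : ℝ} (hV : 0 < V) : ∫ u, phi V u = 1 := by
  unfold phi
  rw [integral_div, integral_ind measurableSet_Icc, Real.volume_real_Icc_of_le (by linarith)]
  field_simp
  ring

theorem integral_psi {V W : ℝ} (hV : 0 < V) (hW : 0 < W) : ∫ u, psi V W u = 0 := by
  unfold psi
  rw [integral_sub (integrable_phi V) (integrable_phi W), integral_phi hV, integral_phi hW, sub_self]

theorem psi_supp {V W u : ℝ} (hVW : V ≤ W) (h : psi V W u ≠ 0) : |u| ≤ W := by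
  by_contra hc
  push Not at hc
  apply h
  unfold psi
  rw [phi_of_gt hc, phi_of_gt (hVW.trans_lt hc), sub_self]

theorem abs_psi_le {V W : ℝ} (hV : 0 < V) (hVW : V ≤ W) (u : ℝ) : |psi V W u| ≤ 1 / (2 * V) := by
  have h1 : 1 / (2 * W) ≤ 1 / (2 * V) := by gcongr
  have h2 : 0 < 1 / (2 * W) := by have : 0 < W := by linarith
                                  positivity
  unfold psi
  rcases le_or_gt |u| V with h | h
  · rw [phi_of_le h, phi_of_le (h.trans hVW), abs_le]
    constructor <;> linarith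
  · rw [phi_of_gt h]
    rcases le_or_gt |u| W with h' | h'
    · rw [phi_of_le h', abs_le]
      constructor <;> linarith
    · rw [phi_of_gt h', abs_le]
      constructor <;> linarith

theorem abs_psi_le_add {V W : ℝ} (hV : 0 ≤ V) (hW : 0 ≤ W) (u : ℝ) :
    |psi V W u| ≤ phi V u + phi W u := by
  have := phi_nonneg hV u
  have := phi_nonneg hW u
  unfold psi
  rw [abs_le]
  constructor <;> linarith

theorem integrable_of_bdd {f : ℝ × ℝ → ℝ} (hm : Measurable f) (C R : ℝ) (hb : ∀ z, |f z| ≤ C)
    (hs : ∀ z, f z ≠ 0 → |z.1| ≤ R ∧ |z.2| ≤ R) : Integrable f := by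
  have hsub : Function.support f ⊆ Icc (-R) R ×ˢ Icc (-R) R := fun z hz =>
    ⟨abs_le.mp (hs z hz).1, abs_le.mp (hs z hz).2⟩
  rw [← integrableOn_iff_integrable_of_support_subset hsub]
  apply Measure.integrableOn_of_bounded (M := C)
  · exact ((isCompact_Icc.prod isCompact_Icc).measure_lt_top).ne
  · exact hm.aestronglyMeasurable
  · exact Eventually.of_forall hb

theorem bound_t {a b W t : ℝ} (hb : b ≠ 0) (h : |a - t * b| ≤ W) : |t| ≤ (|a| + W) / |b| := by
  rw [le_div_iff₀ (abs_pos.mpr hb), ← abs_mul]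
  have := abs_sub a (a - t * b)
  simp only [sub_sub_cancel] at this
  linarith

/-- Two-dimensional cancellation for a pair of lines with different slopes. -/
theorem cancel {V W : ℝ} (hV : 0 < V) (hVW : V ≤ W) (a b a' b' : ℝ) (hb : b' - b ≠ 0) :
    Integrable (fun z : ℝ × ℝ => psi V W (a - z.1 * b - z.2) * psi V W (a' - z.1 * b' - z.2)) ∧
    ∫ z : ℝ × ℝ, psi V W (a - z.1 * b - z.2) * psi V W (a' - z.1 * b' - z.2) = 0 := by
  have hW : 0 < W := hV.trans_le hVW
  have hbd : ∀ u u' : ℝ, |psi V W u * psi V W u'| ≤ 1 / (2 * V) * (1 / (2 * V)) := by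
    intro u u'
    rw [abs_mul]
    exact mul_le_mul (abs_psi_le hV hVW u) (abs_psi_le hV hVW u') (abs_nonneg _) (by positivity)
  set R1 := (|a' - a| + 2 * W) / |b' - b| with hR1
  have hR1' : 0 ≤ R1 := by positivity
  have hmp := measurable_psi V W
  have i1 : Integrable
      (fun z : ℝ × ℝ => psi V W (a - z.1 * b - z.2) * psi V W (a' - z.1 * b' - z.2)) := by
    apply integrable_of_bdd (by fun_prop) _ (R1 + (|a| + R1 * |b| + W)) (fun z => hbd _ _)
    intro z hz
    have h1 := psi_supp hVW (left_ne_zero_of_mul hz)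
    have h2 := psi_supp hVW (right_ne_zero_of_mul hz)
    have h3 : |(a' - a) - z.1 * (b' - b)| ≤ 2 * W := by
      rw [abs_le] at h1 h2 ⊢
      constructor <;> linarith [h1.1, h1.2, h2.1, h2.2]
    have h4 : |z.1| ≤ R1 := bound_t hb h3
    have h5 : |z.2| ≤ |a| + R1 * |b| + W := by
      have e : z.2 = (a - z.1 * b) - (a - z.1 * b - z.2) := by ring
      have k1 := abs_sub (a - z.1 * b) (a - z.1 * b - z.2)
      rw [← e] at k1
      have k2 := abs_sub a (z.1 * b)
      rw [abs_mul] at k2
      have k3 := mul_le_mul_of_nonneg_right h4 (abs_nonneg b)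
      linarith
    have : 0 ≤ |a| + R1 * |b| + W := by positivity
    constructor <;> linarith
  have i2 : Integrable (Function.uncurry fun t α : ℝ =>
      psi V W α * psi V W (α + (a' - a) - t * (b' - b))) (volume.prod volume) := by
    apply integrable_of_bdd (f := fun z : ℝ × ℝ =>
      psi V W z.2 * psi V W (z.2 + (a' - a) - z.1 * (b' - b))) (by fun_prop) _ (R1 + W)
      (fun z => hbd _ _)
    intro z hz
    have h1 := psi_supp hVW (left_ne_zero_of_mul hz)
    have h2 := psi_supp hVW (right_ne_zero_of_mul hz)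
    have h3 : |(a' - a) - z.1 * (b' - b)| ≤ 2 * W := by
      rw [abs_le] at h1 h2 ⊢
      constructor <;> linarith [h1.1, h1.2, h2.1, h2.2]
    have h4 : |z.1| ≤ R1 := bound_t hb h3
    constructor <;> linarith
  refine ⟨i1, ?_⟩
  rw [Measure.volume_eq_prod, integral_prod _ i1]
  have e1 : ∀ t : ℝ, ∫ s, psi V W (a - t * b - s) * psi V W (a' - t * b' - s) =
      ∫ α, psi V W α * psi V W (α + (a' - a) - t * (b' - b)) := by
    intro t
    rw [← integral_sub_left_eq_self (fun α => psi V W α * psi V W (α + (a' - a) - t * (b' - b)))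
      volume (a - t * b)]
    congr 1
    funext s
    congr 2
    ring
  simp only [e1]
  rw [integral_integral_swap i2]
  have e2 : ∀ α : ℝ, ∫ t, psi V W α * psi V W (α + (a' - a) - t * (b' - b)) = 0 := by
    intro α
    rw [integral_const_mul,
      Measure.integral_comp_mul_right (fun u => psi V W (α + (a' - a) - u)) (b' - b),
      integral_sub_left_eq_self (psi V W) volume (α + (a' - a)), integral_psi hV hW]
    simp
  simp only [e2, integral_zero]

theorem sum_block (N Z r1 r2 : ℕ) (h12 : r1 ≤ r2) (h2 : r2 ≤ N) :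
    ∑ a ∈ Finset.range (N + Z + 1), ind {a : ℕ | r1 ≤ a ∧ a < r1 + Z} a *
      ind {a : ℕ | r2 ≤ a ∧ a < r2 + Z} a = max ((Z : ℝ) - ((r2 : ℝ) - r1)) 0 := by
  have e : ∀ a : ℕ, ind {a : ℕ | r1 ≤ a ∧ a < r1 + Z} a * ind {a : ℕ | r2 ≤ a ∧ a < r2 + Z} a =
      if a ∈ Finset.Ico r2 (r1 + Z) then 1 else 0 := by
    intro a
    rw [← ind_inter]
    by_cases h : a ∈ Finset.Ico r2 (r1 + Z)
    · rw [if_pos h, ind_of_mem]
      rw [Finset.mem_Ico] at h
      simp only [mem_inter_iff, mem_ofPred_eq]
      omega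
    · rw [if_neg h, ind_of_not]
      rw [Finset.mem_Ico] at h
      simp only [mem_inter_iff, mem_ofPred_eq]
      omega
  simp only [e]
  rw [Finset.sum_boole]
  have : (Finset.range (N + Z + 1)).filter (fun a => a ∈ Finset.Ico r2 (r1 + Z)) =
      Finset.Ico r2 (r1 + Z) := by
    ext a
    simp only [Finset.mem_filter, Finset.mem_range, Finset.mem_Ico]
    omega
  rw [this, Nat.card_Ico]
  rcases le_total r2 (r1 + Z) with h | h
  · rw [Nat.cast_sub h, max_eq_left]
    · push_cast; ring
    · have : (r2 : ℝ) ≤ r1 + Z := by exact_mod_cast h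
      linarith
  · rw [Nat.sub_eq_zero_of_le h, max_eq_right]
    · simp
    · have : (r1 : ℝ) + Z ≤ r2 := by exact_mod_cast h
      linarith

end Pool.Agent.Lib.MP_dd58da_co
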