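import Pool.Agent.Lib.MP_dd58da_co.Kernel

set_option autoImplicit false

open MeasureTheory Set Filter
open scoped Classical

namespace Pool.Agent.Lib.MP_dd58da_co

namespace Cfg

variable {ι : Type} (c : Cfg ι)

/-- Rank of the slope `u` among the points of the window of size `Kw`. -/
noncomputable def Rk (Kw t s u : ℝ) : ℕ := (c.sel Kw t s (Iic u)).card

/-- Slopes whose rank lies in `(a - Z, a]`. -/
def blk (Kw : ℝ) (Z : ℕ) (t s : ℝ) (a : ℕ) : Set ℝ :=
  {u | c.Rk Kw t s u ≤ a ∧ a < c.Rk Kw t s u + Z}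

noncomputable def fa (V W Kw : ℝ) (Z : ℕ) (t s : ℝ) (a : ℕ) : ℝ :=
  c.dens V t s (c.blk Kw Z t s a) - c.dens W t s (c.blk Kw Z t s a)

noncomputable def En (V W Kw : ℝ) (Z : ℕ) (z : ℝ × ℝ) : ℝ :=
  ∑ a ∈ Finset.range (c.P.card + Z + 1), c.fa V W Kw Z z.1 z.2 a ^ 2

noncomputable def wt (Kw : ℝ) (Z : ℕ) (p q : ι) (z : ℝ × ℝ) : ℝ :=
  max ((Z : ℝ) - c.cnt Kw z.1 z.2 (uIoc (c.x p) (c.x q))) 0

noncomputable def ps (V W : ℝ) (p : ι) (z : ℝ × ℝ) : ℝ := psi V W (c.Y p z.1 - z.2)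

variable {c}

theorem dens_eq_sum (V t s : ℝ) (I : Set ℝ) :
    c.dens V t s I = ∑ p ∈ c.P, ind I (c.x p) * phi V (c.Y p t - s) := by
  have : ∀ p, ind I (c.x p) * phi V (c.Y p t - s) =
      (if (|c.Y p t - s| ≤ V ∧ c.x p ∈ I) then (1 : ℝ) else 0) / (2 * V) := by
    intro p
    by_cases h1 : c.x p ∈ I
    · by_cases h2 : |c.Y p t - s| ≤ V
      · rw [ind_of_mem h1, phi_of_le h2, if_pos ⟨h2, h1⟩]; ring
      · rw [phi_of_gt (not_le.mp h2), if_neg (fun h => h2 h.1)]; ring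
    · rw [ind_of_not h1, if_neg (fun h => h1 h.2)]; ring
  simp only [this]
  rw [← Finset.sum_div, Finset.sum_boole]
  rfl

theorem dens_sub_eq (V W t s : ℝ) (I : Set ℝ) :
    c.dens V t s I - c.dens W t s I = ∑ p ∈ c.P, ind I (c.x p) * c.ps V W p (t, s) := by
  rw [dens_eq_sum, dens_eq_sum, ← Finset.sum_sub_distrib]
  refine Finset.sum_congr rfl fun p _ => ?_
  simp only [ps, psi]
  ring

theorem Rk_le (Kw t s u : ℝ) : c.Rk Kw t s u ≤ c.P.card :=
  Finset.card_le_card (Finset.filter_subset _ _)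

theorem Rk_mono (Kw t s : ℝ) {u u' : ℝ} (h : u ≤ u') : c.Rk Kw t s u ≤ c.Rk Kw t s u' := by
  apply Finset.card_le_card
  intro z hz
  rw [mem_sel] at hz ⊢
  exact ⟨hz.1, hz.2.1, le_trans hz.2.2 h⟩

theorem Rk_sub (Kw t s : ℝ) {u u' : ℝ} (h : u ≤ u') :
    (c.Rk Kw t s u' : ℝ) - c.Rk Kw t s u = c.cnt Kw t s (Ioc u u') := by
  rw [← Set.Iic_sdiff_Iic, cnt_diff (Iic_subset_Iic.mpr h)]
  rfl

theorem sum_blk (Kw : ℝ) (Z : ℕ) (p q : ι) (z : ℝ × ℝ) :
    ∑ a ∈ Finset.range (c.P.card + Z + 1), ind (c.blk Kw Z z.1 z.2 a) (c.x p) *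
      ind (c.blk Kw Z z.1 z.2 a) (c.x q) = c.wt Kw Z p q z := by
  rcases le_total (c.x p) (c.x q) with h | h
  · have := sum_block c.P.card Z _ _ (Rk_mono (c := c) Kw z.1 z.2 h) (Rk_le _ _ _ _)
    rw [Rk_sub _ _ _ h] at this
    unfold wt
    rw [uIoc_of_le h, ← this]
    rfl
  · have := sum_block c.P.card Z _ _ (Rk_mono (c := c) Kw z.1 z.2 h) (Rk_le _ _ _ _)
    rw [Rk_sub _ _ _ h] at this
    unfold wt
    rw [uIoc_of_ge h, ← this]
    refine Finset.sum_congr rfl fun a _ => ?_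
    rw [mul_comm]
    rfl

theorem En_eq (V W Kw : ℝ) (Z : ℕ) (z : ℝ × ℝ) :
    c.En V W Kw Z z =
      ∑ p ∈ c.P, ∑ q ∈ c.P, c.wt Kw Z p q z * (c.ps V W p z * c.ps V W q z) := by
  unfold En fa
  simp only [dens_sub_eq, sq, Finset.sum_mul_sum]
  rw [Finset.sum_comm]
  refine Finset.sum_congr rfl fun p _ => ?_
  rw [Finset.sum_comm]
  refine Finset.sum_congr rfl fun q _ => ?_
  rw [← sum_blk, Finset.sum_mul]
  refine Finset.sum_congr rfl fun a _ => ?_
  ring

theorem En_nonneg (V W Kw : ℝ) (Z : ℕ) (z : ℝ × ℝ) : 0 ≤ c.En V W Kw Z z :=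
  Finset.sum_nonneg fun _ _ => sq_nonneg _

theorem wt_nonneg (Kw : ℝ) (Z : ℕ) (p q : ι) (z : ℝ × ℝ) : 0 ≤ c.wt Kw Z p q z := le_max_right _ _

theorem wt_le (Kw : ℝ) (Z : ℕ) (p q : ι) (z : ℝ × ℝ) : c.wt Kw Z p q z ≤ Z :=
  max_le (by linarith [cnt_nonneg (c := c) Kw z.1 z.2 (uIoc (c.x p) (c.x q))]) (Nat.cast_nonneg _)

theorem measurable_wt (Kw : ℝ) (Z : ℕ) (p q : ι) : Measurable (c.wt Kw Z p q) :=
  (measurable_const.sub (measurable_cnt Kw _)).max measurable_const

theorem measurable_ps (V W : ℝ) (p : ι) : Measurable (c.ps V W p) :=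
  (measurable_psi V W).comp (measurable_rel p)

theorem abs_ps_le {V W : ℝ} (hV : 1 ≤ V) (hVW : V ≤ W) (p : ι) (z : ℝ × ℝ) :
    |c.ps V W p z| ≤ 1 := by
  refine (abs_psi_le (by linarith) hVW _).trans ?_
  rw [div_le_one (by linarith)]
  linarith

theorem H3.sum_abs_ps (h : c.H3) {V W : ℝ} (hV : 1 ≤ V) (hVW : V ≤ W) (z : ℝ × ℝ) :
    ∑ p ∈ c.P, |c.ps V W p z| ≤ 6 := by
  have h1 := h.dens_le hV z.1 z.2 univ
  have h2 := h.dens_le (hV.trans hVW) z.1 z.2 univ
  rw [dens_eq_sum] at h1 h2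
  simp only [ind_of_mem (mem_univ _), one_mul] at h1 h2
  calc _ ≤ ∑ p ∈ c.P, (phi V (c.Y p z.1 - z.2) + phi W (c.Y p z.1 - z.2)) :=
        Finset.sum_le_sum fun p _ => abs_psi_le_add (by linarith) (by linarith) _
    _ ≤ 6 := by rw [Finset.sum_add_distrib]; linarith

theorem integrable_bdd {T C : ℝ} {f : ℝ × ℝ → ℝ} (hm : Measurable f) (hb : ∀ z, |f z| ≤ C) :
    Integrable f (bx T) :=
  Integrable.of_bound hm.aestronglyMeasurable C (Eventually.of_forall hb)

theorem integrable_term {V W : ℝ} (hV : 1 ≤ V) (hVW : V ≤ W) (T : ℝ) (p q : ι)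
    {f : ℝ × ℝ → ℝ} (hm : Measurable f) {C : ℝ} (hb : ∀ z, |f z| ≤ C) :
    Integrable (fun z => f z * (c.ps V W p z * c.ps V W q z)) (bx T) := by
  apply integrable_bdd (C := C) (hm.mul ((measurable_ps V W p).mul (measurable_ps V W q)))
  intro z
  simp only [Pi.mul_apply]
  rw [abs_mul, abs_mul]
  have h1 := abs_ps_le (c := c) hV hVW p z
  have h2 := abs_ps_le (c := c) hV hVW q z
  have h3 : |c.ps V W p z| * |c.ps V W q z| ≤ 1 := mul_le_one₀ h1 (abs_nonneg _) h2
  calc _ ≤ |f z| * 1 := mul_le_mul_of_nonneg_left h3 (abs_nonneg _)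
    _ ≤ C := by rw [mul_one]; exact hb z

theorem integrable_En {V W : ℝ} (hV : 1 ≤ V) (hVW : V ≤ W) (Kw : ℝ) (Z : ℕ) (T : ℝ) :
    Integrable (c.En V W Kw Z) (bx T) := by
  have : c.En V W Kw Z = fun z =>
      ∑ p ∈ c.P, ∑ q ∈ c.P, c.wt Kw Z p q z * (c.ps V W p z * c.ps V W q z) := by
    funext z; exact En_eq _ _ _ _ _
  rw [this]
  refine integrable_finsetSum _ fun p _ => integrable_finsetSum _ fun q _ => ?_
  apply integrable_term hV hVW T p q (measurable_wt Kw Z p q) (C := Z)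
  intro z
  rw [abs_of_nonneg (wt_nonneg _ _ _ _ _)]
  exact wt_le _ _ _ _ _

theorem abs_sub_le_of_uIoc {a b u : ℝ} (h : u ∈ uIoc a b) : |u - a| ≤ |b - a| :=
  abs_sub_left_of_mem_uIcc (uIoc_subset_uIcc h)

/-- The contribution of one pair of distinct points. -/
theorem Adm.pair_bound {K T V W Kw : ℝ} (hc : c.Adm K T) (hV : 1 ≤ V) (hVW : V ≤ W)
    (hK : 6 * W ≤ K) (Z : ℕ) {p q : ι} (hp : p ∈ c.P) (hq : q ∈ c.P) (hpq : p ≠ q) :
    ∫ z, (ind (Icc (-T) T) z.1 * c.wt Kw Z p q z) * (c.ps V W p z * c.ps V W q z) ∂bx (2 * T) ≤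
    ∫ z, ((12 * W + 4) + Z * ind {t : ℝ | abs (|t| - T) ≤ 4 * W * T / K} z.1) *
      (|c.ps V W p z| * |c.ps V W q z|) ∂bx (2 * T) := by
  have hW : 0 < W := by linarith
  have hT : 0 < T := hc.T_pos (by linarith)
  have hK0 : 0 < K := by linarith
  have hrhs : ∀ z : ℝ × ℝ,
      0 ≤ (12 * W + 4) + Z * ind {t : ℝ | abs (|t| - T) ≤ 4 * W * T / K} z.1 := by
    intro z
    have := ind_nonneg {t : ℝ | abs (|t| - T) ≤ 4 * W * T / K} z.1
    positivity
  have hnear : ∀ z : ℝ × ℝ, c.ps V W p z * c.ps V W q z ≠ 0 →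
      |c.Y p z.1 - z.2| ≤ W ∧ z.1 ∈ c.near (2 * W) p q := by
    intro z hz
    have h1 := psi_supp hVW (left_ne_zero_of_mul hz)
    have h2 := psi_supp hVW (right_ne_zero_of_mul hz)
    refine ⟨h1, ?_⟩
    show |c.Y q z.1 - c.Y p z.1| ≤ 2 * W
    rw [abs_le] at h1 h2 ⊢
    constructor <;> linarith [h1.1, h1.2, h2.1, h2.2]
  by_cases hrel : ∃ t, |t| ≤ T ∧ t ∈ c.near (2 * W) p q
  swap
  · have : ∀ z : ℝ × ℝ, (ind (Icc (-T) T) z.1 * c.wt Kw Z p q z) *
        (c.ps V W p z * c.ps V W q z) = 0 := by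
      intro z
      by_cases h1 : z.1 ∈ Icc (-T) T
      · by_cases h2 : c.ps V W p z * c.ps V W q z = 0
        · rw [h2, mul_zero]
        · exact absurd ⟨z.1, abs_le.mpr h1, (hnear z h2).2⟩ hrel
      · rw [ind_of_not h1]; ring
    simp only [this, integral_zero]
    exact integral_nonneg fun z => mul_nonneg (hrhs z) (by positivity)
  obtain ⟨t0, ht0, hn0⟩ := hrel
  have hsp := hc.speed (by linarith) hp hq hpq ht0 hn0
  have hne := hc.dx_ne (by linarith) (by linarith) hp hq hpq ht0 hn0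
  have hv : 0 < |c.x q - c.x p| := abs_pos.mpr hne
  set ts := (c.y q - c.y p) / (c.x q - c.x p) with hts
  have hts0 : ts ∈ c.near 0 p q := by
    show |c.Y q ts - c.Y p ts| ≤ 0
    have : c.Y q ts - c.Y p ts = 0 := by
      simp only [Y, hts]; field_simp; ring
    rw [this, abs_zero]
  set w0 := ind (Icc (-T) T) ts * c.wt Kw Z p q (ts, c.Y p ts) with hw0
  obtain ⟨i1, i2⟩ := cancel (V := V) (W := W) (by linarith) hVW (c.y p) (c.x p) (c.y q) (c.x q) hne
  have hz0 : ∫ z, c.ps V W p z * c.ps V W q z ∂bx (2 * T) = 0 := by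
    rw [bx_eq, setIntegral_eq_integral_of_forall_compl_eq_zero]
    · exact i2
    · intro z hz
      by_contra hne'
      obtain ⟨a1, a2⟩ := hnear z hne'
      have a3 := hc.near_sub (by linarith) (by linarith) (by linarith) hp hq hpq ht0 hn0 a2
      have a4 := hc.Y_range hp a3
      apply hz
      refine ⟨abs_le.mp a3, ?_⟩
      rw [abs_le] at a1
      have := hc.hK
      constructor <;> linarith [a1.1, a1.2, a4.1, a4.2]
  have hm1 : Measurable (fun z : ℝ × ℝ => ind (Icc (-T) T) z.1 * c.wt Kw Z p q z) :=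
    ((measurable_ind measurableSet_Icc).comp measurable_fst).mul (measurable_wt Kw Z p q)
  have hb1 : ∀ (z : ℝ × ℝ), 0 ≤ ind (Icc (-T) T) z.1 * c.wt Kw Z p q z ∧
      ind (Icc (-T) T) z.1 * c.wt Kw Z p q z ≤ Z := by
    intro z
    refine ⟨mul_nonneg (ind_nonneg _ _) (wt_nonneg _ _ _ _ _), ?_⟩
    have := mul_le_mul (ind_le_one (Icc (-T) T) z.1) (wt_le (c := c) Kw Z p q z)
      (wt_nonneg _ _ _ _ _) zero_le_one
    linarith
  have hI1 := integrable_term (c := c) hV hVW (2 * T) p q hm1 (C := Z) (fun z => by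
    rw [abs_of_nonneg (hb1 z).1]; exact (hb1 z).2)
  have hI2 := integrable_term (c := c) hV hVW (2 * T) p q (measurable_const (a := w0)) (C := |w0|)
    (fun _ => le_rfl)
  have hmE : MeasurableSet {t : ℝ | abs (|t| - T) ≤ 4 * W * T / K} :=
    measurableSet_le (by fun_prop) measurable_const
  have hI3 : Integrable (fun z : ℝ × ℝ =>
      ((12 * W + 4) + Z * ind {t : ℝ | abs (|t| - T) ≤ 4 * W * T / K} z.1) *
      (|c.ps V W p z| * |c.ps V W q z|)) (bx (2 * T)) := by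
    have := (integrable_term (c := c) hV hVW (2 * T) p q
      (f := fun z => (12 * W + 4) + Z * ind {t : ℝ | abs (|t| - T) ≤ 4 * W * T / K} z.1)
      (measurable_const.add (((measurable_ind hmE).comp measurable_fst).const_mul _))
      (C := 12 * W + 4 + Z) (fun z => by
        rw [abs_of_nonneg (hrhs z)]
        have := mul_le_mul_of_nonneg_left
          (ind_le_one {t : ℝ | abs (|t| - T) ≤ 4 * W * T / K} z.1) (Nat.cast_nonneg (α := ℝ) Z)
        linarith)).abs
    refine this.congr (Eventually.of_forall fun z => ?_)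
    simp only [abs_mul, abs_of_nonneg (hrhs z)]
  have e : ∫ z, (ind (Icc (-T) T) z.1 * c.wt Kw Z p q z) * (c.ps V W p z * c.ps V W q z)
      ∂bx (2 * T) = ∫ z, ((ind (Icc (-T) T) z.1 * c.wt Kw Z p q z) *
        (c.ps V W p z * c.ps V W q z) - w0 * (c.ps V W p z * c.ps V W q z)) ∂bx (2 * T) := by
    rw [integral_sub hI1 hI2, integral_const_mul, hz0]
    ring
  rw [e]
  apply integral_mono (hI1.sub hI2) hI3
  intro z
  simp only [Pi.sub_apply]
  by_cases hg : c.ps V W p z * c.ps V W q z = 0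
  · rw [hg]
    simp only [mul_zero, sub_self]
    exact mul_nonneg (hrhs z) (by positivity)
  obtain ⟨a1, a2⟩ := hnear z hg
  have a3 := time_shift a2 hts0
  have key : |ind (Icc (-T) T) z.1 * c.wt Kw Z p q z - w0| ≤
      (12 * W + 4) + Z * ind {t : ℝ | abs (|t| - T) ≤ 4 * W * T / K} z.1 := by
    have hτ : |z.1 - ts| ≤ 4 * W * T / K := by
      rw [le_div_iff₀ hK0]
      have b1 : |z.1 - ts| * (K / 2) ≤ |z.1 - ts| * (|c.x q - c.x p| * T) :=
        mul_le_mul_of_nonneg_left (by linarith) (abs_nonneg _)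
      nlinarith
    have hst : ∀ y ∈ c.P, c.x y ∈ uIoc (c.x p) (c.x q) →
        |(c.Y y z.1 - z.2) - (c.Y y ts - c.Y p ts)| ≤ 3 * W := by
      intro y _ hy
      have b1 := abs_sub_le_of_uIoc hy
      have b2 : (c.Y y z.1 - z.2) - (c.Y y ts - c.Y p ts) =
          (c.Y p z.1 - z.2) - (z.1 - ts) * (c.x y - c.x p) := by
        simp only [Y]; ring
      rw [b2]
      refine (abs_sub _ _).trans ?_
      rw [abs_mul]
      have := mul_le_mul_of_nonneg_left b1 (abs_nonneg (z.1 - ts))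
      linarith
    have c1 := hc.h3.cnt_stab (W := Kw) (e := 3 * W) (by linarith) z.1 z.2 ts (c.Y p ts) _ hst
    have c2 := hc.h3.cnt_stab (W := Kw) (e := 3 * W) (by linarith) ts (c.Y p ts) z.1 z.2 _
      (fun y hy hy' => by rw [abs_sub_comm]; exact hst y hy hy')
    have c3 : |c.wt Kw Z p q z - c.wt Kw Z p q (ts, c.Y p ts)| ≤ 12 * W + 4 := by
      unfold wt
      refine (abs_max_sub_max_le_abs _ _ _).trans ?_
      rw [abs_le]
      constructor <;> linarith
    have hZ : (0 : ℝ) ≤ Z := Nat.cast_nonneg _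
    have hedge : ¬ (z.1 ∈ Icc (-T) T ↔ ts ∈ Icc (-T) T) →
        z.1 ∈ {t : ℝ | abs (|t| - T) ≤ 4 * W * T / K} := by
      intro hn
      show abs (|z.1| - T) ≤ 4 * W * T / K
      have d1 := abs_abs_sub_abs_le_abs_sub z.1 ts
      rw [mem_Icc, mem_Icc, ← abs_le, ← abs_le] at hn
      rw [abs_le] at d1 ⊢
      by_cases k1 : |z.1| ≤ T <;> by_cases k2 : |ts| ≤ T
      · exact absurd ⟨fun _ => k2, fun _ => k1⟩ hn
      · constructor <;> linarith [d1.1, d1.2, not_le.mp k2]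
      · constructor <;> linarith [d1.1, d1.2, not_le.mp k1]
      · exact absurd ⟨fun h => absurd h k1, fun h => absurd h k2⟩ hn
    have hi0 := ind_nonneg {t : ℝ | abs (|t| - T) ≤ 4 * W * T / K} z.1
    by_cases k1 : z.1 ∈ Icc (-T) T <;> by_cases k2 : ts ∈ Icc (-T) T
    · rw [hw0, ind_of_mem k1, ind_of_mem k2, one_mul, one_mul]
      have := mul_nonneg hZ hi0
      linarith
    · rw [hw0, ind_of_mem k1, ind_of_not k2, ind_of_mem (hedge (by tauto))]
      rw [one_mul, zero_mul, sub_zero, abs_of_nonneg (wt_nonneg _ _ _ _ _)]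
      linarith [wt_le (c := c) Kw Z p q z]
    · rw [hw0, ind_of_not k1, ind_of_mem k2, ind_of_mem (hedge (by tauto))]
      rw [one_mul, zero_mul, zero_sub, abs_neg, abs_of_nonneg (wt_nonneg _ _ _ _ _)]
      linarith [wt_le (c := c) Kw Z p q (ts, c.Y p ts)]
    · rw [hw0, ind_of_not k1, ind_of_not k2]
      simp only [zero_mul, sub_self, abs_zero]
      positivity
  rw [← sub_mul, ← abs_mul]
  refine (le_abs_self _).trans ?_
  rw [abs_mul]
  exact mul_le_mul_of_nonneg_right key (abs_nonneg _)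

/-- The mean-square estimate over rank blocks. -/
theorem Adm.L2 {K T V W Kw : ℝ} (hc : c.Adm K T) (hV : 1 ≤ V) (hVW : V ≤ W)
    (hK : 6 * W ≤ K) (Z : ℕ) :
    ∫ z, c.En V W Kw Z z ∂bx T ≤ T ^ 2 * (144 * Z / V + 27648 * W + 6912 * Z * W / K) := by
  have hW : 0 < W := by linarith
  have hT : 0 < T := hc.T_pos (by linarith)
  have hK0 : 0 < K := by linarith
  have hZ : (0 : ℝ) ≤ Z := Nat.cast_nonneg _
  set E := {t : ℝ | abs (|t| - T) ≤ 4 * W * T / K} with hE
  have hmE : MeasurableSet E := measurableSet_le (by fun_prop) measurable_const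
  have hmI : Measurable (fun z : ℝ × ℝ => ind (Icc (-T) T) z.1) :=
    (measurable_ind measurableSet_Icc).comp measurable_fst
  have hterm : ∀ p q : ι, Integrable (fun z => (ind (Icc (-T) T) z.1 * c.wt Kw Z p q z) *
      (c.ps V W p z * c.ps V W q z)) (bx (2 * T)) := by
    intro p q
    apply integrable_term hV hVW _ p q (hmI.mul (measurable_wt Kw Z p q)) (C := Z)
    intro z
    simp only [Pi.mul_apply]
    rw [abs_of_nonneg (mul_nonneg (ind_nonneg _ _) (wt_nonneg _ _ _ _ _))]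
    have := mul_le_mul (ind_le_one (Icc (-T) T) z.1) (wt_le (c := c) Kw Z p q z)
      (wt_nonneg _ _ _ _ _) zero_le_one
    linarith
  have hrhs : ∀ z : ℝ × ℝ, 0 ≤ (12 * W + 4) + Z * ind E z.1 := by
    intro z
    have := ind_nonneg E z.1
    positivity
  have hI3 : ∀ p q : ι, Integrable (fun z : ℝ × ℝ => ((12 * W + 4) + Z * ind E z.1) *
      (|c.ps V W p z| * |c.ps V W q z|)) (bx (2 * T)) := by
    intro p q
    have := (integrable_term (c := c) hV hVW (2 * T) p q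
      (f := fun z => (12 * W + 4) + Z * ind E z.1)
      (measurable_const.add (((measurable_ind hmE).comp measurable_fst).const_mul _))
      (C := 12 * W + 4 + Z) (fun z => by
        rw [abs_of_nonneg (hrhs z)]
        have := mul_le_mul_of_nonneg_left (ind_le_one E z.1) hZ
        linarith)).abs
    refine this.congr (Eventually.of_forall fun z => ?_)
    simp only [abs_mul, abs_of_nonneg (hrhs z)]
  have hI4 : ∀ p : ι, Integrable (fun z : ℝ × ℝ => Z / (2 * V) * |c.ps V W p z|) (bx (2 * T)) :=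
    fun p => (integrable_bdd (measurable_ps V W p) (abs_ps_le hV hVW p)).abs.const_mul _
  have hI5 : ∀ p : ι, Integrable (fun z : ℝ × ℝ => Z / (2 * V) * |c.ps V W p z| +
      ∑ q ∈ c.P, ((12 * W + 4) + Z * ind E z.1) * (|c.ps V W p z| * |c.ps V W q z|))
      (bx (2 * T)) := fun p => (hI4 p).add (integrable_finsetSum _ fun q _ => hI3 p q)
  have s1 : ∫ z, c.En V W Kw Z z ∂bx T ≤
      ∫ z, ind (Icc (-T) T) z.1 * c.En V W Kw Z z ∂bx (2 * T) := by
    have e : ∫ z, c.En V W Kw Z z ∂bx T = ∫ z, ind (Icc (-T) T) z.1 * c.En V W Kw Z z ∂bx T := by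
      apply integral_congr_ae
      filter_upwards [bx_ae T] with z hz
      rw [ind_of_mem (show z.1 ∈ Icc (-T) T from abs_le.mp hz.1), one_mul]
    rw [e]
    apply integral_mono_measure
    · rw [bx_eq, bx_eq]
      apply Measure.restrict_mono _ le_rfl
      apply Set.prod_mono <;> apply Icc_subset_Icc <;> linarith
    · exact Eventually.of_forall fun z => mul_nonneg (ind_nonneg _ _) (En_nonneg _ _ _ _ _)
    · apply (integrable_En hV hVW Kw Z (2 * T)).bdd_mul (c := 1) hmI.aestronglyMeasurable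
      refine Eventually.of_forall fun z => ?_
      rw [Real.norm_eq_abs, abs_of_nonneg (ind_nonneg _ _)]
      exact ind_le_one _ _
  have s2 : ∫ z, ind (Icc (-T) T) z.1 * c.En V W Kw Z z ∂bx (2 * T) =
      ∑ p ∈ c.P, ∑ q ∈ c.P, ∫ z, (ind (Icc (-T) T) z.1 * c.wt Kw Z p q z) *
        (c.ps V W p z * c.ps V W q z) ∂bx (2 * T) := by
    simp only [← integral_finsetSum _ fun q _ => hterm _ q]
    rw [← integral_finsetSum _ fun p _ => integrable_finsetSum _ fun q _ => hterm p q]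
    congr 1
    funext z
    rw [En_eq, Finset.mul_sum]
    refine Finset.sum_congr rfl fun p _ => ?_
    rw [Finset.mul_sum]
    refine Finset.sum_congr rfl fun q _ => ?_
    ring
  have s3 : ∀ p ∈ c.P, ∑ q ∈ c.P, ∫ z, (ind (Icc (-T) T) z.1 * c.wt Kw Z p q z) *
        (c.ps V W p z * c.ps V W q z) ∂bx (2 * T) ≤
      ∫ z, (Z / (2 * V) * |c.ps V W p z| + ∑ q ∈ c.P, ((12 * W + 4) + Z * ind E z.1) *
        (|c.ps V W p z| * |c.ps V W q z|)) ∂bx (2 * T) := by
    intro p hp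
    rw [integral_add (hI4 p) (integrable_finsetSum _ fun q _ => hI3 p q),
      integral_finsetSum _ fun q _ => hI3 p q, ← Finset.add_sum_erase _ _ hp]
    apply add_le_add
    · apply integral_mono (hterm p p) (hI4 p)
      intro z
      have a1 := mul_le_mul (ind_le_one (Icc (-T) T) z.1) (wt_le (c := c) Kw Z p p z)
        (wt_nonneg _ _ _ _ _) zero_le_one
      have a2 : c.ps V W p z * c.ps V W p z ≤ 1 / (2 * V) * |c.ps V W p z| := by
        rw [← abs_mul_abs_self]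
        exact mul_le_mul_of_nonneg_right (abs_psi_le (by linarith) hVW _) (abs_nonneg _)
      have a3 := mul_le_mul a1 a2 (mul_self_nonneg _) (by linarith)
      refine a3.trans (le_of_eq ?_)
      ring
    · calc _ ≤ ∑ q ∈ c.P.erase p, ∫ z, ((12 * W + 4) + Z * ind E z.1) *
            (|c.ps V W p z| * |c.ps V W q z|) ∂bx (2 * T) :=
            Finset.sum_le_sum fun q hq => hc.pair_bound hV hVW hK Z hp
              (Finset.mem_of_mem_erase hq) (Finset.ne_of_mem_erase hq).symm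
        _ ≤ _ := Finset.sum_le_sum_of_subset_of_nonneg (Finset.erase_subset _ _) fun q _ _ =>
            integral_nonneg fun z => mul_nonneg (hrhs z) (by positivity)
  have s4 := upper1 (μ := bx (2 * T))
    (f := fun z => ∑ p ∈ c.P, (Z / (2 * V) * |c.ps V W p z| +
      ∑ q ∈ c.P, ((12 * W + 4) + Z * ind E z.1) * (|c.ps V W p z| * |c.ps V W q z|)))
    (integrable_finsetSum _ fun p _ => hI5 p)
    (integrable_const (3 * Z / V + 36 * (12 * W + 4))) (E ×ˢ univ) (u := 36 * Z) (by positivity)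
    (Eventually.of_forall fun z => by
      have b1 := hc.h3.sum_abs_ps hV hVW z
      have b0 : 0 ≤ ∑ p ∈ c.P, |c.ps V W p z| := Finset.sum_nonneg fun _ _ => abs_nonneg _
      have b2 : ind (E ×ˢ (univ : Set ℝ)) z = ind E z.1 := by
        by_cases hz : z.1 ∈ E
        · rw [ind_of_mem hz, ind_of_mem (show z ∈ E ×ˢ (univ : Set ℝ) from ⟨hz, mem_univ _⟩)]
        · rw [ind_of_not hz, ind_of_not (show z ∉ E ×ˢ (univ : Set ℝ) from fun h => hz h.1)]
      simp only [Finset.sum_add_distrib, ← Finset.mul_sum, ← Finset.sum_mul]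
      rw [b2]
      have b3 : (∑ p ∈ c.P, |c.ps V W p z|) * (∑ p ∈ c.P, |c.ps V W p z|) ≤ 36 := by nlinarith
      have b4 := mul_le_mul_of_nonneg_left b3 (hrhs z)
      have b5 : Z / (2 * V) * ∑ p ∈ c.P, |c.ps V W p z| ≤ Z / (2 * V) * 6 :=
        mul_le_mul_of_nonneg_left b1 (by positivity)
      have b6 : Z / (2 * V) * 6 = 3 * Z / V := by field_simp; ring
      linarith)
  rw [integral_finsetSum _ fun p _ => hI5 p,
    integral_const_bx (by linarith)] at s4
  have s5 : (bx (2 * T)).real (E ×ˢ univ) ≤ 192 * W * T ^ 2 / K := by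
    unfold bx
    rw [measureReal_prod_prod, mu_univ (by linarith)]
    have hτ : 0 ≤ 4 * W * T / K := by positivity
    have d1 : (mu (2 * T)).real E ≤ 2 * (4 * W * T / K) + 2 * (4 * W * T / K) := by
      refine le_trans (mu_mono (E' := {s : ℝ | |T - s| ≤ 4 * W * T / K} ∪
        {s : ℝ | |-T - s| ≤ 4 * W * T / K}) ?_) ((measureReal_union_le _ _).trans
        (add_le_add (mu_window_le _ _ hτ) (mu_window_le _ _ hτ)))
      intro t _ ht
      have ht' : abs (|t| - T) ≤ 4 * W * T / K := ht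
      rcases le_total 0 t with h | h
      · left
        rw [abs_of_nonneg h, abs_sub_comm] at ht'
        exact ht'
      · right
        rw [abs_of_nonpos h] at ht'
        show |-T - t| ≤ _
        rwa [show -T - t = -t - T by ring]
    calc _ ≤ (2 * (4 * W * T / K) + 2 * (4 * W * T / K)) * (2 * (3 * (2 * T))) :=
          mul_le_mul_of_nonneg_right d1 (by positivity)
      _ = _ := by ring
  have s6 := mul_le_mul_of_nonneg_left s5 (show 0 ≤ 36 * (Z : ℝ) by positivity)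
  have s7 := Finset.sum_le_sum s3
  have s8 : 12 * (2 * T) ^ 2 * (3 * Z / V + 36 * (12 * W + 4)) + 36 * Z * (192 * W * T ^ 2 / K) ≤
      T ^ 2 * (144 * Z / V + 27648 * W + 6912 * Z * W / K) := by
    have : 0 ≤ T ^ 2 * (W - 1) := mul_nonneg (sq_nonneg _) (by linarith)
    have e1 : 3 * (Z : ℝ) / V = 3 * (Z / V) := by ring
    have e2 : 144 * (Z : ℝ) / V = 144 * (Z / V) := by ring
    have e3 : 36 * Z * (192 * W * T ^ 2 / K) = T ^ 2 * (6912 * Z * W / K) := by ring
    rw [e1, e2, e3]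
    nlinarith
  linarith

end Cfg

end Pool.Agent.Lib.MP_dd58da_co
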