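import Pool.Agent.Lib.MP_dd58da_co.Basic

set_option autoImplicit false

open MeasureTheory Set Filter
open scoped Classical

namespace Pool.Agent.Lib.MP_dd58da_co

section General

variable {α : Type} [MeasurableSpace α] {μ : Measure α}

noncomputable def ind {β : Type} (S : Set β) (x : β) : ℝ := if x ∈ S then 1 else 0

theorem ind_of_mem {β : Type} {S : Set β} {x : β} (h : x ∈ S) : ind S x = 1 := if_pos h

theorem ind_of_not {β : Type} {S : Set β} {x : β} (h : x ∉ S) : ind S x = 0 := if_neg h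

theorem ind_nonneg {β : Type} (S : Set β) (x : β) : 0 ≤ ind S x := by
  unfold ind; split_ifs <;> norm_num

theorem ind_le_one {β : Type} (S : Set β) (x : β) : ind S x ≤ 1 := by
  unfold ind; split_ifs <;> norm_num

theorem ind_mono {β : Type} {S S' : Set β} (h : S ⊆ S') (x : β) : ind S x ≤ ind S' x := by
  by_cases hx : x ∈ S
  · rw [ind_of_mem hx, ind_of_mem (h hx)]
  · rw [ind_of_not hx]; exact ind_nonneg _ _

theorem ind_inter {β : Type} (S S' : Set β) (x : β) : ind (S ∩ S') x = ind S x * ind S' x := by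
  unfold ind
  by_cases h1 : x ∈ S <;> by_cases h2 : x ∈ S' <;> simp [h1, h2]

theorem sum_ind {β κ : Type} (R : Finset κ) (F : κ → Set β) (x : β) :
    ∑ i ∈ R, ind (F i) x = ((R.filter (fun i => x ∈ F i)).card : ℝ) := by
  unfold ind
  rw [Finset.sum_boole]

theorem sum_ind_le {β κ : Type} (R : Finset κ) (F : κ → Set β) (x : β) {B : ℝ}
    (h : ∀ S ⊆ R, (∀ i ∈ S, x ∈ F i) → (S.card : ℝ) ≤ B) : ∑ i ∈ R, ind (F i) x ≤ B := by
  rw [sum_ind]
  exact h _ (Finset.filter_subset _ _) fun i hi => (Finset.mem_filter.mp hi).2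

theorem le_sum_ind {β κ : Type} (R : Finset κ) (F : κ → Set β) (x : β) (S : Finset κ)
    (hS : S ⊆ R) (h : ∀ i ∈ S, x ∈ F i) : (S.card : ℝ) ≤ ∑ i ∈ R, ind (F i) x := by
  rw [sum_ind]
  exact_mod_cast Finset.card_le_card fun i hi => Finset.mem_filter.mpr ⟨hS hi, h i hi⟩

theorem ind_eq_indicator {β : Type} (S : Set β) : ind S = S.indicator (fun _ => (1 : ℝ)) := by
  funext x
  unfold ind
  by_cases hx : x ∈ S <;> simp [hx]

theorem measurable_ind {S : Set α} (hS : MeasurableSet S) : Measurable (ind S) := by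
  rw [ind_eq_indicator]
  exact measurable_const.indicator hS

theorem integrable_ind [IsFiniteMeasure μ] {S : Set α} (hS : MeasurableSet S) :
    Integrable (ind S) μ := by
  rw [ind_eq_indicator]
  exact (integrable_const _).indicator hS

theorem integral_ind {S : Set α} (hS : MeasurableSet S) : ∫ x, ind S x ∂μ = μ.real S := by
  rw [ind_eq_indicator, integral_indicator hS]
  simp

theorem integrable_sum_ind [IsFiniteMeasure μ] {κ : Type} (R : Finset κ) (w : κ → ℝ)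
    (F : κ → Set α) (hF : ∀ i ∈ R, MeasurableSet (F i)) :
    Integrable (fun x => ∑ i ∈ R, w i * ind (F i) x) μ :=
  integrable_finsetSum _ fun i hi => (integrable_ind (hF i hi)).const_mul _

theorem integral_sum_ind [IsFiniteMeasure μ] {κ : Type} (R : Finset κ) (w : κ → ℝ)
    (F : κ → Set α) (hF : ∀ i ∈ R, MeasurableSet (F i)) :
    ∫ x, ∑ i ∈ R, w i * ind (F i) x ∂μ = ∑ i ∈ R, w i * μ.real (F i) := by
  rw [integral_finsetSum _ fun i hi => (integrable_ind (hF i hi)).const_mul _]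
  refine Finset.sum_congr rfl fun i hi => ?_
  rw [integral_const_mul, integral_ind (hF i hi)]

theorem markov [IsFiniteMeasure μ] {f : α → ℝ} (hf : Integrable f μ) (h0 : ∀ᵐ x ∂μ, 0 ≤ f x)
    {E : Set α} {N : ℝ} (hN : 0 ≤ N) (hE : ∀ᵐ x ∂μ, x ∈ E → N ≤ f x) :
    N * μ.real E ≤ ∫ x, f x ∂μ := by
  have h1 := mul_meas_ge_le_integral_of_nonneg h0 hf N
  refine le_trans (mul_le_mul_of_nonneg_left ?_ hN) h1
  apply ENNReal.toReal_mono (measure_ne_top _ _)
  apply measure_mono_ae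
  filter_upwards [hE] with x hx using hx

theorem upper [IsFiniteMeasure μ] {f g : α → ℝ} (hf : Integrable f μ) (hg : Integrable g μ)
    {κ : Type} (R : Finset κ) (E : κ → Set α) {u : ℝ} (hu : 0 ≤ u)
    (h : ∀ᵐ x ∂μ, f x ≤ g x + u * ∑ j ∈ R, ind (E j) x) :
    ∫ x, f x ∂μ ≤ ∫ x, g x ∂μ + u * ∑ j ∈ R, μ.real (E j) := by
  have hm : ∀ j ∈ R, MeasurableSet (toMeasurable μ (E j)) := fun j _ => measurableSet_toMeasurable _ _
  have h1 := integrable_sum_ind (μ := μ) R (fun _ => u) _ hm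
  have h2 := integral_sum_ind (μ := μ) R (fun _ => u) _ hm
  calc ∫ x, f x ∂μ ≤ ∫ x, (g x + ∑ j ∈ R, u * ind (toMeasurable μ (E j)) x) ∂μ := by
        apply integral_mono_ae hf (hg.add h1)
        filter_upwards [h] with x hx
        refine hx.trans ?_
        simp only [Pi.add_apply, ← Finset.mul_sum]
        gcongr with j hj
        exact ind_mono (subset_toMeasurable _ _) x
    _ = ∫ x, g x ∂μ + u * ∑ j ∈ R, μ.real (E j) := by
        rw [integral_add hg h1, h2, Finset.mul_sum]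
        simp [Measure.real, measure_toMeasurable]

theorem upper1 [IsFiniteMeasure μ] {f g : α → ℝ} (hf : Integrable f μ) (hg : Integrable g μ)
    (E : Set α) {u : ℝ} (hu : 0 ≤ u) (h : ∀ᵐ x ∂μ, f x ≤ g x + u * ind E x) :
    ∫ x, f x ∂μ ≤ ∫ x, g x ∂μ + u * μ.real E := by
  have := upper hf hg ({()} : Finset Unit) (fun _ => E) hu (by simpa using h)
  simpa using this

theorem real_mono_ae [IsFiniteMeasure μ] {E E' : Set α} (h : ∀ᵐ x ∂μ, x ∈ E → x ∈ E') :
    μ.real E ≤ μ.real E' := by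
  apply ENNReal.toReal_mono (measure_ne_top _ _)
  apply measure_mono_ae
  filter_upwards [h] with x hx using hx

end General

/-- Lebesgue measure on the time interval `[-T, T]`. -/
noncomputable def mu (T : ℝ) : Measure ℝ := volume.restrict (Icc (-T) T)

instance (T : ℝ) : IsFiniteMeasure (mu T) := by
  unfold mu; infer_instance

theorem mu_ae (T : ℝ) : ∀ᵐ t ∂mu T, |t| ≤ T := by
  unfold mu
  filter_upwards [ae_restrict_mem measurableSet_Icc] with t ht
  exact abs_le.mpr ht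

theorem mu_univ {T : ℝ} (hT : 0 ≤ T) : (mu T).real univ = 2 * T := by
  unfold mu
  rw [Measure.real, Measure.restrict_apply_univ, Real.volume_Icc, ENNReal.toReal_ofReal (by linarith)]
  ring

theorem mu_mono {T : ℝ} {E E' : Set ℝ} (h : ∀ t, |t| ≤ T → t ∈ E → t ∈ E') :
    (mu T).real E ≤ (mu T).real E' :=
  real_mono_ae (by filter_upwards [mu_ae T] with t ht using h t ht)

theorem mu_le_vol {T : ℝ} {E : Set ℝ} (hE : volume E ≠ ⊤) : (mu T).real E ≤ volume.real E :=
  ENNReal.toReal_mono hE (Measure.restrict_apply_le _ _)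

theorem mu_eq_vol {T : ℝ} {E : Set ℝ} (hE : ∀ t ∈ E, |t| ≤ T) : (mu T).real E = volume.real E := by
  unfold mu
  rw [Measure.real, Measure.real, Measure.restrict_eq_self]
  intro t ht
  exact abs_le.mp (hE t ht)

theorem integral_const_mu {T : ℝ} (hT : 0 ≤ T) (B : ℝ) : ∫ _t, B ∂mu T = 2 * T * B := by
  rw [integral_const, mu_univ hT, smul_eq_mul]

theorem lin_eq_Icc (a b V : ℝ) (hb : b ≠ 0) :
    {t : ℝ | |a - t * b| ≤ V} = Icc (a / b - V / |b|) (a / b + V / |b|) := by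
  ext t
  have hb' : 0 < |b| := abs_pos.mpr hb
  have e : a - t * b = (a / b - t) * b := by field_simp
  simp only [mem_ofPred_eq, mem_Icc]
  rw [e, abs_mul, ← le_div_iff₀ hb', abs_le]
  constructor <;> rintro ⟨h1, h2⟩ <;> constructor <;> linarith

namespace Cfg

variable {ι : Type} {c : Cfg ι}

theorem measurable_Y (p : ι) : Measurable (c.Y p) := by
  unfold Y; fun_prop

theorem measurable_near (V : ℝ) (p q : ι) : MeasurableSet (c.near V p q) := by
  unfold near
  exact measurableSet_le ((measurable_Y q).sub (measurable_Y p)).abs measurable_const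

theorem near_eq (V : ℝ) {p q : ι} (h : c.x q - c.x p ≠ 0) :
    c.near V p q = Icc ((c.y q - c.y p) / (c.x q - c.x p) - V / |c.x q - c.x p|)
      ((c.y q - c.y p) / (c.x q - c.x p) + V / |c.x q - c.x p|) := by
  rw [← lin_eq_Icc _ _ _ h]
  ext t
  simp only [near, mem_ofPred_eq, Y]
  rw [show c.y q - t * c.x q - (c.y p - t * c.x p) = c.y q - c.y p - t * (c.x q - c.x p) by ring]

theorem vol_near {V : ℝ} (hV : 0 ≤ V) {p q : ι} (h : c.x q - c.x p ≠ 0) :
    volume (c.near V p q) ≠ ⊤ ∧ volume.real (c.near V p q) = 2 * V / |c.x q - c.x p| := by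
  rw [near_eq V h]
  refine ⟨by simp, ?_⟩
  have : 0 ≤ V / |c.x q - c.x p| := by positivity
  rw [Real.volume_real_Icc_of_le (by linarith)]
  ring

theorem Adm.dx_ne {K T V : ℝ} (h : c.Adm K T) (hV : 0 ≤ V) (hK : V < K) {p q : ι} (hp : p ∈ c.P)
    (hq : q ∈ c.P) (hpq : p ≠ q) {t : ℝ} (ht : |t| ≤ T) (hn : t ∈ c.near V p q) :
    c.x q - c.x p ≠ 0 := by
  intro h0
  have := h.speed hV hp hq hpq ht hn
  rw [h0] at this
  simp at this
  linarith

theorem Adm.near_sub {K T V V' : ℝ} (h : c.Adm K T) (hV : 0 ≤ V) (hV' : 0 < V')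
    (hK : 2 * V + V' ≤ K) {p q : ι} (hp : p ∈ c.P) (hq : q ∈ c.P) (hpq : p ≠ q) {t : ℝ}
    (ht : |t| ≤ T) (hn : t ∈ c.near V p q) {t' : ℝ} (ht' : t' ∈ c.near V' p q) : |t'| ≤ 2 * T := by
  have h1 := h.speed hV hp hq hpq ht hn
  have h2 := time_shift hn ht'
  have hT : 0 < T := h.T_pos (by linarith)
  have hv : 0 < |c.x q - c.x p| := abs_pos.mpr (h.dx_ne hV (by linarith) hp hq hpq ht hn)
  have h3 : |t - t'| ≤ T := by
    by_contra hc
    push Not at hc
    have := mul_lt_mul_of_pos_right hc hv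
    nlinarith
  have h4 : |t'| ≤ |t| + |t - t'| := by
    have := abs_sub t (t - t')
    simpa using this
  linarith

/-- The sweep lemma for one pair. -/
theorem Adm.sweep {K T V V' : ℝ} (h : c.Adm K T) (hV : 0 ≤ V) (hV' : 0 < V')
    (hK : 2 * V + V' ≤ K) {p q : ι} (hp : p ∈ c.P) (hq : q ∈ c.P) (hpq : p ≠ q) {t : ℝ}
    (ht : |t| ≤ T) (hn : t ∈ c.near V p q) :
    (mu T).real (c.near V p q) ≤ V / V' * (mu (2 * T)).real (c.near V' p q) := by
  have hne := h.dx_ne hV (by linarith) hp hq hpq ht hn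
  obtain ⟨a1, a2⟩ := vol_near hV hne
  obtain ⟨_, b2⟩ := vol_near hV'.le hne
  rw [mu_eq_vol (fun t' ht' => h.near_sub hV hV' hK hp hq hpq ht hn ht'), b2]
  refine (mu_le_vol a1).trans (le_of_eq ?_)
  rw [a2]
  field_simp

variable (c)

/-- Total time spent in the events `E p`. -/
noncomputable def palm (T : ℝ) (E : ι → Set ℝ) : ℝ := ∑ p ∈ c.P, (mu T).real (E p)

/-- A set of pairs each of which comes within `V` during `[-T, T]`. -/
def Rel (V T : ℝ) (R : Finset (ι × ι)) : Prop :=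
  ∀ i ∈ R, i.1 ∈ c.P ∧ i.2 ∈ c.P ∧ i.1 ≠ i.2 ∧ ∃ t, |t| ≤ T ∧ t ∈ c.near V i.1 i.2

noncomputable def lam (T V : ℝ) (R : Finset (ι × ι)) (w : ι × ι → ℝ) : ℝ :=
  ∑ i ∈ R, w i * (mu T).real (c.near V i.1 i.2)

variable {c}

theorem palm_nonneg (T : ℝ) (E : ι → Set ℝ) : 0 ≤ c.palm T E :=
  Finset.sum_nonneg fun _ _ => measureReal_nonneg

theorem palm_mono {T : ℝ} {E E' : ι → Set ℝ}
    (h : ∀ p ∈ c.P, ∀ t, |t| ≤ T → t ∈ E p → t ∈ E' p) : c.palm T E ≤ c.palm T E' :=
  Finset.sum_le_sum fun p hp => mu_mono (h p hp)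

theorem palm_le_add {T : ℝ} {E E1 E2 : ι → Set ℝ}
    (h : ∀ p ∈ c.P, ∀ t, |t| ≤ T → t ∈ E p → t ∈ E1 p ∨ t ∈ E2 p) :
    c.palm T E ≤ c.palm T E1 + c.palm T E2 := by
  unfold palm
  rw [← Finset.sum_add_distrib]
  refine Finset.sum_le_sum fun p hp => ?_
  exact (mu_mono (E' := E1 p ∪ E2 p) (h p hp)).trans (measureReal_union_le _ _)

theorem palm_univ {T : ℝ} (hT : 0 ≤ T) : c.palm T (fun _ => univ) = 2 * T * c.P.card := by
  unfold palm
  simp [mu_univ hT]
  ring

theorem lam_nonneg {T V : ℝ} {R : Finset (ι × ι)} {w : ι × ι → ℝ} (hw : ∀ i ∈ R, 0 ≤ w i) :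
    0 ≤ c.lam T V R w :=
  Finset.sum_nonneg fun i hi => mul_nonneg (hw i hi) measureReal_nonneg

theorem Adm.lam_sweep {K T V V' : ℝ} (h : c.Adm K T) (hV : 0 ≤ V) (hV' : 0 < V')
    (hK : 2 * V + V' ≤ K) {R : Finset (ι × ι)} (hR : c.Rel V T R) {w : ι × ι → ℝ}
    (hw : ∀ i ∈ R, 0 ≤ w i) : c.lam T V R w ≤ V / V' * c.lam (2 * T) V' R w := by
  unfold lam
  rw [Finset.mul_sum]
  refine Finset.sum_le_sum fun i hi => ?_
  obtain ⟨h1, h2, h3, t, ht, hn⟩ := hR i hi
  have := mul_le_mul_of_nonneg_left (h.sweep hV hV' hK h1 h2 h3 ht hn) (hw i hi)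
  linarith

theorem lam_eq_integral (T V : ℝ) (R : Finset (ι × ι)) (w : ι × ι → ℝ) :
    c.lam T V R w = ∫ t, ∑ i ∈ R, w i * ind (c.near V i.1 i.2) t ∂mu T :=
  (integral_sum_ind R w _ fun i _ => measurable_near V i.1 i.2).symm

theorem palm_le_lam {T V N : ℝ} (hN : 0 ≤ N) {R : Finset (ι × ι)} (hR : ∀ i ∈ R, i.1 ∈ c.P)
    {w : ι × ι → ℝ} (hw : ∀ i ∈ R, 0 ≤ w i) {E : ι → Set ℝ}
    (h : ∀ p ∈ c.P, ∀ t, |t| ≤ T → t ∈ E p →
      N ≤ ∑ i ∈ R.filter (fun i => i.1 = p), w i * ind (c.near V i.1 i.2) t) :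
    N * c.palm T E ≤ c.lam T V R w := by
  unfold palm lam
  rw [Finset.mul_sum, ← Finset.sum_fiberwise_of_maps_to (g := fun i : ι × ι => i.1) hR]
  refine Finset.sum_le_sum fun p hp => ?_
  have hm : ∀ i ∈ R.filter (fun i => i.1 = p), MeasurableSet (c.near V i.1 i.2) :=
    fun i _ => measurable_near V i.1 i.2
  rw [← integral_sum_ind _ w _ hm]
  apply markov (integrable_sum_ind _ w _ hm) _ hN
  · filter_upwards [mu_ae T] with t ht using h p hp t ht
  · refine Eventually.of_forall fun t => Finset.sum_nonneg fun i hi => ?_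
    exact mul_nonneg (hw i (Finset.mem_filter.mp hi).1) (ind_nonneg _ _)

theorem lam_le {T V B u : ℝ} (hT : 0 ≤ T) (hu : 0 ≤ u) {R : Finset (ι × ι)} {w : ι × ι → ℝ}
    {Bad : ι → Set ℝ}
    (h : ∀ t, |t| ≤ T → ∑ i ∈ R, w i * ind (c.near V i.1 i.2) t ≤
      B + u * ∑ p ∈ c.P, ind (Bad p) t) :
    c.lam T V R w ≤ 2 * T * B + u * c.palm T Bad := by
  rw [lam_eq_integral, ← integral_const_mu hT]
  apply upper (integrable_sum_ind _ w _ fun i _ => measurable_near V i.1 i.2)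
    (integrable_const B) c.P Bad hu
  filter_upwards [mu_ae T] with t ht using h t ht

/-- At most one other point is within `1/2` of `p`. -/
theorem H3.uniq (h : c.H3) {p q q' : ι} (hp : p ∈ c.P) (hq : q ∈ c.P) (hq' : q' ∈ c.P)
    (hpq : p ≠ q) (hpq' : p ≠ q') {t : ℝ} (h1 : t ∈ c.near (1 / 2) p q)
    (h2 : t ∈ c.near (1 / 2) p q') : q = q' := by
  by_contra hne
  have a1 : |c.Y q t - c.Y p t| ≤ 1 / 2 := h1
  have a2 : |c.Y q' t - c.Y p t| ≤ 1 / 2 := h2
  rw [abs_le] at a1 a2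
  apply h t p hp q hq q' hq' hpq hpq' hne <;> rw [abs_le] <;> constructor <;> linarith

theorem near_mono {V V' : ℝ} (hV : V ≤ V') (p q : ι) : c.near V p q ⊆ c.near V' p q :=
  fun _ ht => le_trans ht hV

/-- Passing times of distinct points are disjoint. -/
theorem H3.arcs (h : c.H3) {p : ι} (hp : p ∈ c.P) (Q : Finset ι) (hQ : Q ⊆ c.P) (t0 τ : ℝ)
    (hτ : 0 ≤ τ) (hne : ∀ b ∈ Q, c.x b - c.x p ≠ 0)
    (hin : ∀ b ∈ Q, ∀ t ∈ c.near (1 / 2) p b, |t - t0| ≤ τ) :
    ∑ b ∈ Q, 1 / |c.x b - c.x p| ≤ 2 * τ := by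
  set ν : Measure ℝ := volume.restrict (Icc (t0 - τ) (t0 + τ)) with hν
  have hm : ∀ b ∈ Q, MeasurableSet (c.near (1 / 2) p b) := fun b _ => measurable_near _ _ _
  have h1 := integral_sum_ind (μ := ν) Q (fun _ => 1) _ hm
  have h2 : ∫ t, ∑ b ∈ Q, 1 * ind (c.near (1 / 2) p b) t ∂ν ≤ ∫ _t, (1 : ℝ) ∂ν := by
    apply integral_mono (integrable_sum_ind Q _ _ hm) (integrable_const _)
    intro t
    simp only [one_mul]
    rw [sum_ind]
    have : (Q.filter (fun b => t ∈ c.near (1 / 2) p b)).card ≤ 1 := by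
      rw [Finset.card_le_one]
      intro a ha b hb
      rw [Finset.mem_filter] at ha hb
      have hpa : p ≠ a := by rintro rfl; exact hne _ ha.1 (sub_self _)
      have hpb : p ≠ b := by rintro rfl; exact hne _ hb.1 (sub_self _)
      exact h.uniq hp (hQ ha.1) (hQ hb.1) hpa hpb ha.2 hb.2
    exact_mod_cast this
  rw [h1, integral_const, smul_eq_mul, mul_one, hν, Measure.real, Measure.restrict_apply_univ,
    Real.volume_Icc, ENNReal.toReal_ofReal (by linarith)] at h2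
  refine le_trans (le_of_eq ?_) (h2.trans (le_of_eq (by ring)))
  refine Finset.sum_congr rfl fun b hb => ?_
  have e : (volume.restrict (Icc (t0 - τ) (t0 + τ))).real (c.near (1 / 2) p b) =
      volume.real (c.near (1 / 2) p b) := by
    rw [Measure.real, Measure.real, Measure.restrict_eq_self]
    intro t ht
    have := abs_le.mp (hin b hb t ht)
    constructor <;> linarith [this.1, this.2]
  rw [e, (vol_near (by norm_num) (hne b hb)).2]
  ring

end Cfg

end Pool.Agent.Lib.MP_dd58da_co
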