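import Pool.Agent.Lib.MP_dd58da_co.Apex

set_option autoImplicit false

open MeasureTheory Set Filter
open scoped Classical

namespace Pool.Agent.Lib.MP_dd58da_co

namespace Cfg

variable {ι : Type} {c : Cfg ι}

theorem H3.apex_total (h : c.H3) (T κ : ℝ) (R : Finset (ι × ι))
    (hR : ∀ i ∈ R, i.1 ∈ c.P ∧ i.2 ∈ c.P ∧ i.1 ≠ i.2) (m : ℕ) (d : ℕ → ℝ) (hd : ∀ j, 0 < d j)
    (H : ℕ → Finset (ι × ι)) (hH : ∀ j, ∀ i ∈ H j, i.1 ∈ c.P)
    (hb : ∀ i ∈ R, ∀ t, |t| ≤ T → t ∈ c.near (1 / 4) i.1 i.2 →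
      ∑ j ∈ Finset.range m, c.cnt (d j) t (c.Y i.1 t) univ / d j ≤ κ + ∑ j ∈ Finset.range m,
        (∑ k ∈ (H j).filter (fun k => k.1 = i.1), (fun _ => (1 : ℝ)) k *
          ind (c.near (d j) k.1 k.2) t) / d j) :
    ∑ j ∈ Finset.range m, (∑ k ∈ R ×ˢ R, (mu T).real (c.near (1 / 4) k.1.1 k.1.2 ∩
        (c.near (1 / 4) k.2.1 k.2.2 ∩ c.near (d j) k.1.1 k.2.1))) / d j ≤
      κ * c.lam T (1 / 4) R (fun _ => 1) +
        ∑ j ∈ Finset.range m, c.lam T (d j) (H j) (fun _ => 1) / d j := by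
  have hm : ∀ j, ∀ k ∈ R ×ˢ R, MeasurableSet (c.near (1 / 4) k.1.1 k.1.2 ∩
      (c.near (1 / 4) k.2.1 k.2.2 ∩ c.near (d j) k.1.1 k.2.1)) := fun j k _ =>
    (measurable_near _ _ _).inter ((measurable_near _ _ _).inter (measurable_near _ _ _))
  have i1 : ∀ j, Integrable (fun t => (∑ k ∈ R ×ˢ R, 1 * ind (c.near (1 / 4) k.1.1 k.1.2 ∩
      (c.near (1 / 4) k.2.1 k.2.2 ∩ c.near (d j) k.1.1 k.2.1)) t) / d j) (mu T) := fun j =>
    (integrable_sum_ind _ _ _ (hm j)).div_const _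
  have i2 : ∀ (V : ℝ) (S : Finset (ι × ι)), Integrable (fun t => ∑ i ∈ S, (fun _ => (1 : ℝ)) i *
      ind (c.near V i.1 i.2) t) (mu T) := fun V S =>
    integrable_sum_ind _ _ _ fun i _ => measurable_near V i.1 i.2
  have e1 : ∀ j, (∑ k ∈ R ×ˢ R, (mu T).real (c.near (1 / 4) k.1.1 k.1.2 ∩
      (c.near (1 / 4) k.2.1 k.2.2 ∩ c.near (d j) k.1.1 k.2.1))) / d j =
      ∫ t, (∑ k ∈ R ×ˢ R, 1 * ind (c.near (1 / 4) k.1.1 k.1.2 ∩
      (c.near (1 / 4) k.2.1 k.2.2 ∩ c.near (d j) k.1.1 k.2.1)) t) / d j ∂mu T := by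
    intro j
    rw [integral_div, integral_sum_ind _ (fun _ => 1) _ (hm j)]
    simp
  simp only [e1, lam_eq_integral, ← integral_div]
  rw [← integral_const_mul, ← integral_finsetSum _ fun j _ => i1 j,
    ← integral_finsetSum _ fun j _ => (i2 (d j) (H j)).div_const _,
    ← integral_add ((i2 _ _).const_mul _)
      (integrable_finsetSum _ fun j _ => (i2 (d j) (H j)).div_const _)]
  apply integral_mono_ae (integrable_finsetSum _ fun j _ => i1 j) (((i2 _ _).const_mul _).add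
      (integrable_finsetSum _ fun j _ => (i2 (d j) (H j)).div_const _))
  filter_upwards [mu_ae T] with t ht
  simp only [Pi.add_apply]
  set G : ι → ℝ := fun p => ∑ j ∈ Finset.range m,
    (∑ k ∈ (H j).filter (fun k => k.1 = p), (fun _ => (1 : ℝ)) k *
      ind (c.near (d j) k.1 k.2) t) / d j with hG
  have hG0 : ∀ p, 0 ≤ G p := fun p => Finset.sum_nonneg fun j _ => div_nonneg
    (Finset.sum_nonneg fun k _ => mul_nonneg zero_le_one (ind_nonneg _ _)) (hd j).le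
  have s1 : ∀ j, ∑ k ∈ R ×ˢ R, 1 * ind (c.near (1 / 4) k.1.1 k.1.2 ∩
      (c.near (1 / 4) k.2.1 k.2.2 ∩ c.near (d j) k.1.1 k.2.1)) t ≤
      ∑ i ∈ R, ind (c.near (1 / 4) i.1 i.2) t * c.cnt (d j) t (c.Y i.1 t) univ := by
    intro j
    rw [Finset.sum_product]
    refine Finset.sum_le_sum fun i _ => ?_
    simp only [one_mul, ind_inter, ← Finset.mul_sum]
    apply mul_le_mul_of_nonneg_left _ (ind_nonneg _ _)
    refine le_trans ?_ (sum_ind_near (d j) t i.1)
    have := h.coll_sum R hR (fun i' => ind (c.near (d j) i.1 i'.1) t) t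
      (fun p => ind (c.near (d j) i.1 p) t) (fun _ _ => ind_nonneg _ _) (fun _ _ _ => le_rfl)
    refine le_trans (le_of_eq ?_) this
    exact Finset.sum_congr rfl fun _ _ => mul_comm _ _
  have s2 : ∑ i ∈ R, G i.1 * ind (c.near (1 / 4) i.1 i.2) t ≤ ∑ p ∈ c.P, G p :=
    h.coll_sum R hR (fun i => G i.1) t G (fun p _ => hG0 p) (fun _ _ _ => le_rfl)
  have s3 : ∑ p ∈ c.P, G p = ∑ j ∈ Finset.range m,
      (∑ i ∈ H j, (fun _ => (1 : ℝ)) i * ind (c.near (d j) i.1 i.2) t) / d j := by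
    rw [hG, Finset.sum_comm]
    refine Finset.sum_congr rfl fun j _ => ?_
    rw [← Finset.sum_div, Finset.sum_fiberwise_of_maps_to (g := fun i : ι × ι => i.1) (hH j)]
  calc _ ≤ ∑ j ∈ Finset.range m, (∑ i ∈ R, ind (c.near (1 / 4) i.1 i.2) t *
          c.cnt (d j) t (c.Y i.1 t) univ) / d j :=
        Finset.sum_le_sum fun j _ => div_le_div_of_nonneg_right (s1 j) (hd j).le
    _ = ∑ i ∈ R, ind (c.near (1 / 4) i.1 i.2) t *
          ∑ j ∈ Finset.range m, c.cnt (d j) t (c.Y i.1 t) univ / d j := by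
        simp only [Finset.sum_div, Finset.mul_sum]
        rw [Finset.sum_comm]
        refine Finset.sum_congr rfl fun _ _ => Finset.sum_congr rfl fun _ _ => ?_
        ring
    _ ≤ ∑ i ∈ R, (κ * (1 * ind (c.near (1 / 4) i.1 i.2) t) +
          G i.1 * ind (c.near (1 / 4) i.1 i.2) t) := by
        refine Finset.sum_le_sum fun i hi => ?_
        by_cases hti : t ∈ c.near (1 / 4) i.1 i.2
        · rw [ind_of_mem hti]
          have := hb i hi t ht hti
          simp only [one_mul, mul_one] at this ⊢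
          simpa only [hG, one_mul] using this
        · rw [ind_of_not hti]; simp
    _ ≤ _ := by
        rw [Finset.sum_add_distrib, ← Finset.mul_sum, ← s3]
        linarith

theorem exists_half {W t μ r G : ℝ} {p : ι} (hW : 0 ≤ W) (hμ : 0 < μ) (hr : 0 < r) (hG : 1 ≤ G)
    (h1 : μ ≤ c.M W p t r) (h2 : c.M W p t (r / G) < μ / 2) :
    ∃ r', 0 < r' ∧ c.M W p t r' < μ / 2 ∧ μ / 2 ≤ c.M W p t (2 * r') := by
  have hex : ∃ i : ℕ, c.M W p t (r / 2 ^ i) < μ / 2 := by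
    obtain ⟨i, hi⟩ := pow_unbounded_of_one_lt G (show (1 : ℝ) < 2 by norm_num)
    refine ⟨i, lt_of_le_of_lt (M_mono hW p t ?_) h2⟩
    gcongr
  have h3 := Nat.find_spec hex
  rcases hn : Nat.find hex with _ | n
  · rw [hn] at h3
    simp at h3
    linarith
  · rw [hn] at h3
    have h4 := Nat.find_min hex (show n < Nat.find hex by omega)
    refine ⟨r / 2 ^ (n + 1), by positivity, h3, ?_⟩
    rw [show 2 * (r / 2 ^ (n + 1)) = r / 2 ^ n by rw [pow_succ]; field_simp]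
    exact not_lt.mp h4

end Cfg

variable {ι : Type}

/-- The mass seen from a point does not jump within a bounded range of slope scales. -/
theorem NJ {μ ε : ℝ} (hμ : 0 < μ) (hε : 0 < ε) (hε1 : ε ≤ 1) : ∃ μ' : ℝ, 0 < μ' ∧ ∀ G, 1 ≤ G →
    ∀ᶠ W : ℝ in atTop, ∀ᶠ K : ℝ in atTop, ∀ (c : Cfg ι) (T : ℝ), c.Adm K T →
      c.palm T (fun p => {t | ∃ r, 0 < r ∧ μ ≤ c.M W p t r ∧ c.M W p t (r / G) < μ'}) ≤
        ε * T ^ 2 := by
  obtain ⟨δ, hδ, hδ1, hCB⟩ := CB (ι := ι) (show 0 < μ / 2 by positivity)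
    (show 0 < ε / 4 by positivity)
  obtain ⟨CU, hCU, hU1⟩ := U1 (ι := ι) (show 0 < μ / 8 by positivity)
  obtain ⟨CS, hCS, hSC⟩ := SC (ι := ι) (show 0 < μ / 2 by positivity)
  obtain ⟨θ, hθ⟩ : ∃ θ, θ = δ * ε / (2048 * CU) := ⟨_, rfl⟩
  have hθ0 : 0 < θ := by rw [hθ]; positivity
  have hθ2 : θ * (2048 * CU) = δ * ε := by rw [hθ]; field_simp
  have hθ1 : θ ≤ 1 := by
    have : δ * ε ≤ 1 := mul_le_one₀ hδ1 hε.le hε1
    nlinarith
  obtain ⟨Λ, hΛ⟩ : ∃ Λ, Λ = 320 * CS / (θ * ε) := ⟨_, rfl⟩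
  have hΛ2 : Λ * (θ * ε) = 320 * CS := by rw [hΛ]; field_simp
  have hΛ1 : 1 ≤ Λ := by
    rw [hΛ, le_div_iff₀ (by positivity)]
    have : θ * ε ≤ 1 := mul_le_one₀ hθ1 hε.le hε1
    linarith
  obtain ⟨B, hB⟩ : ∃ B, B = 10 ^ 7 * Λ / θ ^ 3 := ⟨_, rfl⟩
  have hB2 : B * θ ^ 3 = 10 ^ 7 * Λ := by rw [hB]; field_simp
  have hB0 : 0 < B := by rw [hB]; positivity
  have hB3 : 504 * Λ ≤ θ * B := by
    have k1 : θ ^ 2 ≤ 1 := pow_le_one₀ hθ0.le hθ1
    have k2 : B * θ ^ 3 ≤ θ * B := by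
      have := mul_le_mul_of_nonneg_left k1 (show 0 ≤ θ * B by positivity)
      linarith
    linarith
  have hB1 : 1 ≤ B := by nlinarith
  obtain ⟨m, hm⟩ : ∃ m : ℕ, 8 * (2 + 32 * B) / θ ≤ m := exists_nat_ge _
  have hm2 : 2 + 32 * B ≤ θ * m / 8 := by
    rw [div_le_iff₀ hθ0] at hm; linarith
  have hm0 : (0 : ℝ) < m := by
    by_contra hn
    have := mul_nonpos_of_nonneg_of_nonpos hθ0.le (not_lt.mp hn)
    linarith
  obtain ⟨V, hV⟩ : ∃ V : ℝ, V = 2 * 2 ^ m := ⟨_, rfl⟩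
  have hV2 : 2 ≤ V := by
    have : (1 : ℝ) ≤ 2 ^ m := one_le_pow₀ (by norm_num)
    linarith
  obtain ⟨ρ, hρ⟩ : ∃ ρ : ℝ, ρ = 1 / (16 * V) := ⟨_, rfl⟩
  have hρ0 : 0 < ρ := by rw [hρ]; positivity
  have hρV : 16 * V * ρ = 1 := by rw [hρ]; field_simp
  have hρ1 : ρ ≤ 1 / 32 := by nlinarith
  set d : ℕ → ℝ := fun j => 2 * 2 ^ j with hd
  have hd2 : ∀ j, 2 ≤ d j := fun j => by
    have : (1 : ℝ) ≤ 2 ^ j := one_le_pow₀ (by norm_num)
    simp only [hd]; linarith
  have hd0 : ∀ j, 0 < d j := fun j => by linarith [hd2 j]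
  have hdV : ∀ j ∈ Finset.range m, d j ≤ V := fun j hj => by
    have : (2 : ℝ) ^ j ≤ 2 ^ m :=
      pow_le_pow_right₀ (by norm_num) (Finset.mem_range.mp hj).le
    simp only [hd]; linarith
  set σ : ℕ → ℝ := fun j => 2 * ρ * d j / B with hσ
  have hσ0 : ∀ j, 0 < σ j := fun j => by have := hd0 j; simp only [hσ]; positivity
  obtain ⟨e0, he0⟩ : ∃ e0, e0 = Λ * (2 * ρ / B) := ⟨_, rfl⟩
  have he00 : 0 < e0 := by rw [he0]; positivity
  have he1 : ∀ j, e0 ≤ Λ * σ j / 2 := fun j => by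
    have k1 : 2 * ρ / B ≤ σ j / 2 := by
      simp only [hσ]
      rw [div_div, div_le_div_iff₀ hB0 (by positivity)]
      nlinarith [hd2 j, mul_pos hρ0 hB0]
    have := mul_le_mul_of_nonneg_left k1 (show 0 ≤ Λ by linarith)
    rw [he0]
    linarith
  have hσ1 : ∀ j ∈ Finset.range m, σ j ≤ 1 / 4 := fun j hj => by
    simp only [hσ]
    rw [div_le_iff₀ hB0]
    have := mul_le_mul_of_nonneg_left (hdV j hj) hρ0.le
    linarith
  obtain ⟨S, hS⟩ : ∃ S, S = θ * B / (8064 * Λ * ρ) := ⟨_, rfl⟩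
  have hSV : V ≤ S := by
    rw [hS, le_div_iff₀ (by positivity)]
    nlinarith
  have hSσ : ∀ j, 56 * (3 * (Λ * σ j)) * (3 * S) = θ / 8 * d j := fun j => by
    simp only [hσ, hS]; field_simp; ring
  refine ⟨min (μ / 2) (min (δ * ρ / 4) e0), lt_min (by positivity) (lt_min (by positivity) he00),
    fun G hG => ?_⟩
  set μ' := min (μ / 2) (min (δ * ρ / 4) e0) with hμ'
  have hμ1 : μ' ≤ μ / 2 := min_le_left _ _
  have hμ2 : μ' ≤ δ * ρ / 4 := (min_le_right _ _).trans (min_le_left _ _)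
  have hμ3 : μ' ≤ e0 := (min_le_right _ _).trans (min_le_right _ _)
  obtain ⟨V2, hV2', hPU⟩ := PU' (ι := ι) (show 0 < δ * ρ / 8 by positivity)
    (show 0 < ε / 4 by positivity)
  have evS := (Finset.range m).eventually_all.mpr fun j hj => hSC (1 / σ j) (by
    rw [le_div_iff₀ (hσ0 j)]; linarith [hσ1 j hj]) G hG (Λ * σ j) (by have := hσ0 j; positivity)
    (θ * ε / 320) (by positivity)
  have evH := (Finset.range m).eventually_all.mpr fun j (_ : j ∈ Finset.range m) =>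
    HL (ι := ι) (ζ := 3 * (Λ * σ j)) (S := 3 * S) (by have := hσ0 j; positivity) (by linarith)
  filter_upwards [hCB ρ hρ0 (by linarith), hU1 V (by linarith) (16 * ρ * CU) (by positivity), hPU,
    evS, evH, ev_div (2 * (G * (V2 + 1)) + 2) (show 0 < min (μ / 16) e0 from
      lt_min (by positivity) he00), ev_div (2 * V + 2) (show 0 < μ / 16 by positivity),
    ev_div (2 * (2 * S) + 2) he00, eventually_gt_atTop 0] with W k1 k2 k3 k4 k5 k6 k7 k8 hW
  filter_upwards [k1, k2, k3, (Finset.range m).eventually_all.mpr k4,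
    (Finset.range m).eventually_all.mpr k5, eventually_ge_atTop (2 * V2 + 1 / 4),
    eventually_ge_atTop (3 * S)] with K l1 l2 l3 l4 l5 l6 l7 c T hc
  have hT : 0 < T := hc.T_pos (by linarith)
  have hKT := hc.hK
  have hc2 : c.Adm K (2 * T) := hc.mono_T (by linarith)
  have hc4 : c.Adm K (2 * (2 * T)) := hc.mono_T (by linarith)
  have k6a := k6.trans (min_le_left _ _)
  have k6b := k6.trans (min_le_right _ _)
  by_contra hcon
  push Not at hcon
  -- the events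
  set Jmp : ι → Set ℝ := fun p =>
    {t | ∃ r, 0 < r ∧ μ ≤ c.M W p t r ∧ c.M W p t (r / G) < μ'} with hJmp
  set CBb : ι → Set ℝ := fun p =>
    {t | ∃ r, 0 < r ∧ μ / 2 ≤ c.M W p t r ∧ c.M W p t (ρ * r) < δ * ρ} with hCBb
  set Ev : ℕ → ι → Set ℝ := fun j p => {t | ∃ r' r, 0 < r' ∧
    μ / 2 ≤ c.M W p t r - c.M W p t r' ∧
    Λ * σ j ≤ c.M W p t (r' / (1 / σ j)) - c.M W p t (r / G)} with hEv
  set Lip : ι → Set ℝ := fun p => {t | θ * m / 40 ≤ ∑ j ∈ Finset.range m, ind (Ev j p) t} with hLip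
  set Good : ι → Set ℝ := fun p => {t | t ∈ Jmp p ∧ t ∉ CBb p ∧ t ∉ Lip p ∧
    t ∉ c.UP (δ * ρ / 8) V2 W p} with hGood
  have p1 : c.palm T Lip ≤ ε / 4 * T ^ 2 := by
    have a1 := Cfg.palm_markov (c := c) T (Finset.range m) Ev (N := θ * m / 40) (by positivity)
    have a2 : ∀ j ∈ Finset.range m, c.palm T (Ev j) ≤ θ * ε / 160 * T ^ 2 := by
      intro j hj
      refine (l4 j hj c T hc).trans (le_of_eq ?_)
      have := hσ0 j
      have e : CS / (1 / σ j * (Λ * σ j)) = θ * ε / 320 := by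
        rw [hΛ]; field_simp
      rw [e]; ring
    have a3 := a1.trans (Finset.sum_le_sum a2)
    simp only [Finset.sum_const, Finset.card_range, nsmul_eq_mul] at a3
    have e : (m : ℝ) * (θ * ε / 160 * T ^ 2) = θ * m / 40 * (ε / 4 * T ^ 2) := by ring
    rw [e] at a3
    exact le_of_mul_le_mul_left a3 (by positivity)
  have p2 : ε / 4 * T ^ 2 ≤ c.palm T Good := by
    have a1 := Cfg.palm_le_add (c := c) (T := T) (E := Jmp) (E1 := CBb)
      (E2 := fun p => {t | t ∈ Jmp p ∧ t ∉ CBb p}) (by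
        intro p _ t _ ht
        by_cases h : t ∈ CBb p
        · exact Or.inl h
        · exact Or.inr ⟨ht, h⟩)
    have a2 := Cfg.palm_le_add (c := c) (T := T) (E := fun p => {t | t ∈ Jmp p ∧ t ∉ CBb p})
      (E1 := Lip) (E2 := fun p => {t | t ∈ Jmp p ∧ t ∉ CBb p ∧ t ∉ Lip p}) (by
        intro p _ t _ ht
        by_cases h : t ∈ Lip p
        · exact Or.inl h
        · exact Or.inr ⟨ht.1, ht.2, h⟩)
    have a3 := Cfg.palm_le_add (c := c) (T := T)
      (E := fun p => {t | t ∈ Jmp p ∧ t ∉ CBb p ∧ t ∉ Lip p})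
      (E1 := c.UP (δ * ρ / 8) V2 W) (E2 := Good) (by
        intro p _ t _ ht
        by_cases h : t ∈ c.UP (δ * ρ / 8) V2 W p
        · exact Or.inl h
        · exact Or.inr ⟨ht.1, ht.2.1, ht.2.2, h⟩)
    have a4 := l1 c T hc
    have a5 := l3 c T hc
    linarith
  -- the apex pairs
  set R := (c.P ×ˢ c.P).filter (fun i : ι × ι => i.1 ≠ i.2 ∧ ∃ t, |t| ≤ T ∧
    t ∈ c.near V2 i.1 i.2 ∧ ∃ r' r, 0 < r' ∧ μ / 2 ≤ c.M W i.1 t r - c.M W i.1 t r' ∧
      r / G < |c.x i.2 - c.x i.1| ∧ |c.x i.2 - c.x i.1| ≤ ρ * (2 * r') ∧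
      ∃ Jb : Finset ℕ, (Jb.card : ℝ) ≤ θ * m / 40 ∧ ∀ j ∈ Finset.range m, j ∉ Jb →
        c.M W i.1 t (σ j * r') ≤ 3 / 2 * (Λ * σ j)) with hR
  have hrel : c.Rel V2 T R := by
    intro i hi
    obtain ⟨a1, a2, t, ht, a3, _⟩ := Finset.mem_filter.mp hi
    exact ⟨(Finset.mem_product.mp a1).1, (Finset.mem_product.mp a1).2, a2, t, ht, a3⟩
  have s1 := Cfg.palm_le_lam (c := c) (T := T) (V := V2) (N := V2 * (δ * ρ)) (by positivity)
    (R := R) (fun i hi => (hrel i hi).1) (w := fun _ => 1) (fun _ _ => zero_le_one) (E := Good) (by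
      rintro p hp t ht ⟨⟨r, a1, a2, a3⟩, a4, a5, a6⟩
      obtain ⟨r', b1, b2, b3⟩ := Cfg.exists_half hW.le hμ a1 hG a2 (a3.trans_le hμ1)
      have b4 : δ * ρ ≤ c.M W p t (ρ * (2 * r')) := by
        by_contra hn
        exact a4 ⟨2 * r', by positivity, b3, not_le.mp hn⟩
      have hδρ : 0 < δ * ρ := by positivity
      have b5 : r / G < ρ * (2 * r') := Cfg.lt_of_M_lt (c := c) (p := p) (t := t) hW.le (by linarith)
      have b6 := Cfg.ann_cnt (by linarith) b5.le a6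
      refine le_trans (le_trans (by nlinarith) b6) (Cfg.card_le_fiber R V2 t p _ fun q hq => ?_)
      rw [Cfg.mem_sel] at hq
      obtain ⟨q1, q2, q3, q4⟩ := hq
      have q5 : r / G < |c.x q - c.x p| := not_le.mp q4
      refine ⟨Finset.mem_filter.mpr ⟨Finset.mem_product.mpr ⟨hp, q1⟩,
        Cfg.ne_of_lt_abs (div_pos a1 (by linarith)).le q5, t, ht, q2, r', r, b1, by linarith,
        q5, q3, (Finset.range m).filter (fun j => t ∈ Ev j p), ?_, ?_⟩, q2⟩
      · have := le_sum_ind (Finset.range m) (fun j => Ev j p) t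
          ((Finset.range m).filter (fun j => t ∈ Ev j p)) (Finset.filter_subset _ _)
          (fun j hj => (Finset.mem_filter.mp hj).2)
        have a5' : ∑ j ∈ Finset.range m, ind (Ev j p) t < θ * m / 40 := not_le.mp a5
        linarith
      · intro j hj hj'
        have : t ∉ Ev j p := fun h => hj' (Finset.mem_filter.mpr ⟨hj, h⟩)
        have c1 : c.M W p t (r' / (1 / σ j)) - c.M W p t (r / G) < Λ * σ j := by
          by_contra hn
          exact this ⟨r', r, b1, by linarith, not_lt.mp hn⟩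
        rw [show r' / (1 / σ j) = σ j * r' by field_simp] at c1
        have := he1 j
        simp only
        linarith)
  have s2 := hc.lam_sweep (V := V2) (V' := 1 / 4) (by linarith) (by norm_num) l6 hrel
    (w := fun _ => 1) (fun _ _ => zero_le_one)
  set lam0 := c.lam (2 * T) (1 / 4) R (fun _ => 1) with hlam0
  have s3 : δ * ρ * ε / 16 * T ^ 2 ≤ lam0 := by
    have a1 := (mul_le_mul_of_nonneg_left p2 (show 0 ≤ V2 * (δ * ρ) by positivity)).trans
      (s1.trans s2)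
    have e1 : V2 * (δ * ρ) * (ε / 4 * T ^ 2) = 4 * V2 * (δ * ρ * ε / 16 * T ^ 2) := by ring
    have e2 : V2 / (1 / 4) * lam0 = 4 * V2 * lam0 := by ring
    rw [e1, e2] at a1
    exact le_of_mul_le_mul_left a1 (by positivity)
  -- properties at collision times
  have hap : ∀ i ∈ R, ∀ t' ∈ c.near (1 / 4) i.1 i.2, ∃ r' r, 0 < r' ∧ r' ≤ r ∧
      μ / 2 - μ / 16 ≤ c.dens W t' (c.Y i.1 t') (c.cb i.1 r \ c.cb i.1 r') ∧
      |c.x i.2 - c.x i.1| ≤ ρ * (2 * r') ∧
      ∃ Jb : Finset ℕ, (Jb.card : ℝ) ≤ θ * m / 40 ∧ ∀ j ∈ Finset.range m, j ∉ Jb →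
        c.M W i.1 t' (σ j * r') ≤ 2 * (Λ * σ j) := by
    intro i hi t' ht'
    obtain ⟨_, _, t, _, a3, r', r, a4, a5, a6, a7, Jb, a8, a9⟩ := Finset.mem_filter.mp hi
    have b1 : r' < r := Cfg.lt_of_M_lt (c := c) (p := i.1) (t := t) hW.le (by linarith)
    have b2 := Cfg.time_shift a3 ht'
    have b3 : |t - t'| * r ≤ G * (V2 + 1) := by
      rw [div_lt_iff₀ (by linarith)] at a6
      have := mul_le_mul_of_nonneg_left a6.le (abs_nonneg (t - t'))
      nlinarith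
    have b4 := hc.h3.dens_time hW (by positivity) i.1 t t' (c.cb i.1 r \ c.cb i.1 r')
      sdiff_subset b3
    rw [Cfg.dens_diff (Cfg.cb_mono _ b1.le)] at b4
    refine ⟨r', r, a4, b1.le, ?_, a7, Jb, a8, fun j hj hj' => ?_⟩
    · unfold Cfg.M at a5
      linarith
    · have c1 : |t' - t| * (σ j * r') ≤ G * (V2 + 1) := by
        rw [abs_sub_comm]
        refine le_trans (mul_le_mul_of_nonneg_left ?_ (abs_nonneg _)) b3
        have := mul_le_mul_of_nonneg_right (hσ1 j hj) a4.le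
        linarith
      have := hc.h3.M_time hW (by positivity) i.1 t' t c1
      linarith [a9 j hj hj', he1 j]
  have harea : (bx (2 * T)).real (c.UB (μ / 8) V W) ≤ 128 * CU * ρ * T ^ 2 := by
    refine (l2 c (2 * T) hc2).trans (le_of_eq ?_)
    have : CU / V = 16 * ρ * CU := by rw [hρ]; field_simp
    rw [this]; ring
  have s4 : ∀ j ∈ Finset.range m, θ * lam0 ≤ (∑ k ∈ R ×ˢ R, (mu (2 * T)).real
      (c.near (1 / 4) k.1.1 k.1.2 ∩ (c.near (1 / 4) k.2.1 k.2.2 ∩ c.near (d j) k.1.1 k.2.1))) /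
      d j := by
    intro j hj
    have a1 := hc2.energy (d := d j) (x := θ * d j) (hd0 j) (by linarith [hdV j hj])
      (by have := hd0 j; positivity) R (fun i hi => (hrel i hi).1) (c.UB (μ / 8) V W) (by
        intro i hi t s _ ht hs
        obtain ⟨r', r, b1, b2, b3, b4, _⟩ := hap i hi t ht
        have hs' : |c.Y i.1 t - s| ≤ V := by linarith [hdV j hj, hd0 j]
        have b5 := hc.h3.dens_shift hW t _ _ (c.cb i.1 r \ c.cb i.1 r') hs'
        rw [Cfg.dens_diff (Cfg.cb_mono _ b2) (s := s)] at b5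
        exact hc.h3.coll_ubad (hrel i hi).1 (hrel i hi).2.1 (hrel i hi).2.2.1 ht b4 (by positivity)
          (r' := r') (by nlinarith) (e := V) (le_of_eq (by linear_combination r' * hρV)) hs'
          (Cfg.cb_ord _ r) (Cfg.cb_mono _ b2) (by linarith))
    rw [← hlam0] at a1
    have a2 : θ * (bx (2 * T)).real (c.UB (μ / 8) V W) ≤ lam0 := by
      refine (mul_le_mul_of_nonneg_left harea hθ0.le).trans (le_trans (le_of_eq ?_) s3)
      linear_combination (ρ * T ^ 2 / 16) * hθ2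
    have a3 := mul_le_mul_of_nonneg_left a2 (show 0 ≤ θ * d j ^ 2 by positivity)
    rw [le_div_iff₀ (hd0 j)]
    have a4 : d j * (θ * lam0 * d j) ≤ d j * ∑ k ∈ R ×ˢ R, (mu (2 * T)).real
      (c.near (1 / 4) k.1.1 k.1.2 ∩ (c.near (1 / 4) k.2.1 k.2.2 ∩ c.near (d j) k.1.1 k.2.1)) := by
      linarith
    exact le_of_mul_le_mul_left a4 (hd0 j)
  set H : ℕ → Finset (ι × ι) := fun j => (c.P ×ˢ c.P).filter (fun i : ι × ι => i.1 ≠ i.2 ∧
    ∃ t, |t| ≤ 2 * T ∧ t ∈ c.near (d j) i.1 i.2 ∧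
      θ / 8 * d j ≤ c.cnt (d j) t (c.Y i.1 t) (c.cb i.1 |c.x i.2 - c.x i.1|) ∧
      c.M W i.1 t |c.x i.2 - c.x i.1| ≤ 2 * (Λ * σ j)) with hH
  have hHrel : ∀ j, c.Rel (d j) (2 * T) (H j) := by
    intro j i hi
    obtain ⟨a1, a2, t, ht, a3, _⟩ := Finset.mem_filter.mp hi
    exact ⟨(Finset.mem_product.mp a1).1, (Finset.mem_product.mp a1).2, a2, t, ht, a3⟩
  have s5 := hc.h3.apex_total (2 * T) (3 * θ * m / 8) R
    (fun i hi => ⟨(hrel i hi).1, (hrel i hi).2.1, (hrel i hi).2.2.1⟩) m d hd0 H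
    (fun j i hi => (hHrel j i hi).1) (by
      intro i hi t ht hti
      obtain ⟨r', r, b1, _, _, b4, Jb, b5, b6⟩ := hap i hi t hti
      have a1 := hc.h3.apex (hrel i hi).1 (hrel i hi).2.1 (hrel i hi).2.2.1 (u := ρ * (2 * r'))
        (B := B) (W := W) (θ0 := θ / 8) (by positivity) hB0 hW.le (by positivity) hti b4 m Jb
        (fun j => 2 * (Λ * σ j)) (fun j => ∑ k ∈ (H j).filter (fun k => k.1 = i.1),
          (fun _ => (1 : ℝ)) k * ind (c.near (d j) k.1 k.2) t) (by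
          intro j hj hj'
          have := b6 j hj hj'
          rwa [show σ j * r' = ρ * (2 * r') * (2 * 2 ^ j) / B by simp only [hσ, hd]; ring] at this)
        (by
          intro j _ Q hQ
          apply Cfg.card_le_fiber
          intro q hq
          obtain ⟨q1, q2, q3, q4, q5⟩ := hQ q hq
          exact ⟨Finset.mem_filter.mpr ⟨Finset.mem_product.mpr ⟨(hrel i hi).1, q1⟩, q2, t, ht, q3,
            q4, q5⟩, q3⟩)
      refine a1.trans ?_
      have : 5 * (Jb.card : ℝ) + 2 + 32 * B + m * (θ / 8) ≤ 3 * θ * m / 8 := by linarith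
      simp only [hd]
      linarith)
  have s6 : ∀ j ∈ Finset.range m, c.lam (2 * T) (d j) (H j) (fun _ => 1) / d j ≤
      80000 * T ^ 2 / S := by
    intro j hj
    have hdS : d j ≤ S := (hdV j hj).trans hSV
    have a1 := hc2.lam_sweep (V := d j) (V' := S) (hd0 j).le (by linarith) (by linarith) (hHrel j)
      (w := fun _ => 1) (fun _ _ => zero_le_one)
    have a2 := l5 j hj c _ hc4 (H j) S (by linarith) (by
      intro i hi
      obtain ⟨b1, _, t, _, b3, b4, b5⟩ := Finset.mem_filter.mp hi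
      refine ⟨(Finset.mem_product.mp b1).1, (Finset.mem_product.mp b1).2, fun t' _ ht' => ?_⟩
      have b6 := Cfg.time_shift ht' b3
      constructor
      · rw [hSσ j]
        refine b4.trans (Cfg.cnt_mono fun z _ z1 z2 => ⟨?_, z2⟩)
        have z3 : |c.x z - c.x i.1| ≤ |c.x i.2 - c.x i.1| := z2
        rw [Cfg.Y_sub i.1 z t t']
        refine (abs_sub _ _).trans ?_
        rw [abs_mul]
        have := mul_le_mul_of_nonneg_left z3 (abs_nonneg (t' - t))
        linarith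
      · have := hc.h3.M_time hW (e := 2 * S) (by linarith) i.1 t' t
          (r := |c.x i.2 - c.x i.1|) (by linarith)
        have h2 := he1 j
        have h3 : 0 < Λ * σ j := by have := hσ0 j; positivity
        linarith)
    have hS0 : 0 < S := by linarith
    rw [div_le_iff₀ (hd0 j)]
    refine a1.trans ((mul_le_mul_of_nonneg_left a2 (div_nonneg (hd0 j).le hS0.le)).trans
      (le_of_eq ?_))
    field_simp; ring
  have s7 := (Finset.sum_le_sum s4).trans (s5.trans (add_le_add_right (Finset.sum_le_sum s6) _))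
  simp only [Finset.sum_const, Finset.card_range, nsmul_eq_mul] at s7
  rw [← hlam0] at s7
  have s8 : 5 / 8 * θ * lam0 ≤ 80000 * T ^ 2 / S := by
    have : m * (5 / 8 * θ * lam0) ≤ m * (80000 * T ^ 2 / S) := by linarith
    exact le_of_mul_le_mul_left this hm0
  have s9 : 128 * θ * ρ * T ^ 2 ≤ lam0 := by
    refine le_trans ?_ s3
    have : δ * ρ * ε / 16 * T ^ 2 = 128 * θ * ρ * T ^ 2 * CU := by
      linear_combination (-(ρ * T ^ 2 / 16)) * hθ2
    rw [this]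
    exact le_mul_of_one_le_right (by positivity) hCU
  have e : 80000 * T ^ 2 / S = 64.512 * θ ^ 2 * ρ * T ^ 2 := by
    rw [hS, hB]; field_simp; ring
  rw [e] at s8
  have := mul_le_mul_of_nonneg_left s9 (show 0 ≤ 5 / 8 * θ by positivity)
  have : 0 < θ ^ 2 * ρ * T ^ 2 := by positivity
  nlinarith

end Pool.Agent.Lib.MP_dd58da_co
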