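import Pool.Agent.Lib.MP_dd58da_co.L2

set_option autoImplicit false

open MeasureTheory Set Filter
open scoped Classical

namespace Pool.Agent.Lib.MP_dd58da_co

theorem sum_pairs_le {ι β : Type} (P : Finset ι) (R : Finset (ι × ι)) (hR : ∀ i ∈ R, i.1 ∈ P)
    (F : ι × ι → Set β) (t : β) (b : ι → ℝ)
    (h : ∀ p ∈ P, ∀ Q : Finset ι, (∀ q ∈ Q, (p, q) ∈ R ∧ t ∈ F (p, q)) → (Q.card : ℝ) ≤ b p) :
    ∑ i ∈ R, ind (F i) t ≤ ∑ p ∈ P, b p := by
  rw [← Finset.sum_fiberwise_of_maps_to (g := fun i : ι × ι => i.1) hR]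
  refine Finset.sum_le_sum fun p hp => ?_
  apply sum_ind_le
  intro S hS hF
  have h1 : ∀ i ∈ S, i.1 = p := fun i hi => (Finset.mem_filter.mp (hS hi)).2
  have h2 : (S.image Prod.snd).card = S.card := by
    apply Finset.card_image_of_injOn
    intro i hi j hj hij
    exact Prod.ext ((h1 i hi).trans (h1 j hj).symm) hij
  rw [← h2]
  apply h p hp
  intro q hq
  obtain ⟨i, hi, rfl⟩ := Finset.mem_image.mp hq
  have : (p, i.2) = i := by rw [← h1 i hi]
  rw [this]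
  exact ⟨(Finset.mem_filter.mp (hS hi)).1, hF i hi⟩

theorem le_sum_fiber {ι β : Type} (R : Finset (ι × ι)) (F : ι × ι → Set β) (t : β)
    (w : ι × ι → ℝ) (hw : ∀ i ∈ R, 0 ≤ w i) (p : ι) (Q : Finset ι)
    (h : ∀ q ∈ Q, (p, q) ∈ R ∧ t ∈ F (p, q)) :
    ∑ q ∈ Q, w (p, q) ≤ ∑ i ∈ R.filter (fun i => i.1 = p), w i * ind (F i) t := by
  have e : ∑ q ∈ Q, w (p, q) = ∑ i ∈ Q.image (Prod.mk p), w i * ind (F i) t := by
    rw [Finset.sum_image (fun a _ b _ hab => (Prod.ext_iff.mp hab).2)]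
    refine Finset.sum_congr rfl fun q hq => ?_
    rw [ind_of_mem (h q hq).2, mul_one]
  rw [e]
  apply Finset.sum_le_sum_of_subset_of_nonneg
  · intro i hi
    obtain ⟨q, hq, rfl⟩ := Finset.mem_image.mp hi
    exact Finset.mem_filter.mpr ⟨(h q hq).1, rfl⟩
  · intro i hi _
    exact mul_nonneg (hw i (Finset.mem_filter.mp hi).1) (ind_nonneg _ _)

theorem sum_block_range (r Z n : ℕ) :
    ∑ a ∈ Finset.range n, ind {a : ℕ | r ≤ a ∧ a < r + Z} a = ((min n (r + Z) - r : ℕ) : ℝ) := by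
  have e : ∀ a : ℕ, ind {a : ℕ | r ≤ a ∧ a < r + Z} a =
      if a ∈ Finset.Ico r (r + Z) then 1 else 0 := by
    intro a
    by_cases h : a ∈ Finset.Ico r (r + Z)
    · rw [if_pos h, ind_of_mem]
      exact Finset.mem_Ico.mp h
    · rw [if_neg h, ind_of_not]
      exact fun h' => h (Finset.mem_Ico.mpr h')
  simp only [e]
  rw [Finset.sum_boole]
  have : (Finset.range n).filter (fun a => a ∈ Finset.Ico r (r + Z)) =
      Finset.Ico r (min n (r + Z)) := by
    ext a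
    simp only [Finset.mem_filter, Finset.mem_range, Finset.mem_Ico]
    omega
  rw [this, Nat.card_Ico]

namespace Cfg

variable {ι : Type} {c : Cfg ι}

theorem blk_ord (Kw : ℝ) (Z : ℕ) (t s : ℝ) (a : ℕ) : (c.blk Kw Z t s a).OrdConnected := by
  refine ⟨fun u hu v hv w hw => ?_⟩
  have h1 := Rk_mono (c := c) Kw t s hw.1
  have h2 := Rk_mono (c := c) Kw t s hw.2
  have := hu.2
  have := hv.1
  constructor <;> omega

variable (c) in
/-- The points of the window have distinct slopes. -/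
def Inj (Kw t s : ℝ) : Prop :=
  ∀ p ∈ c.P, ∀ q ∈ c.P, |c.Y p t - s| ≤ Kw → |c.Y q t - s| ≤ Kw → c.x p = c.x q → p = q

theorem Adm.inj {K T Kw : ℝ} (hc : c.Adm K T) (h0 : 0 ≤ Kw) (hK : 2 * Kw < K) {t : ℝ}
    (ht : |t| ≤ T) (s : ℝ) : c.Inj Kw t s := by
  intro p hp q hq h1 h2 hx
  by_contra hne
  apply hc.dx_ne (V := 2 * Kw) (by linarith) hK hp hq hne ht
  · show |c.Y q t - c.Y p t| ≤ 2 * Kw
    rw [abs_le] at h1 h2 ⊢
    constructor <;> linarith [h1.1, h1.2, h2.1, h2.2]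
  · rw [hx, sub_self]

theorem Rk_lt {Kw t s u : ℝ} {p : ι} (hp : p ∈ c.P) (hw : |c.Y p t - s| ≤ Kw) (h : u < c.x p) :
    c.Rk Kw t s u < c.Rk Kw t s (c.x p) := by
  apply Finset.card_lt_card
  refine ⟨fun z hz => ?_, fun hs => ?_⟩
  · rw [mem_sel] at hz ⊢
    exact ⟨hz.1, hz.2.1, le_trans hz.2.2 h.le⟩
  · have := (mem_sel.mp (hs (mem_sel.mpr ⟨hp, hw, mem_Iic.mpr le_rfl⟩))).2.2
    exact absurd (mem_Iic.mp this) (not_le.mpr h)

theorem Inj.cnt_blk {Kw t s : ℝ} (h : c.Inj Kw t s) (Z a : ℕ) :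
    c.cnt Kw t s (c.blk Kw Z t s a) ≤ Z := by
  have : (c.sel Kw t s (c.blk Kw Z t s a)).card ≤ (Finset.Icc (a + 1 - Z) a).card := by
    apply Finset.card_le_card_of_injOn (fun p => c.Rk Kw t s (c.x p))
    · intro p hp
      have := (mem_sel.mp hp).2.2
      have h1 := this.1
      have h2 := this.2
      simp only [Finset.coe_Icc, mem_Icc]
      omega
    · intro p hp q hq hpq
      have hp' := mem_sel.mp hp
      have hq' := mem_sel.mp hq
      apply h p hp'.1 q hq'.1 hp'.2.1 hq'.2.1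
      simp only at hpq
      rcases lt_trichotomy (c.x p) (c.x q) with h1 | h1 | h1
      · have := Rk_lt hq'.1 hq'.2.1 h1; omega
      · exact h1
      · have := Rk_lt hp'.1 hp'.2.1 h1; omega
  rw [Nat.card_Icc] at this
  unfold cnt
  exact_mod_cast (by omega)

theorem mem_lower {Kw t s : ℝ} {L : Set ℝ} (hL : IsLowerSet L) {p : ι} (hp : p ∈ c.P)
    (hw : |c.Y p t - s| ≤ Kw) :
    c.x p ∈ L ↔ c.Rk Kw t s (c.x p) ≤ (c.sel Kw t s L).card := by
  constructor
  · intro h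
    apply Finset.card_le_card
    intro z hz
    rw [mem_sel] at hz ⊢
    exact ⟨hz.1, hz.2.1, hL hz.2.2 h⟩
  · intro h
    by_contra hn
    apply absurd h
    rw [not_le]
    apply Finset.card_lt_card
    refine ⟨fun z hz => ?_, fun hs => ?_⟩
    · rw [mem_sel] at hz ⊢
      refine ⟨hz.1, hz.2.1, ?_⟩
      by_contra hc
      exact hn (hL (not_le.mp hc).le hz.2.2)
    · exact hn (mem_sel.mp (hs (mem_sel.mpr ⟨hp, hw, mem_Iic.mpr le_rfl⟩))).2.2

theorem sum_gamma {V W Kw t s : ℝ} (hV : 0 ≤ V) (hW : 0 ≤ W) (Z a : ℕ) (γ : ι → ℝ)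
    (h0 : ∀ p, 0 ≤ γ p) (h1 : ∀ p, γ p ≤ Z * ind (c.blk Kw Z t s a) (c.x p)) :
    -(Z * c.dens W t s (c.blk Kw Z t s a)) ≤ ∑ p ∈ c.P, γ p * c.ps V W p (t, s) := by
  rw [dens_eq_sum, Finset.mul_sum, ← Finset.sum_neg_distrib]
  refine Finset.sum_le_sum fun p _ => ?_
  have a1 := phi_nonneg hV (c.Y p t - s)
  have a2 := phi_nonneg hW (c.Y p t - s)
  have a3 := mul_nonneg (h0 p) a1
  have a4 := mul_le_mul_of_nonneg_right (h1 p) a2
  simp only [ps, psi]
  nlinarith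

theorem sum_fa (V W Kw : ℝ) (Z : ℕ) (t s : ℝ) (n : ℕ) :
    ∑ a ∈ Finset.range n, c.fa V W Kw Z t s a = ∑ p ∈ c.P,
      ((min n (c.Rk Kw t s (c.x p) + Z) - c.Rk Kw t s (c.x p) : ℕ) : ℝ) * c.ps V W p (t, s) := by
  unfold fa
  simp only [dens_sub_eq]
  rw [Finset.sum_comm]
  refine Finset.sum_congr rfl fun p _ => ?_
  rw [← Finset.sum_mul, ← sum_block_range]
  rfl

theorem abs_sum_fa (V W Kw : ℝ) (Z : ℕ) (t s : ℝ) {n : ℕ} {N : ℝ} (hn : n ≤ c.P.card + Z + 1)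
    (hN : (n : ℝ) ≤ N) :
    |∑ a ∈ Finset.range n, c.fa V W Kw Z t s a| ≤ √(N * c.En V W Kw Z (t, s)) := by
  apply Real.abs_le_sqrt
  have h1 := sq_sum_le_card_mul_sum_sq (s := Finset.range n) (f := fun a => c.fa V W Kw Z t s a)
  rw [Finset.card_range] at h1
  have h2 : ∑ a ∈ Finset.range n, c.fa V W Kw Z t s a ^ 2 ≤ c.En V W Kw Z (t, s) :=
    Finset.sum_le_sum_of_subset_of_nonneg (Finset.range_mono hn) fun _ _ _ => sq_nonneg _
  exact h1.trans (mul_le_mul hN h2 (Finset.sum_nonneg fun _ _ => sq_nonneg _)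
    ((Nat.cast_nonneg _).trans hN))

theorem H3.lower_bound (h : c.H3) {V W Kw t s β : ℝ} (hV : 0 < V) (hVW : V ≤ W) (hWK : W ≤ Kw)
    (Z : ℕ) (hβ : ∀ a, c.dens W t s (c.blk Kw Z t s a) ≤ β) {L : Set ℝ} (hL : IsLowerSet L) :
    Z * |c.dens V t s L - c.dens W t s L| ≤
      Z * β + √((4 * Kw + 3 + Z) * c.En V W Kw Z (t, s)) := by
  have hZ : (0 : ℝ) ≤ Z := Nat.cast_nonneg _
  set b := (c.sel Kw t s L).card with hb
  have hb1 : b ≤ c.P.card := Finset.card_le_card (Finset.filter_subset _ _)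
  have hb2 : (b : ℝ) ≤ 4 * Kw + 2 := h.cnt_le (by linarith) t s L
  have e : c.dens V t s L - c.dens W t s L =
      ∑ p ∈ c.P, (if c.Rk Kw t s (c.x p) ≤ b then 1 else 0) * c.ps V W p (t, s) := by
    rw [dens_sub_eq]
    refine Finset.sum_congr rfl fun p hp => ?_
    by_cases h0 : c.ps V W p (t, s) = 0
    · rw [h0, mul_zero, mul_zero]
    · have := mem_lower (Kw := Kw) hL hp ((psi_supp hVW h0).trans hWK)
      by_cases h1 : c.x p ∈ L
      · rw [ind_of_mem h1, if_pos (this.mp h1)]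
      · rw [ind_of_not h1, if_neg (fun h2 => h1 (this.mpr h2))]
  have g1 := abs_le.mp (abs_sum_fa (c := c) V W Kw Z t s (n := b + 1) (N := 4 * Kw + 3 + Z)
    (by omega) (by push_cast; linarith))
  have g2 := abs_le.mp (abs_sum_fa (c := c) V W Kw Z t s (n := b + Z + 1) (N := 4 * Kw + 3 + Z)
    (by omega) (by push_cast; linarith))
  rw [sum_fa] at g1 g2
  have k1 := sum_gamma (c := c) (V := V) (W := W) (Kw := Kw) (t := t) (s := s) hV.le
    (by linarith) Z b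
    (fun p => Z * (if c.Rk Kw t s (c.x p) ≤ b then 1 else 0) -
      ((min (b + 1) (c.Rk Kw t s (c.x p) + Z) - c.Rk Kw t s (c.x p) : ℕ) : ℝ))
    (by
      intro p
      split_ifs with h1
      · rw [mul_one, sub_nonneg]; exact_mod_cast (by omega)
      · rw [mul_zero, sub_nonneg]; exact_mod_cast (by omega))
    (by
      intro p
      by_cases h2 : c.x p ∈ c.blk Kw Z t s b
      · rw [ind_of_mem h2, if_pos h2.1]
        linarith [Nat.cast_nonneg (α := ℝ)
          (min (b + 1) (c.Rk Kw t s (c.x p) + Z) - c.Rk Kw t s (c.x p))]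
      · rw [ind_of_not h2, mul_zero]
        simp only [blk, mem_ofPred_eq, not_and, not_lt] at h2
        split_ifs with h1
        · have := h2 h1
          rw [mul_one, sub_nonpos]; exact_mod_cast (by omega)
        · simp)
  have k2 := sum_gamma (c := c) (V := V) (W := W) (Kw := Kw) (t := t) (s := s) hV.le
    (by linarith) Z (b + Z)
    (fun p => ((min (b + Z + 1) (c.Rk Kw t s (c.x p) + Z) - c.Rk Kw t s (c.x p) : ℕ) : ℝ) -
      Z * (if c.Rk Kw t s (c.x p) ≤ b then 1 else 0))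
    (by
      intro p
      split_ifs with h1
      · rw [mul_one, sub_nonneg]; exact_mod_cast (by omega)
      · simp)
    (by
      intro p
      by_cases h2 : c.x p ∈ c.blk Kw Z t s (b + Z)
      · rw [ind_of_mem h2, mul_one]
        have : ((min (b + Z + 1) (c.Rk Kw t s (c.x p) + Z) - c.Rk Kw t s (c.x p) : ℕ) : ℝ) ≤ Z := by
          exact_mod_cast (by omega)
        have : 0 ≤ (Z : ℝ) * (if c.Rk Kw t s (c.x p) ≤ b then 1 else 0) := by
          split_ifs <;> simp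
        linarith
      · rw [ind_of_not h2, mul_zero]
        simp only [blk, mem_ofPred_eq, not_and, not_lt] at h2
        split_ifs with h1
        · rw [mul_one, sub_nonpos]; exact_mod_cast (by omega)
        · rw [mul_zero, sub_zero]
          have : min (b + Z + 1) (c.Rk Kw t s (c.x p) + Z) - c.Rk Kw t s (c.x p) = 0 := by
            by_cases h3 : c.Rk Kw t s (c.x p) ≤ b + Z
            · have := h2 h3; omega
            · omega
          rw [this]; simp)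
  simp only [sub_mul, Finset.sum_sub_distrib, mul_assoc, ← Finset.mul_sum] at k1 k2
  rw [← e] at k1 k2
  have m1 := mul_le_mul_of_nonneg_left (hβ b) hZ
  have m2 := mul_le_mul_of_nonneg_left (hβ (b + Z)) hZ
  rw [← abs_of_nonneg hZ, ← abs_mul, abs_of_nonneg hZ, abs_le]
  constructor <;> linarith [g1.1, g1.2, g2.1, g2.2]

theorem H3.D1 (h : c.H3) {V W Kw t s ε : ℝ} (hε : 0 < ε) (hV : 0 < V) (hVW : V ≤ W)
    (hWK : W ≤ Kw) (Z : ℕ) (hβ : ∀ a, c.dens W t s (c.blk Kw Z t s a) ≤ ε / 4)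
    (hU : c.Ubad ε V W t s) :
    ε ^ 2 * Z ^ 2 / 16 ≤ (4 * Kw + 3 + Z) * c.En V W Kw Z (t, s) := by
  have hZ : (0 : ℝ) ≤ Z := Nat.cast_nonneg _
  obtain ⟨I, hI, hU⟩ := hU
  set L2 : Set ℝ := {u | ∃ v ∈ I, u ≤ v} with hL2
  have l2 : IsLowerSet L2 := fun a b hab ⟨v, hv, hav⟩ => ⟨v, hv, hab.trans hav⟩
  have l1 : IsLowerSet (L2 \ I) := by
    rintro a b hab ⟨⟨v, hv, hav⟩, ha⟩
    exact ⟨⟨v, hv, hab.trans hav⟩, fun hb => ha (hI.out hb hv ⟨hab, hav⟩)⟩
  have eI : L2 \ (L2 \ I) = I := by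
    rw [Set.sdiff_sdiff_right_self]
    exact inter_eq_right.mpr fun u hu => ⟨u, hu, le_rfl⟩
  have b2 := h.lower_bound hV hVW hWK Z hβ l2
  have b1 := h.lower_bound hV hVW hWK Z hβ l1
  have d1 := dens_diff (c := c) (W := V) (t := t) (s := s) (I := L2) (J := L2 \ I) sdiff_subset
  have d2 := dens_diff (c := c) (W := W) (t := t) (s := s) (I := L2) (J := L2 \ I) sdiff_subset
  rw [eI] at d1 d2
  have t1 : |c.dens V t s I - c.dens W t s I| ≤ |c.dens V t s L2 - c.dens W t s L2| +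
      |c.dens V t s (L2 \ I) - c.dens W t s (L2 \ I)| := by
    rw [d1, d2]
    refine le_trans (le_of_eq ?_) (abs_sub _ _)
    congr 1; ring
  have t2 := mul_le_mul_of_nonneg_left (hU.le.trans t1) hZ
  have t3 : ε * Z / 4 ≤ √((4 * Kw + 3 + Z) * c.En V W Kw Z (t, s)) := by linarith
  have t4 := Real.le_sqrt' (x := ε * Z / 4) (y := (4 * Kw + 3 + Z) * c.En V W Kw Z (t, s))
  have t5 : 0 ≤ (4 * Kw + 3 + Z) * c.En V W Kw Z (t, s) :=
    mul_nonneg (by linarith) (En_nonneg _ _ _ _ _)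
  have t6 := pow_le_pow_left₀ (by positivity) t3 2
  rw [Real.sq_sqrt t5] at t6
  linarith

end Cfg

end Pool.Agent.Lib.MP_dd58da_co
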