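import Pool.Agent.Lib.MP_dd58da_co.Final

set_option autoImplicit false

open MeasureTheory Set Filter
open scoped Classical

namespace Pool.Agent.Lib.MP_dd58da_co

theorem energy1 {ι : Type} (S : Finset ι) (f : ι → ℝ) {d x T : ℝ} (hd : 0 < d) (hT : 0 ≤ T)
    (hf : ∀ a ∈ S, |f a| + d / 2 ≤ T) :
    2 * x * d * S.card ≤ d * ∑ k ∈ S ×ˢ S, ind (Iic d) |f k.2 - f k.1| + x ^ 2 * (2 * T) := by
  set F : ι → Set ℝ := fun a => {s | |f a - s| ≤ d / 2} with hF
  have hm : ∀ a, MeasurableSet (F a) := fun a => measurableSet_le (by fun_prop) measurable_const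
  have i1 := integrable_sum_ind (μ := mu T) S (fun _ => 2 * x) F fun a _ => hm a
  have i2 := integrable_sum_ind (μ := mu T) (S ×ˢ S) (fun _ => 1) (fun k => F k.1 ∩ F k.2)
    fun k _ => (hm k.1).inter (hm k.2)
  have s1 := integral_mono i1 (i2.add (integrable_const (x ^ 2))) (by
    intro s
    simp only [Pi.add_apply, one_mul, ind_inter, ← Finset.mul_sum]
    rw [Finset.sum_product' (f := fun i j => ind (F i) s * ind (F j) s), ← Finset.sum_mul_sum]
    nlinarith [sq_nonneg (∑ i ∈ S, ind (F i) s - x)])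
  simp only [Pi.add_apply] at s1
  rw [integral_add i2 (integrable_const _), integral_const_mu hT,
    integral_sum_ind S (fun _ => 2 * x) F fun a _ => hm a,
    integral_sum_ind (S ×ˢ S) (fun _ => 1) (fun k => F k.1 ∩ F k.2)
      fun k _ => (hm k.1).inter (hm k.2)] at s1
  have s2 : ∑ a ∈ S, 2 * x * (mu T).real (F a) = 2 * x * d * S.card := by
    rw [Finset.sum_congr rfl (g := fun _ => 2 * x * d) fun a ha => by
      rw [hF, mu_window_eq (by linarith) (hf a ha)]; ring]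
    simp only [Finset.sum_const, nsmul_eq_mul]
    ring
  have s3 : ∑ k ∈ S ×ˢ S, 1 * (mu T).real (F k.1 ∩ F k.2) ≤
      d * ∑ k ∈ S ×ˢ S, ind (Iic d) |f k.2 - f k.1| := by
    rw [Finset.mul_sum]
    refine Finset.sum_le_sum fun k _ => ?_
    by_cases h : |f k.2 - f k.1| ∈ Iic d
    · rw [ind_of_mem h]
      have := (measureReal_mono (μ := mu T) (inter_subset_left (s := F k.1) (t := F k.2))).trans
        (mu_window_le T (f k.1) (h := d / 2) (by linarith))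
      linarith
    · have : F k.1 ∩ F k.2 = ∅ := by
        rw [eq_empty_iff_forall_notMem]
        rintro s ⟨h1, h2⟩
        apply h
        have a1 := abs_le.mp (show |f k.1 - s| ≤ d / 2 from h1)
        have a2 := abs_le.mp (show |f k.2 - s| ≤ d / 2 from h2)
        show |f k.2 - f k.1| ≤ d
        rw [abs_le]
        constructor <;> linarith [a1.1, a1.2, a2.1, a2.2]
      rw [ind_of_not h, this]
      simp
  linarith

namespace Cfg

variable {ι : Type} {c : Cfg ι}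

theorem H3.arcs2 (h : c.H3) {a : ι} (ha : a ∈ c.P) (Q : Finset ι) (hQ : Q ⊆ c.P)
    (hb : ∀ b ∈ Q, |c.y b - c.y a| ≤ |c.x b - c.x a| ∧ 1 ≤ |c.x b - c.x a|) :
    ∑ b ∈ Q, 1 / |c.x b - c.x a| ≤ 3 := by
  have := h.arcs ha Q hQ 0 (3 / 2) (by norm_num)
    (fun b hb' => abs_pos.mp (by linarith [(hb b hb').2])) (by
      intro b hb' t ht
      obtain ⟨h1, h2⟩ := hb b hb'
      have k1 := time_shift ht (show (0 : ℝ) ∈ c.near |c.y b - c.y a| a b by
        simp [near, Y])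
      have k2 : |t - 0| * |c.x b - c.x a| ≤ 3 / 2 * |c.x b - c.x a| := by linarith
      exact le_of_mul_le_mul_right k2 (by linarith))
  linarith

end Cfg

variable {ι : Type}

theorem inv_sum (P : Finset ι) (X Z : ι → ℝ) (h1 : (⟨P, X, Z⟩ : Cfg ι).H3)
    (h2 : (⟨P, Z, X⟩ : Cfg ι).H3) {a q : ι} (ha : a ∈ P) (hq : q ∈ P) (haq : a ≠ q) {τ K : ℝ}
    (hτ : |τ| ≤ 2) (hK : 0 < K) (hc : τ ∈ (⟨P, X, Z⟩ : Cfg ι).near (1 / 4) a q)
    (hv : |X q - X a| ≤ K) (Q : Finset ι) (hQ : ∀ b ∈ Q, b ∈ P ∧ a ≠ b ∧ q ≠ b) :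
    ∑ b ∈ Q, 1 / |(⟨P, X, Z⟩ : Cfg ι).Y b τ - (⟨P, X, Z⟩ : Cfg ι).Y a τ| ≤ 6 * (8 * K + 1) + 8 := by
  set c : Cfg ι := ⟨P, X, Z⟩ with hcd
  have f1 : ∀ b ∈ Q, 3 / 4 < |c.Y b τ - c.Y a τ| := fun b hb =>
    h1.far_of_coll ha hq (hQ b hb).1 haq (hQ b hb).2.1 (hQ b hb).2.2 hc
  have f2 : ∀ b ∈ Q, |X b - X a| ≤ (8 * K + 1) * |c.Y b τ - c.Y a τ| ∧
      |Z b - Z a| ≤ (8 * K + 1) * |c.Y b τ - c.Y a τ| := by
    intro b hb
    have k1 : |X b - X a| < 4 * K * |c.Y b τ - c.Y a τ| :=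
      h1.cone ha hq (hQ b hb).1 haq (hQ b hb).2.1 (hQ b hb).2.2 hK hc hv
    have k0 := mul_nonneg hK.le (abs_nonneg (c.Y b τ - c.Y a τ))
    have k2 : Z b - Z a = (c.Y b τ - c.Y a τ) + τ * (X b - X a) := by
      simp only [Cfg.Y, hcd]; ring
    have k3 := abs_add_le (c.Y b τ - c.Y a τ) (τ * (X b - X a))
    rw [← k2, abs_mul] at k3
    have k4 := mul_le_mul_of_nonneg_right hτ (abs_nonneg (X b - X a))
    constructor <;> linarith [abs_nonneg (c.Y b τ - c.Y a τ)]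
  set Q1 := Q.filter (fun b => |Z b - Z a| ≤ |X b - X a| ∧ 1 ≤ |X b - X a|) with hQ1
  set Q2 := Q.filter (fun b => |X b - X a| ≤ |Z b - Z a| ∧ 1 ≤ |Z b - Z a|) with hQ2
  set Q3 := Q.filter (fun b => |Z b - Z a| ≤ 1) with hQ3
  have g1 := h1.arcs2 ha Q1 (fun b hb => (hQ b (Finset.mem_filter.mp hb).1).1)
    (fun b hb => (Finset.mem_filter.mp hb).2)
  have g2 := h2.arcs2 ha Q2 (fun b hb => (hQ b (Finset.mem_filter.mp hb).1).1)
    (fun b hb => (Finset.mem_filter.mp hb).2)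
  have g3 : (Q3.card : ℝ) ≤ 6 := by
    have k1 := Cfg.card_le_cnt (c := c) (W := 1) (t := 0) (s := c.Y a 0) (I := univ) Q3 (by
      intro b hb
      have := Finset.mem_filter.mp hb
      exact ⟨(hQ b this.1).1, by simpa [Cfg.Y, hcd] using this.2, mem_univ _⟩)
    linarith [h1.cnt_le zero_le_one 0 (c.Y a 0) univ]
  have g4 : ∀ b ∈ Q, 1 / |c.Y b τ - c.Y a τ| ≤
      (8 * K + 1) * (if |Z b - Z a| ≤ |X b - X a| ∧ 1 ≤ |X b - X a| then 1 / |X b - X a| else 0) +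
      (8 * K + 1) * (if |X b - X a| ≤ |Z b - Z a| ∧ 1 ≤ |Z b - Z a| then 1 / |Z b - Z a| else 0) +
      4 / 3 * (if |Z b - Z a| ≤ 1 then 1 else 0) := by
    intro b hb
    have k1 := f1 b hb
    obtain ⟨k2, k3⟩ := f2 b hb
    have n1 : 0 ≤ (8 * K + 1) * (if |Z b - Z a| ≤ |X b - X a| ∧ 1 ≤ |X b - X a| then
      1 / |X b - X a| else 0) := by split_ifs <;> positivity
    have n2 : 0 ≤ (8 * K + 1) * (if |X b - X a| ≤ |Z b - Z a| ∧ 1 ≤ |Z b - Z a| then
      1 / |Z b - Z a| else 0) := by split_ifs <;> positivity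
    have n3 : (0 : ℝ) ≤ 4 / 3 * (if |Z b - Z a| ≤ 1 then 1 else 0) := by split_ifs <;> norm_num
    by_cases e3 : |Z b - Z a| ≤ 1
    · rw [if_pos e3]
      have : 1 / |c.Y b τ - c.Y a τ| ≤ 4 / 3 := by
        rw [div_le_iff₀ (by linarith)]; linarith
      linarith
    · push Not at e3
      rcases le_total |Z b - Z a| |X b - X a| with e1 | e1
      · rw [if_pos ⟨e1, by linarith⟩]
        have : 1 / |c.Y b τ - c.Y a τ| ≤ (8 * K + 1) * (1 / |X b - X a|) := by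
          rw [mul_one_div, div_le_div_iff₀ (by linarith) (by linarith)]; linarith
        linarith
      · rw [if_pos (show |X b - X a| ≤ |Z b - Z a| ∧ 1 ≤ |Z b - Z a| from ⟨e1, e3.le⟩)]
        have : 1 / |c.Y b τ - c.Y a τ| ≤ (8 * K + 1) * (1 / |Z b - Z a|) := by
          rw [mul_one_div, div_le_div_iff₀ (by linarith) (by linarith)]; linarith
        linarith
  refine (Finset.sum_le_sum g4).trans ?_
  simp only [Finset.sum_add_distrib, ← Finset.mul_sum, ← Finset.sum_filter]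
  simp only [Finset.sum_const, nsmul_eq_mul, mul_one]
  have m1 := mul_le_mul_of_nonneg_left g1 (show 0 ≤ 8 * K + 1 by linarith)
  have m2 := mul_le_mul_of_nonneg_left g2 (show 0 ≤ 8 * K + 1 by linarith)
  simp only [hcd] at m1 m2
  linarith

theorem class_bound (P : Finset ι) (X Z : ι → ℝ) (h1 : (⟨P, X, Z⟩ : Cfg ι).H3)
    (h2 : (⟨P, Z, X⟩ : Cfg ι).H3) {τ K T : ℝ} (hτ : |τ| ≤ 2) (hK : 0 < K) (m : ℕ)
    (hm : 2 * 2 ^ m ≤ T) (hX : ∀ p ∈ P, 0 ≤ X p ∧ X p ≤ T) (hZ : ∀ p ∈ P, 0 ≤ Z p ∧ Z p ≤ T)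
    (S : Finset ι) (hS : S ⊆ P) (hq : ∀ a ∈ S, ∃ q ∈ P, a ≠ q ∧
      τ ∈ (⟨P, X, Z⟩ : Cfg ι).near (1 / 4) a q ∧ |X q - X a| ≤ K) :
    m * (S.card : ℝ) ≤ 8 * T * (2 + 2 * (6 * (8 * K + 1) + 8)) := by
  set c : Cfg ι := ⟨P, X, Z⟩ with hcd
  have hT : 0 < T := lt_of_lt_of_le (by positivity) hm
  rcases S.eq_empty_or_nonempty with rfl | hne
  · simp only [Finset.card_empty, Nat.cast_zero, mul_zero]; positivity
  have hS0 : (0 : ℝ) < S.card := by exact_mod_cast hne.card_pos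
  set θ := (S.card : ℝ) / (8 * T) with hθ
  have hθ' : θ * (8 * T) = S.card := by rw [hθ]; field_simp
  have s1 : ∀ j ∈ Finset.range m, θ * S.card ≤
      ∑ a ∈ S, (∑ b ∈ P, ind (Ici |c.Y b τ - c.Y a τ|) (2 * 2 ^ j)) / (2 * 2 ^ j) := by
    intro j hj
    have hd : (0 : ℝ) < 2 * 2 ^ j := by positivity
    have hdT : (2 : ℝ) * 2 ^ j ≤ T := by
      have : (2 : ℝ) ^ j ≤ 2 ^ m := pow_le_pow_right₀ (by norm_num) (Finset.mem_range.mp hj).le
      linarith
    have a1 := energy1 S (fun a => c.Y a τ) (x := θ * (2 * 2 ^ j)) (T := 4 * T) hd (by linarith) (by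
      intro a ha
      have b1 := hX a (hS ha)
      have b2 := hZ a (hS ha)
      have b3 : |c.Y a τ| ≤ 3 * T := by
        simp only [Cfg.Y, hcd]
        refine (abs_sub _ _).trans ?_
        rw [abs_mul, abs_of_nonneg b1.1, abs_of_nonneg b2.1]
        have := mul_le_mul hτ b1.2 b1.1 (by norm_num)
        linarith [b2.2]
      linarith)
    have a2 : ∑ k ∈ S ×ˢ S, ind (Iic (2 * 2 ^ j : ℝ)) |c.Y k.2 τ - c.Y k.1 τ| ≤
        ∑ a ∈ S, ∑ b ∈ P, ind (Ici |c.Y b τ - c.Y a τ|) (2 * 2 ^ j) := by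
      rw [Finset.sum_product]
      refine Finset.sum_le_sum fun a _ => ?_
      exact Finset.sum_le_sum_of_subset_of_nonneg hS fun b _ _ => ind_nonneg _ _
    rw [← Finset.sum_div, le_div_iff₀ hd]
    have a3 := mul_le_mul_of_nonneg_left a2 hd.le
    have a4 : 2 * 2 ^ j * (θ * S.card * (2 * 2 ^ j)) ≤
        2 * 2 ^ j * ∑ a ∈ S, ∑ b ∈ P, ind (Ici |c.Y b τ - c.Y a τ|) (2 * 2 ^ j) := by
      have e : (θ * (2 * 2 ^ j)) ^ 2 * (2 * (4 * T)) = θ * (2 * 2 ^ j) ^ 2 * S.card := by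
        rw [← hθ']; ring
      rw [e] at a1
      linarith
    exact le_of_mul_le_mul_left a4 hd
  have s2 : ∀ a ∈ S, ∑ j ∈ Finset.range m,
      (∑ b ∈ P, ind (Ici |c.Y b τ - c.Y a τ|) (2 * 2 ^ j)) / (2 * 2 ^ j) ≤
      2 + 2 * (6 * (8 * K + 1) + 8) := by
    intro a ha
    obtain ⟨q, q1, q2, q3, q4⟩ := hq a ha
    have b1 := inv_sum P X Z h1 h2 (hS ha) q1 q2 hτ hK q3 q4 ((P.erase a).erase q) (by
      intro b hb
      have k1 := Finset.mem_erase.mp hb
      have k2 := Finset.mem_erase.mp k1.2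
      exact ⟨k2.2, k2.1.symm, k1.1.symm⟩)
    have b2 : ∀ b : ι, ∑ j ∈ Finset.range m,
        ind (Ici |c.Y b τ - c.Y a τ|) (2 * 2 ^ j) / (2 * 2 ^ j) ≤ 1 := by
      intro b
      have := dyadic (d0 := 2) (u := 2) two_pos two_pos m
      refine le_trans (Finset.sum_le_sum fun j _ => ?_) (this.trans (by norm_num))
      have hj : (2 : ℝ) * 2 ^ j ∈ Ici (2 : ℝ) := by
        have : (1 : ℝ) ≤ 2 ^ j := one_le_pow₀ (by norm_num)
        show (2 : ℝ) ≤ 2 * 2 ^ j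
        linarith
      rw [ind_of_mem hj]
      exact div_le_div_of_nonneg_right (ind_le_one _ _) (by positivity)
    simp only [Finset.sum_div]
    rw [Finset.sum_comm, ← Finset.add_sum_erase _ _ (hS ha),
      ← Finset.add_sum_erase _ _ (Finset.mem_erase.mpr ⟨q2.symm, q1⟩)]
    have b3 : ∑ b ∈ (P.erase a).erase q, ∑ j ∈ Finset.range m,
        ind (Ici |c.Y b τ - c.Y a τ|) (2 * 2 ^ j) / (2 * 2 ^ j) ≤
        ∑ b ∈ (P.erase a).erase q, 2 * (1 / |c.Y b τ - c.Y a τ|) := by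
      refine Finset.sum_le_sum fun b hb => ?_
      have k1 := Finset.mem_erase.mp hb
      have k2 := Finset.mem_erase.mp k1.2
      have k3 := h1.far_of_coll (hS ha) q1 k2.2 q2 k2.1.symm k1.1.symm q3
      rw [mul_one_div]
      exact dyadic two_pos (by linarith) m
    rw [← Finset.mul_sum] at b3
    linarith [b2 a, b2 q]
  have s3 := Finset.sum_le_sum s1
  rw [Finset.sum_comm] at s3
  have s4 := s3.trans (Finset.sum_le_sum s2)
  simp only [Finset.sum_const, Finset.card_range, nsmul_eq_mul] at s4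
  have s5 : S.card * (m * θ) ≤ S.card * (2 + 2 * (6 * (8 * K + 1) + 8)) := by linarith
  have s6 := mul_le_mul_of_nonneg_left (le_of_mul_le_mul_left s5 hS0) (show 0 ≤ 8 * T by linarith)
  rw [← hθ']
  linarith

/-- Few points have a very close neighbour. -/
theorem sep_half {K η : ℝ} (hK : 1 ≤ K) (hη : 0 < η) : ∀ᶠ T : ℝ in atTop,
    ∀ (P : Finset ι) (X Z : ι → ℝ), (⟨P, X, Z⟩ : Cfg ι).H3 → (⟨P, Z, X⟩ : Cfg ι).H3 →
      (∀ p ∈ P, 0 ≤ X p ∧ X p ≤ T) → (∀ p ∈ P, 0 ≤ Z p ∧ Z p ≤ T) → ∀ S ⊆ P,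
      (∀ a ∈ S, ∃ q ∈ P, a ≠ q ∧ |Z q - Z a| ≤ |X q - X a| ∧ |X q - X a| ≤ K) →
      (S.card : ℝ) ≤ η * T := by
  obtain ⟨N, hN⟩ : ∃ N : ℕ, 2 * K + 1 ≤ N := exists_nat_ge _
  obtain ⟨m, hm⟩ : ∃ m : ℕ, (2 * N + 1) * (8 * (2 + 2 * (6 * (8 * K + 1) + 8))) / η ≤ m :=
    exists_nat_ge _
  have hm0 : (0 : ℝ) < m := lt_of_lt_of_le (by positivity) hm
  rw [div_le_iff₀ hη] at hm
  filter_upwards [eventually_ge_atTop (2 * 2 ^ m : ℝ)] with T hT P X Z h1 h2 hX hZ S hS hq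
  have hT0 : 0 < T := lt_of_lt_of_le (by positivity) hT
  set Sk : ℤ → Finset ι := fun k => S.filter (fun a => |k / (2 * K)| ≤ 2 ∧ ∃ q ∈ P, a ≠ q ∧
    k / (2 * K) ∈ (⟨P, X, Z⟩ : Cfg ι).near (1 / 4) a q ∧ |X q - X a| ≤ K) with hSk
  have s1 : S ⊆ (Finset.Icc (-(N : ℤ)) N).biUnion Sk := by
    intro a ha
    obtain ⟨q, q1, q2, q3, q4⟩ := hq a ha
    set σ := (Z q - Z a) / (X q - X a) with hσ
    have hσ1 : |σ| ≤ 1 := by
      rw [hσ, abs_div]
      exact div_le_one_of_le₀ q3 (abs_nonneg _)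
    have hσ2 : Z q - Z a = σ * (X q - X a) := by
      by_cases h0 : X q - X a = 0
      · rw [h0] at q3 ⊢
        simpa using q3
      · rw [hσ]; field_simp
    have hk := abs_sub_round (2 * K * σ)
    set k := round (2 * K * σ) with hkd
    have hk1 : |(k : ℝ)| ≤ 2 * K + 1 / 2 := by
      have a1 : |2 * K * σ| ≤ 2 * K := by
        rw [abs_mul, abs_of_pos (by linarith)]
        exact mul_le_of_le_one_right (by linarith) hσ1
      have a2 := abs_sub (2 * K * σ) (2 * K * σ - k)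
      rw [sub_sub_cancel] at a2
      linarith
    refine Finset.mem_biUnion.mpr ⟨k, ?_, Finset.mem_filter.mpr ⟨ha, ?_, q, q1, q2, ?_, q4⟩⟩
    · rw [Finset.mem_Icc, ← abs_le]
      have : ((|k| : ℤ) : ℝ) ≤ ((N : ℤ) : ℝ) := by
        push_cast
        linarith
      exact_mod_cast this
    · rw [abs_div, abs_of_pos (show 0 < 2 * K by linarith), div_le_iff₀ (by linarith)]
      linarith
    · show |(Z q - k / (2 * K) * X q) - (Z a - k / (2 * K) * X a)| ≤ 1 / 4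
      have e : (Z q - k / (2 * K) * X q) - (Z a - k / (2 * K) * X a) =
          (2 * K * σ - k) * (X q - X a) / (2 * K) := by
        have : Z q = Z a + σ * (X q - X a) := by linarith
        rw [this]
        field_simp
        ring
      rw [e, abs_div, abs_mul, abs_of_pos (show 0 < 2 * K by linarith), div_le_iff₀ (by linarith)]
      have := mul_le_mul hk q4 (abs_nonneg _) (by norm_num)
      linarith
  have s2 : ∀ k ∈ Finset.Icc (-(N : ℤ)) N, m * ((Sk k).card : ℝ) ≤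
      8 * T * (2 + 2 * (6 * (8 * K + 1) + 8)) := by
    intro k _
    rcases (Sk k).eq_empty_or_nonempty with h0 | ⟨a, ha⟩
    · rw [h0]
      simp only [Finset.card_empty, Nat.cast_zero, mul_zero]
      positivity
    · exact class_bound P X Z h1 h2 (Finset.mem_filter.mp ha).2.1 (by linarith) m hT hX hZ (Sk k)
        ((Finset.filter_subset _ _).trans hS) fun a ha => (Finset.mem_filter.mp ha).2.2
  have s3 : (S.card : ℝ) ≤ ∑ k ∈ Finset.Icc (-(N : ℤ)) N, ((Sk k).card : ℝ) := by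
    exact_mod_cast (Finset.card_le_card s1).trans Finset.card_biUnion_le
  have s4 := Finset.sum_le_sum s2
  rw [← Finset.mul_sum] at s4
  simp only [Finset.sum_const, Int.card_Icc, nsmul_eq_mul] at s4
  have e : (((N : ℤ) + 1 - -(N : ℤ)).toNat : ℝ) = 2 * N + 1 := by
    have : ((N : ℤ) + 1 - -(N : ℤ)).toNat = 2 * N + 1 := by omega
    rw [this]; push_cast; ring
  rw [e] at s4
  have s5 : m * (S.card : ℝ) ≤ m * (η * T) := by
    have := mul_le_mul_of_nonneg_left s3 hm0.le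
    have := mul_le_mul_of_nonneg_right hm hT0.le
    linarith
  exact le_of_mul_le_mul_left s5 hm0

/-- A set with no three points in a unit strip of either chart has `o(T)` points. -/
theorem two_charts {ε : ℝ} (hε : 0 < ε) : ∀ᶠ T : ℝ in atTop,
    ∀ (P : Finset ι) (X Z : ι → ℝ), (⟨P, X, Z⟩ : Cfg ι).H3 → (⟨P, Z, X⟩ : Cfg ι).H3 →
      (∀ p ∈ P, 0 ≤ X p ∧ X p ≤ T) → (∀ p ∈ P, 0 ≤ Z p ∧ Z p ≤ T) →
      (P.card : ℝ) < 2 * ε * T := by
  obtain ⟨K, hK, hmain⟩ := ((eventually_ge_atTop 1).and (main_bound (ι := ι) hε)).exists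
  filter_upwards [sep_half (ι := ι) hK (show 0 < ε / 2 by positivity), eventually_ge_atTop K]
    with T hsep hKT P X Z h1 h2 hX hZ
  have hT : 0 < T := by linarith
  set S1 := P.filter (fun a => ∃ q ∈ P, a ≠ q ∧ |Z q - Z a| ≤ |X q - X a| ∧ |X q - X a| ≤ K)
    with hS1
  set S2 := P.filter (fun a => ∃ q ∈ P, a ≠ q ∧ |X q - X a| ≤ |Z q - Z a| ∧ |Z q - Z a| ≤ K)
    with hS2
  have a1 := hsep P X Z h1 h2 hX hZ S1 (Finset.filter_subset _ _)
    fun a ha => (Finset.mem_filter.mp ha).2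
  have a2 := hsep P Z X h2 h1 hZ hX S2 (Finset.filter_subset _ _)
    fun a ha => (Finset.mem_filter.mp ha).2
  have a3 := hmain ⟨P \ (S1 ∪ S2), fun p => X p / T, Z⟩ T
    { h3 := by
        intro t p hp q hq z hz hpq hpz hqz b1 b2 b3
        have e : ∀ w, Cfg.Y ⟨P \ (S1 ∪ S2), fun p => X p / T, Z⟩ w t =
            Cfg.Y ⟨P, X, Z⟩ w (t / T) := by
          intro w
          simp only [Cfg.Y]; ring
        simp only [e] at b1 b2 b3
        exact h1 (t / T) p (Finset.mem_sdiff.mp hp).1 q (Finset.mem_sdiff.mp hq).1 z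
          (Finset.mem_sdiff.mp hz).1 hpq hpz hqz b1 b2 b3
      hx := by
        intro p hp
        have := hX p (Finset.mem_sdiff.mp hp).1
        exact ⟨div_nonneg this.1 hT.le, (div_le_one hT).mpr this.2⟩
      hy := fun p hp => hZ p (Finset.mem_sdiff.mp hp).1
      sep := by
        intro p hp q hq hpq
        by_contra hn
        push Not at hn
        obtain ⟨n1, n2⟩ := hn
        simp only at n1 n2
        rw [← sub_div, abs_div, abs_of_pos hT, div_mul_cancel₀ _ hT.ne', abs_sub_comm] at n1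
        rw [abs_sub_comm] at n2
        have hp' := Finset.mem_sdiff.mp hp
        have hq' := (Finset.mem_sdiff.mp hq).1
        apply hp'.2
        rw [Finset.mem_union]
        rcases le_total |Z q - Z p| |X q - X p| with h | h
        · exact Or.inl (Finset.mem_filter.mpr ⟨hp'.1, q, hq', hpq, h, n1.le⟩)
        · exact Or.inr (Finset.mem_filter.mpr ⟨hp'.1, q, hq', hpq, h, n2.le⟩)
      hK := hKT }
  have a4 : P.card ≤ (P \ (S1 ∪ S2)).card + S1.card + S2.card := by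
    have b1 := Finset.le_card_sdiff (S1 ∪ S2) P
    have b2 := Finset.card_union_le S1 S2
    omega
  have a5 : (P.card : ℝ) ≤ (P \ (S1 ∪ S2)).card + S1.card + S2.card := by exact_mod_cast a4
  simp only at a3
  linarith

end Pool.Agent.Lib.MP_dd58da_co
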