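import Pool.Agent.Lib.MP_dd58da_co.Sep

set_option autoImplicit false

open MeasureTheory Set Filter
open scoped Classical

namespace Pool.Agent.Lib.MP_dd58da_co

theorem exists_mid (x y z : ℝ) (h1 : |x - y| ≤ 1) (h2 : |x - z| ≤ 1) (h3 : |y - z| ≤ 1) :
    ∃ m, |x - m| ≤ 1 / 2 ∧ |y - m| ≤ 1 / 2 ∧ |z - m| ≤ 1 / 2 := by
  rw [abs_le] at h1 h2 h3
  refine ⟨min x (min y z) + 1 / 2, ?_, ?_, ?_⟩ <;> rw [abs_le] <;>
    rcases le_total y z with a | a <;> rcases le_total x y with b | b <;>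
    rcases le_total x z with d | d <;> simp only [min_def] <;> split_ifs <;>
    constructor <;> linarith

theorem strip_of_close {T α β : ℝ} (hT : 0 < T) (hN : T ^ 2 ≤ α ^ 2 + β ^ 2) (a b c : ℝ × ℝ)
    (h1 : |(α * a.1 + β * a.2) - (α * b.1 + β * b.2)| ≤ 1)
    (h2 : |(α * a.1 + β * a.2) - (α * c.1 + β * c.2)| ≤ 1)
    (h3 : |(α * b.1 + β * b.2) - (α * c.1 + β * c.2)| ≤ 1) :
    ∃ u v t : ℝ, u ^ 2 + v ^ 2 = 1 ∧ |u * a.1 + v * a.2 - t| ≤ 1 / (2 * T) ∧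
      |u * b.1 + v * b.2 - t| ≤ 1 / (2 * T) ∧ |u * c.1 + v * c.2 - t| ≤ 1 / (2 * T) := by
  obtain ⟨m, m1, m2, m3⟩ := exists_mid _ _ _ h1 h2 h3
  set N := √(α ^ 2 + β ^ 2) with hNd
  have hTN : T ≤ N := Real.le_sqrt_of_sq_le hN
  have hN0 : 0 < N := hT.trans_le hTN
  have hN2 : N ^ 2 = α ^ 2 + β ^ 2 := Real.sq_sqrt (by positivity)
  have key : ∀ p : ℝ × ℝ, |α * p.1 + β * p.2 - m| ≤ 1 / 2 →
      |α / N * p.1 + β / N * p.2 - m / N| ≤ 1 / (2 * T) := by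
    intro p hp
    rw [show α / N * p.1 + β / N * p.2 - m / N = (α * p.1 + β * p.2 - m) / N by ring, abs_div,
      abs_of_pos hN0, ← div_div]
    exact div_le_div₀ (by norm_num) hp hT hTN
  refine ⟨α / N, β / N, m / N, ?_, key a m1, key b m2, key c m3⟩
  rw [div_pow, div_pow, ← add_div, ← hN2, div_self (by positivity)]

/-- The Motzkin-Schmidt statement. -/
theorem thin_strip (ε : ℝ) (hε : 0 < ε) : ∃ N : ℕ, ∀ n : ℕ, N ≤ n →
    ∀ P : Finset (ℝ × ℝ), P.card = n →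
      (∀ p ∈ P, 0 ≤ p.1 ∧ p.1 ≤ 1 ∧ 0 ≤ p.2 ∧ p.2 ≤ 1) →
      ∃ a ∈ P, ∃ b ∈ P, ∃ c ∈ P, a ≠ b ∧ a ≠ c ∧ b ≠ c ∧
        ∃ u v t : ℝ, u ^ 2 + v ^ 2 = 1 ∧
          |u * a.1 + v * a.2 - t| ≤ ε / (n : ℝ) ∧
          |u * b.1 + v * b.2 - t| ≤ ε / (n : ℝ) ∧
          |u * c.1 + v * c.2 - t| ≤ ε / (n : ℝ) := by
  obtain ⟨T0, hT0⟩ := eventually_atTop.mp ((two_charts (ι := ℝ × ℝ) hε).and (eventually_gt_atTop 0))
  obtain ⟨N, hN⟩ := exists_nat_ge (2 * ε * T0)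
  refine ⟨N, fun n hn P hP hbox => ?_⟩
  set T := (n : ℝ) / (2 * ε) with hT
  have hn' : (N : ℝ) ≤ n := by exact_mod_cast hn
  obtain ⟨h1, hTpos⟩ := hT0 T (by
    rw [hT, le_div_iff₀ (by positivity)]; linarith)
  have hnT : (n : ℝ) = 2 * ε * T := by rw [hT]; field_simp
  have he : ε / (n : ℝ) = 1 / (2 * T) := by
    rw [hnT]; field_simp
  rw [he]
  by_contra hcon
  have := h1 P (fun p => T * p.1) (fun p => T * p.2) (by
    intro t p hp q hq z hz hpq hpz hqz b1 b2 b3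
    apply hcon
    refine ⟨p, hp, q, hq, z, hz, hpq, hpz, hqz,
      strip_of_close (α := -(t * T)) (β := T) hTpos (by nlinarith [sq_nonneg (t * T)]) p q z
        ?_ ?_ ?_⟩
    · convert b1 using 2; simp only [Cfg.Y]; ring
    · convert b2 using 2; simp only [Cfg.Y]; ring
    · convert b3 using 2; simp only [Cfg.Y]; ring) (by
    intro t p hp q hq z hz hpq hpz hqz b1 b2 b3
    apply hcon
    refine ⟨p, hp, q, hq, z, hz, hpq, hpz, hqz,
      strip_of_close (α := T) (β := -(t * T)) hTpos (by nlinarith [sq_nonneg (t * T)]) p q z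
        ?_ ?_ ?_⟩
    · convert b1 using 2; simp only [Cfg.Y]; ring
    · convert b2 using 2; simp only [Cfg.Y]; ring
    · convert b3 using 2; simp only [Cfg.Y]; ring)
    (fun p hp => ⟨mul_nonneg hTpos.le (hbox p hp).1,
      mul_le_of_le_one_right hTpos.le (hbox p hp).2.1⟩)
    (fun p hp => ⟨mul_nonneg hTpos.le (hbox p hp).2.2.1,
      mul_le_of_le_one_right hTpos.le (hbox p hp).2.2.2⟩)
  rw [hP] at this
  linarith

end Pool.Agent.Lib.MP_dd58da_co
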