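import Pool.Agent.Lib.MP_dd58da_co.Heavy

set_option autoImplicit false

open MeasureTheory Set Filter
open scoped Classical

namespace Pool.Agent.Lib.MP_dd58da_co

namespace Cfg

variable {ι : Type} {c : Cfg ι}

theorem cb_mono (p : ι) {a b : ℝ} (h : a ≤ b) : c.cb p a ⊆ c.cb p b := fun _ hu => le_trans hu h

theorem ann_cnt {ε V W t a b : ℝ} {p : ι} (hV : 0 < V) (hab : a ≤ b)
    (hU : t ∉ c.UP ε V W p) :
    2 * V * (c.M W p t b - c.M W p t a - 2 * ε) ≤ c.cnt V t (c.Y p t) (c.cb p b \ c.cb p a) := by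
  have hU' : ∀ I : Set ℝ, I.OrdConnected →
      |c.dens V t (c.Y p t) I - c.dens W t (c.Y p t) I| ≤ ε := by
    intro I hI
    by_contra hn
    exact hU ⟨I, hI, not_le.mp hn⟩
  have h1 := abs_le.mp (hU' _ (cb_ord (c := c) p a))
  have h2 := abs_le.mp (hU' _ (cb_ord (c := c) p b))
  have h3 := dens_diff (c := c) (W := V) (t := t) (s := c.Y p t) (cb_mono (c := c) p hab)
  have h4 : c.cnt V t (c.Y p t) (c.cb p b \ c.cb p a) =
      2 * V * c.dens V t (c.Y p t) (c.cb p b \ c.cb p a) := by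
    unfold dens; field_simp
  rw [h4, h3]
  unfold M
  apply mul_le_mul_of_nonneg_left _ (by linarith)
  linarith [h1.2, h2.1]

theorem H3.coll_ubad (h : c.H3) {p q : ι} (hp : p ∈ c.P) (hq : q ∈ c.P) (hpq : p ≠ q)
    {t s u r' V' e W ε : ℝ} (hc : t ∈ c.near (1 / 4) p q) (hv : |c.x q - c.x p| ≤ u) (hu : 0 < u)
    (hur : u ≤ r') (hV : 4 * u * (V' + e) ≤ r') (hs : |c.Y p t - s| ≤ e) {I : Set ℝ}
    (hI : I.OrdConnected) (hsub : c.cb p r' ⊆ I)
    (hm : 2 * ε < c.dens W t s I - c.dens W t s (c.cb p r')) : c.Ubad ε V' W t s := by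
  have h0 : c.sel V' t s (I \ c.cb p r') = ∅ := by
    rw [Finset.eq_empty_iff_forall_notMem]
    intro z hz
    rw [mem_sel] at hz
    obtain ⟨z1, z2, _, z3⟩ := hz
    have z4 : r' < |c.x z - c.x p| := not_le.mp z3
    have hpz : p ≠ z := by
      rintro rfl
      simp at z4
      linarith
    have hqz : q ≠ z := by
      rintro rfl
      linarith
    have a1 := h.cone hp hq z1 hpq hpz hqz hu hc hv
    have a2 : |c.Y z t - c.Y p t| ≤ V' + e := by
      rw [abs_le] at z2 hs ⊢
      constructor <;> linarith [z2.1, z2.2, hs.1, hs.2]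
    have := mul_le_mul_of_nonneg_left a2 (show 0 ≤ 4 * u by linarith)
    linarith
  have h1 := dens_diff (c := c) (W := V') (t := t) (s := s) hsub
  have h2 : c.dens V' t s (I \ c.cb p r') = 0 := by
    unfold dens cnt; rw [h0]; simp
  by_contra hn
  have hU' : ∀ I : Set ℝ, I.OrdConnected → |c.dens V' t s I - c.dens W t s I| ≤ ε := by
    intro I hI
    by_contra hn'
    exact hn ⟨I, hI, not_le.mp hn'⟩
  have a1 := abs_le.mp (hU' _ hI)
  have a2 := abs_le.mp (hU' _ (cb_ord (c := c) p r'))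
  linarith [a1.1, a2.2]

theorem H3.coll_sum (h : c.H3) (R : Finset (ι × ι))
    (hR : ∀ i ∈ R, i.1 ∈ c.P ∧ i.2 ∈ c.P ∧ i.1 ≠ i.2) (w : ι × ι → ℝ) (t : ℝ) (b : ι → ℝ)
    (hb0 : ∀ p ∈ c.P, 0 ≤ b p) (hb : ∀ i ∈ R, t ∈ c.near (1 / 4) i.1 i.2 → w i ≤ b i.1) :
    ∑ i ∈ R, w i * ind (c.near (1 / 4) i.1 i.2) t ≤ ∑ p ∈ c.P, b p := by
  rw [← Finset.sum_fiberwise_of_maps_to (g := fun i : ι × ι => i.1) (fun i hi => (hR i hi).1)]
  refine Finset.sum_le_sum fun p hp => ?_
  by_cases hex : ∃ i ∈ R.filter (fun i => i.1 = p), t ∈ c.near (1 / 4) i.1 i.2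
  · obtain ⟨i, hi, ht⟩ := hex
    have hi' := Finset.mem_filter.mp hi
    rw [Finset.sum_eq_single_of_mem i hi, ind_of_mem ht, mul_one, ← hi'.2]
    · exact hb i hi'.1 ht
    · intro j hj hji
      have hj' := Finset.mem_filter.mp hj
      rw [ind_of_not, mul_zero]
      intro hjt
      apply hji
      have e1 : j.1 = i.1 := hj'.2.trans hi'.2.symm
      refine Prod.ext e1 ?_
      obtain ⟨a1, a2, a3⟩ := hR i hi'.1
      obtain ⟨_, b2, b3⟩ := hR j hj'.1
      rw [e1] at b3 hjt
      exact h.uniq a1 b2 a2 b3 a3 (near_mono (by norm_num) _ _ hjt) (near_mono (by norm_num) _ _ ht)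
  · push Not at hex
    rw [Finset.sum_eq_zero fun i hi => by rw [ind_of_not (hex i hi), mul_zero]]
    exact hb0 p hp

theorem lt_of_M_lt {W t a b : ℝ} {p : ι} (hW : 0 ≤ W) (h : c.M W p t a < c.M W p t b) : a < b := by
  by_contra hn
  exact absurd (M_mono hW p t (not_lt.mp hn)) (not_le.mpr h)

theorem ne_of_lt_abs {a : ℝ} {p q : ι} (ha : 0 ≤ a) (h : a < |c.x q - c.x p|) : p ≠ q := by
  rintro rfl
  simp at h
  linarith

theorem card_le_fiber (R : Finset (ι × ι)) (V t : ℝ) (p : ι) (Q : Finset ι)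
    (h : ∀ q ∈ Q, (p, q) ∈ R ∧ t ∈ c.near V p q) :
    (Q.card : ℝ) ≤ ∑ i ∈ R.filter (fun i => i.1 = p), (fun _ => (1 : ℝ)) i *
      ind (c.near V i.1 i.2) t := by
  have := le_sum_fiber R (fun i => c.near V i.1 i.2) t (fun _ => 1) (fun _ _ => zero_le_one) p Q h
  simpa using this

end Cfg

variable {ι : Type}

theorem exists_V (C : ℝ) {η : ℝ} (hη : 0 < η) : ∃ V : ℝ, 1 ≤ V ∧ C / V ≤ η :=
  ((eventually_ge_atTop 1).and (ev_div C hη)).exists

/-- Qualitative point-centred uniformity at some fixed window. -/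
theorem PU' {ε η : ℝ} (hε : 0 < ε) (hη : 0 < η) : ∃ V : ℝ, 1 ≤ V ∧
    ∀ᶠ W : ℝ in atTop, ∀ᶠ K : ℝ in atTop, ∀ (c : Cfg ι) (T : ℝ), c.Adm K T →
      c.palm T (c.UP ε V W) ≤ η * T ^ 2 := by
  obtain ⟨C, _, h⟩ := PU (ι := ι) hε
  obtain ⟨V, hV, hCV⟩ := exists_V C (show 0 < η / 2 by positivity)
  refine ⟨V, hV, ?_⟩
  filter_upwards [h V hV (η / 2) (by positivity)] with W hW
  filter_upwards [hW] with K hK c T hc
  refine (hK c T hc).trans (mul_le_mul_of_nonneg_right (by linarith) (sq_nonneg T))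

/-- Mass at two well separated slope scales rarely coexists. -/
theorem SC {μ : ℝ} (hμ : 0 < μ) : ∃ C : ℝ, 1 ≤ C ∧ ∀ A, 4 ≤ A → ∀ G, 1 ≤ G → ∀ ζ, 0 < ζ →
    ∀ ε', 0 < ε' → ∀ᶠ W : ℝ in atTop, ∀ᶠ K : ℝ in atTop, ∀ (c : Cfg ι) (T : ℝ), c.Adm K T →
      c.palm T (fun p => {t | ∃ r' r, 0 < r' ∧ μ ≤ c.M W p t r - c.M W p t r' ∧
        ζ ≤ c.M W p t (r' / A) - c.M W p t (r / G)}) ≤ (C / (A * ζ) + ε') * T ^ 2 := by
  obtain ⟨C1, hC1, h1⟩ := PU (ι := ι) (show 0 < μ / 8 by positivity)
  refine ⟨64 * C1, by linarith, fun A hA G hG ζ hζ ε' hε' => ?_⟩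
  obtain ⟨V, hV, h2⟩ := PU' (ι := ι) (show 0 < ζ / 4 by positivity) (show 0 < ε' / 2 by positivity)
  filter_upwards [h1 (A / 4) (by linarith) (ζ * ε' / 32) (by positivity), h2,
    ev_div (2 * (G * (V + 1)) + 2) (show 0 < μ / 4 by positivity), eventually_gt_atTop 0]
    with W k1 k2 k3 hW
  filter_upwards [k1, k2, eventually_ge_atTop (2 * V + 1 / 4)] with K l1 l2 l3 c T hc
  have hT : 0 < T := hc.T_pos (by linarith)
  set R := (c.P ×ˢ c.P).filter (fun i : ι × ι => i.1 ≠ i.2 ∧ ∃ t, |t| ≤ T ∧ t ∈ c.near V i.1 i.2 ∧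
    ∃ r' r, 0 < r' ∧ μ ≤ c.M W i.1 t r - c.M W i.1 t r' ∧ r / G < |c.x i.2 - c.x i.1| ∧
      |c.x i.2 - c.x i.1| ≤ r' / A) with hR
  have hrel : c.Rel V T R := by
    intro i hi
    obtain ⟨a1, a2, t, ht, a3, _⟩ := Finset.mem_filter.mp hi
    exact ⟨(Finset.mem_product.mp a1).1, (Finset.mem_product.mp a1).2, a2, t, ht, a3⟩
  have s1 := Cfg.palm_le_lam (c := c) (T := T) (V := V) (N := V * ζ) (by positivity) (R := R)
    (fun i hi => (hrel i hi).1) (w := fun _ => 1) (fun _ _ => zero_le_one)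
    (E := fun p => {t | (∃ r' r, 0 < r' ∧ μ ≤ c.M W p t r - c.M W p t r' ∧
        ζ ≤ c.M W p t (r' / A) - c.M W p t (r / G)) ∧ t ∉ c.UP (ζ / 4) V W p}) (by
      rintro p hp t ht ⟨⟨r', r, a1, a2, a3⟩, a4⟩
      have b1 : r' < r := Cfg.lt_of_M_lt (c := c) (p := p) (t := t) hW.le (by linarith)
      have b2 : r / G < r' / A := Cfg.lt_of_M_lt (c := c) (p := p) (t := t) hW.le (by linarith)
      have b3 := Cfg.ann_cnt (by linarith) b2.le a4
      refine le_trans (le_trans (by nlinarith) b3) (Cfg.card_le_fiber R V t p _ fun q hq => ?_)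
      rw [Cfg.mem_sel] at hq
      obtain ⟨q1, q2, q3, q4⟩ := hq
      have q5 : r / G < |c.x q - c.x p| := not_le.mp q4
      refine ⟨Finset.mem_filter.mpr ⟨Finset.mem_product.mpr ⟨hp, q1⟩, ?_, t, ht, q2, r', r, a1, a2,
        q5, q3⟩, q2⟩
      exact Cfg.ne_of_lt_abs (div_pos (by linarith) (by linarith)).le q5)
  have s2 := hc.lam_sweep (V := V) (V' := 1 / 4) (by linarith) (by norm_num) l3 hrel
    (w := fun _ => 1) (fun _ _ => zero_le_one)
  have s3 := Cfg.lam_le (c := c) (T := 2 * T) (V := 1 / 4) (B := 0) (u := 1) (by linarith)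
    zero_le_one (R := R) (w := fun _ => 1) (Bad := c.UP (μ / 8) (A / 4) W) (by
      intro t' _
      rw [zero_add, one_mul]
      apply hc.h3.coll_sum R (fun i hi => ⟨(hrel i hi).1, (hrel i hi).2.1, (hrel i hi).2.2.1⟩)
        _ _ _ (fun p _ => ind_nonneg _ _)
      intro i hi ht'
      obtain ⟨a1, a2, t, _, a3, r', r, a4, a5, a6, a7⟩ := Finset.mem_filter.mp hi
      rw [ind_of_mem]
      have b1 : r' < r := Cfg.lt_of_M_lt (c := c) (p := i.1) (t := t) hW.le (by linarith)
      have b2 := Cfg.time_shift a3 ht'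
      have b3 : |t - t'| * r ≤ G * (V + 1) := by
        rw [div_lt_iff₀ (by linarith)] at a6
        have := mul_le_mul_of_nonneg_left a6.le (abs_nonneg (t - t'))
        nlinarith
      have b4 := hc.h3.dens_time hW (by positivity) i.1 t t' (c.cb i.1 r \ c.cb i.1 r')
        sdiff_subset b3
      rw [Cfg.dens_diff (Cfg.cb_mono _ b1.le), Cfg.dens_diff (Cfg.cb_mono _ b1.le)] at b4
      apply hc.h3.coll_ubad (hrel i hi).1 (hrel i hi).2.1 a2 ht' a7 (e := 0) (r' := r')
        (div_pos a4 (by linarith)) (div_le_self a4.le (by linarith))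
        (le_of_eq (by field_simp; ring)) (by simp) (Cfg.cb_ord _ r) (Cfg.cb_mono _ b1.le)
      unfold Cfg.M at a5
      linarith)
  have s4 := l1 c (2 * T) (hc.mono_T (by linarith))
  have s5 := l2 c T hc
  have s6 := Cfg.palm_le_add (c := c) (T := T)
    (E := fun p => {t | ∃ r' r, 0 < r' ∧ μ ≤ c.M W p t r - c.M W p t r' ∧
        ζ ≤ c.M W p t (r' / A) - c.M W p t (r / G)})
    (E1 := fun p => {t | (∃ r' r, 0 < r' ∧ μ ≤ c.M W p t r - c.M W p t r' ∧
        ζ ≤ c.M W p t (r' / A) - c.M W p t (r / G)) ∧ t ∉ c.UP (ζ / 4) V W p})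
    (E2 := c.UP (ζ / 4) V W) (by
      intro p _ t _ ht
      by_cases h : t ∈ c.UP (ζ / 4) V W p
      · exact Or.inr h
      · exact Or.inl ⟨ht, h⟩)
  have s7 : V / (1 / 4) * ((C1 / (A / 4) + ζ * ε' / 32) * (2 * T) ^ 2) =
      V * ζ * ((64 * C1 / (A * ζ) + ε' / 2) * T ^ 2) := by
    field_simp; ring
  have s8 := s1.trans (s2.trans (mul_le_mul_of_nonneg_left (show c.lam (2 * T) (1 / 4) R
    (fun _ => 1) ≤ (C1 / (A / 4) + ζ * ε' / 32) * (2 * T) ^ 2 by linarith) (by positivity)))
  rw [s7] at s8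
  have s9 := le_of_mul_le_mul_left s8 (by positivity)
  linarith

/-- Points with mass nearby are rarely lonely at smaller slope scales. -/
theorem CB {μ ε : ℝ} (hμ : 0 < μ) (hε : 0 < ε) : ∃ δ : ℝ, 0 < δ ∧ δ ≤ 1 ∧ ∀ ρ, 0 < ρ → ρ ≤ 1 →
    ∀ᶠ W : ℝ in atTop, ∀ᶠ K : ℝ in atTop, ∀ (c : Cfg ι) (T : ℝ), c.Adm K T →
      c.palm T (fun p => {t | ∃ r, 0 < r ∧ μ ≤ c.M W p t r ∧ c.M W p t (ρ * r) < δ * ρ}) ≤
        ε * T ^ 2 := by
  set κ := μ * ε / 64 with hκ
  have hκ0 : 0 < κ := by positivity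
  obtain ⟨C3, hC3, h3⟩ := PU (ι := ι) (show 0 < κ / 96 by positivity)
  set A := 4 + 16 * C3 / κ with hA
  have hA4 : 4 ≤ A := by
    have : 0 ≤ 16 * C3 / κ := by positivity
    linarith
  have hCA : C3 / (A / 4) ≤ κ / 4 := by
    rw [div_le_iff₀ (by linarith)]
    have : κ / 4 * (A / 4) = κ / 4 + C3 := by rw [hA]; field_simp; ring
    linarith
  set δ := min 1 (min (μ / 2) (κ / (288 * A))) with hδ
  have hδ0 : 0 < δ := lt_min one_pos (lt_min (by positivity) (by positivity))
  have hδ1 : δ ≤ μ / 2 := (min_le_right _ _).trans (min_le_left _ _)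
  have hδ2 : 288 * A * δ ≤ κ := by
    have : δ ≤ κ / (288 * A) := (min_le_right _ _).trans (min_le_right _ _)
    rw [le_div_iff₀ (by positivity)] at this
    linarith
  refine ⟨δ, hδ0, min_le_left _ _, fun ρ hρ hρ1 => ?_⟩
  obtain ⟨V, hV, h2⟩ := PU' (ι := ι) (show 0 < μ / 8 by positivity) (show 0 < ε / 2 by positivity)
  filter_upwards [h3 (A / 4) (by linarith) (κ / 4) (by positivity), h2,
    ev_div (2 * (V + 1) + 2) (show 0 < δ * ρ by positivity), eventually_gt_atTop 0]
    with W k1 k2 k3 hW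
  filter_upwards [k1, k2, eventually_ge_atTop (2 * V + 1 / 4), eventually_ge_atTop W]
    with K l1 l2 l3 l4 c T hc
  have hT : 0 < T := hc.T_pos (by linarith)
  have hWT : W ≤ T := l4.trans hc.hK
  set R := (c.P ×ˢ c.P).filter (fun i : ι × ι => i.1 ≠ i.2 ∧ ∃ t, |t| ≤ T ∧ t ∈ c.near V i.1 i.2 ∧
    c.M W i.1 t (ρ * |c.x i.2 - c.x i.1|) < δ * ρ) with hR
  have hrel : c.Rel V T R := by
    intro i hi
    obtain ⟨a1, a2, t, ht, a3, _⟩ := Finset.mem_filter.mp hi
    exact ⟨(Finset.mem_product.mp a1).1, (Finset.mem_product.mp a1).2, a2, t, ht, a3⟩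
  have s1 := Cfg.palm_le_lam (c := c) (T := T) (V := V) (N := V * μ / 2) (by positivity) (R := R)
    (fun i hi => (hrel i hi).1) (w := fun _ => 1) (fun _ _ => zero_le_one)
    (E := fun p => {t | (∃ r, 0 < r ∧ μ ≤ c.M W p t r ∧ c.M W p t (ρ * r) < δ * ρ) ∧
      t ∉ c.UP (μ / 8) V W p}) (by
      rintro p hp t ht ⟨⟨r, a1, a2, a3⟩, a4⟩
      have b2 : ρ * r ≤ r := by nlinarith
      have b3 := Cfg.ann_cnt (by linarith) b2 a4
      have b4 : δ * ρ ≤ μ / 2 := by nlinarith
      refine le_trans (le_trans (by nlinarith) b3) (Cfg.card_le_fiber R V t p _ fun q hq => ?_)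
      rw [Cfg.mem_sel] at hq
      obtain ⟨q1, q2, q3, q4⟩ := hq
      have q5 : ρ * r < |c.x q - c.x p| := not_le.mp q4
      refine ⟨Finset.mem_filter.mpr ⟨Finset.mem_product.mpr ⟨hp, q1⟩, ?_, t, ht, q2, ?_⟩, q2⟩
      · exact Cfg.ne_of_lt_abs (by positivity) q5
      · exact lt_of_le_of_lt (Cfg.M_mono hW.le _ _ (mul_le_mul_of_nonneg_left q3 hρ.le)) a3)
  have s2 := hc.lam_sweep (V := V) (V' := 1 / 4) (by linarith) (by norm_num) l3 hrel
    (w := fun _ => 1) (fun _ _ => zero_le_one)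
  have s3 := Cfg.lam_le (c := c) (T := 2 * T) (V := 1 / 4) (B := 6 * T * (κ / 12)) (u := 1)
    (by linarith) zero_le_one (R := R) (w := fun _ => 1) (Bad := c.UP (κ / 96) (A / 4) W) (by
      intro t' ht'
      set L : ι → Set ℝ := fun p => {t' | t' ∉ c.UP (κ / 96) (A / 4) W p ∧
        ∃ q, (p, q) ∈ R ∧ t' ∈ c.near (1 / 4) p q} with hL
      have b1 := hc.h3.coll_sum R (fun i hi => ⟨(hrel i hi).1, (hrel i hi).2.1, (hrel i hi).2.2.1⟩)
        (fun _ => 1) t' (fun p => ind (L p) t' + ind (c.UP (κ / 96) (A / 4) W p) t')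
        (fun p _ => add_nonneg (ind_nonneg _ _) (ind_nonneg _ _)) (by
          intro i hi hi'
          by_cases hb : t' ∈ c.UP (κ / 96) (A / 4) W i.1
          · simp only [ind_of_mem hb]
            linarith [ind_nonneg (L i.1) t']
          · simp only [ind_of_mem (show t' ∈ L i.1 from ⟨hb, i.2, hi, hi'⟩)]
            linarith [ind_nonneg (c.UP (κ / 96) (A / 4) W i.1) t'])
      rw [Finset.sum_add_distrib] at b1
      have b2 : ∑ p ∈ c.P, ind (L p) t' ≤ 6 * T * (κ / 12) := by
        apply sum_ind_le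
        intro S hS hSL
        choose! q hq1 hq2 using fun p (hp : p ∈ S) => (hSL p hp).2
        have hv : ∀ p ∈ S, 0 < |c.x (q p) - c.x p| := by
          intro p hp
          obtain ⟨a1, a2, a3, t, ht, a4⟩ := hrel _ (hq1 p hp)
          exact abs_pos.mpr (hc.dx_ne (by linarith) (by linarith) a1 a2 a3 ht a4)
        have hM : ∀ p ∈ S, c.M W p t' (ρ * |c.x (q p) - c.x p|) ≤ 2 * δ * ρ := by
          intro p hp
          obtain ⟨_, _, t, _, a3, a4⟩ := Finset.mem_filter.mp (hq1 p hp)
          have d1 := Cfg.time_shift (hq2 p hp) a3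
          have d2 : |t' - t| * (ρ * |c.x (q p) - c.x p|) ≤ V + 1 := by
            have : 0 ≤ |t' - t| * |c.x (q p) - c.x p| := by positivity
            nlinarith
          have := hc.h3.M_time hW (by linarith) p t' t d2
          simp only at a4
          linarith
        have c1 := cells S (fun z => c.Y z t') (fun _ => 1) (-(2 * T)) (5 * T) W (κ / 12 * W) hW
          (by linarith) (by positivity) (fun z hz => by
            have := hc.Y_range (hS hz) ht'
            constructor <;> linarith [this.1, this.2]) (by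
          intro S' hS' hd
          simp only [Finset.sum_const, nsmul_eq_mul, mul_one]
          apply Cfg.card_le_of_max S' (fun p => -|c.x (q p) - c.x p|) (by positivity)
          intro p0 hp0 hmin
          have hp0S := hS' hp0
          set v := |c.x (q p0) - c.x p0| with hv0
          have hv0' : 0 < v := hv p0 hp0S
          have d1 : ((S'.filter (fun p => c.x p ∉ c.cb p0 (A * v))).card : ℝ) ≤ κ / 24 * W := by
            have e1 := Cfg.card_le_cnt (c := c) (W := W) (t := t') (s := c.Y p0 t')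
              (I := univ \ c.cb p0 (A * v)) (S'.filter (fun p => c.x p ∉ c.cb p0 (A * v))) (by
                intro p hp
                have := Finset.mem_filter.mp hp
                exact ⟨hS (hS' this.1), hd p this.1 p0 hp0, mem_univ _, this.2⟩)
            have e2 : c.dens W t' (c.Y p0 t') univ - c.dens W t' (c.Y p0 t') (c.cb p0 (A * v)) ≤
                2 * (κ / 96) := by
              by_contra hn
              obtain ⟨a1, a2, a3, _⟩ := hrel _ (hq1 p0 hp0S)
              exact (hSL p0 hp0S).1 (hc.h3.coll_ubad a1 a2 a3 (hq2 p0 hp0S) (u := v) (e := 0)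
                (r' := A * v) le_rfl hv0' (by nlinarith) (le_of_eq (by ring)) (by simp)
                ordConnected_univ (subset_univ _) (not_le.mp hn))
            rw [← Cfg.dens_diff (subset_univ _)] at e2
            unfold Cfg.dens at e2
            rw [div_le_iff₀ (by linarith)] at e2
            linarith
          have d2 := cells (S'.filter (fun p => c.x p ∈ c.cb p0 (A * v))) c.x (fun _ => 1)
            (c.x p0 - A * v) (2 * (A * v)) (ρ * v) (4 * δ * ρ * W) (by positivity) (by positivity)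
            (by positivity) (fun z hz => by
              have := abs_le.mp (show |c.x z - c.x p0| ≤ A * v from (Finset.mem_filter.mp hz).2)
              constructor <;> linarith [this.1, this.2]) (by
              intro S'' hS'' hd'
              simp only [Finset.sum_const, nsmul_eq_mul, mul_one]
              apply Cfg.card_le_of_max S'' (fun _ => 0) (by positivity)
              intro p1 hp1 _
              have hp1' := (Finset.mem_filter.mp (hS'' hp1)).1
              have e1 := Cfg.card_le_cnt (c := c) (W := W) (t := t') (s := c.Y p1 t')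
                (I := c.cb p1 (ρ * |c.x (q p1) - c.x p1|)) S'' (by
                  intro p hp
                  have hp' := (Finset.mem_filter.mp (hS'' hp)).1
                  refine ⟨hS (hS' hp'), hd p hp' p1 hp1', le_trans (hd' p hp p1 hp1) ?_⟩
                  have := hmin p1 hp1'
                  exact mul_le_mul_of_nonneg_left (by linarith) hρ.le)
              have e2 := hM p1 (hS' hp1')
              unfold Cfg.M Cfg.dens at e2
              rw [div_le_iff₀ (by linarith)] at e2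
              linarith)
          simp only [Finset.sum_const, nsmul_eq_mul, mul_one] at d2
          have d3 : (2 * (A * v) / (ρ * v) + 1) * (4 * δ * ρ * W) = (2 * A + ρ) * (4 * δ * W) := by
            field_simp
          have d4 : (2 * A + ρ) * (4 * δ * W) ≤ κ / 24 * W := by
            have : (2 * A + ρ) * (4 * δ) ≤ κ / 24 := by nlinarith
            nlinarith
          have d5 := Finset.card_filter_add_card_filter_not (s := S')
            (fun p => c.x p ∈ c.cb p0 (A * v))
          have d6 : ((S'.filter (fun p => c.x p ∈ c.cb p0 (A * v))).card : ℝ) +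
              (S'.filter (fun p => c.x p ∉ c.cb p0 (A * v))).card = S'.card := by exact_mod_cast d5
          linarith)
        simp only [Finset.sum_const, nsmul_eq_mul, mul_one] at c1
        have e : (5 * T / W + 1) * (κ / 12 * W) = (5 * T + W) * (κ / 12) := by field_simp
        rw [e] at c1
        exact c1.trans (mul_le_mul_of_nonneg_right (by linarith) (by positivity))
      linarith)
  have s4 := l1 c (2 * T) (hc.mono_T (by linarith))
  have s5 := l2 c T hc
  have s6 := Cfg.palm_le_add (c := c) (T := T)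
    (E := fun p => {t | ∃ r, 0 < r ∧ μ ≤ c.M W p t r ∧ c.M W p t (ρ * r) < δ * ρ})
    (E1 := fun p => {t | (∃ r, 0 < r ∧ μ ≤ c.M W p t r ∧ c.M W p t (ρ * r) < δ * ρ) ∧
      t ∉ c.UP (μ / 8) V W p})
    (E2 := c.UP (μ / 8) V W) (by
      intro p _ t _ ht
      by_cases h : t ∈ c.UP (μ / 8) V W p
      · exact Or.inr h
      · exact Or.inl ⟨ht, h⟩)
  have s7 : c.lam (2 * T) (1 / 4) R (fun _ => 1) ≤ 4 * κ * T ^ 2 := by
    have := mul_le_mul_of_nonneg_right (show C3 / (A / 4) + κ / 4 ≤ κ / 2 by linarith)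
      (sq_nonneg (2 * T))
    nlinarith
  have s8 := s1.trans (s2.trans (mul_le_mul_of_nonneg_left s7 (by positivity)))
  have e : V / (1 / 4) * (4 * κ * T ^ 2) = V * μ / 2 * (ε / 2 * T ^ 2) := by
    rw [hκ]; ring
  rw [e] at s8
  have s9 := le_of_mul_le_mul_left s8 (by positivity)
  linarith

/-- The weighted number of neighbours of `p` with slope within `r`. -/
noncomputable def Cfg.J (c : Cfg ι) (W A ε V : ℝ) (p : ι) (t r : ℝ) : ℝ :=
  ∑ q ∈ (c.sel V t (c.Y p t) (c.cb p r)).erase p, 1 / (c.M W p t (A * |c.x q - c.x p|) + ε)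

/-- The weighted collision count. -/
theorem WC {ε : ℝ} (hε : 0 < ε) : ∀ᶠ A : ℝ in atTop, ∀ V, 1 ≤ V →
    ∀ᶠ W : ℝ in atTop, ∀ᶠ K : ℝ in atTop, ∀ (c : Cfg ι) (T : ℝ), c.Adm K T →
      ∀ N, 0 ≤ N → N * c.palm T (fun p => {t | ∃ r, N ≤ c.J W A ε V p t r}) ≤ 224 * V * T ^ 2 := by
  obtain ⟨C, hC, h1⟩ := PU (ι := ι) (show 0 < ε / 4 by positivity)
  filter_upwards [eventually_ge_atTop 4, ev_div (4 * C) (show 0 < ε / 2 by positivity)]
    with A hA hCA V hV
  filter_upwards [h1 (A / 4) (by linarith) (ε / 2) (by positivity),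
    ev_div (2 * (A * V) + 2) (show 0 < ε / 4 by positivity), eventually_gt_atTop 0] with W k1 k3 hW
  filter_upwards [k1, eventually_ge_atTop (2 * V + 1 / 4), eventually_ge_atTop W]
    with K l1 l3 l4 c T hc N hN
  have hT : 0 < T := hc.T_pos (by linarith)
  have hWT : W ≤ T := l4.trans hc.hK
  set R := (c.P ×ˢ c.P).filter (fun i : ι × ι => i.1 ≠ i.2 ∧ ∃ t, |t| ≤ T ∧ t ∈ c.near V i.1 i.2)
    with hR
  have hrel : c.Rel V T R := by
    intro i hi
    obtain ⟨a1, a2, t, ht, a3⟩ := Finset.mem_filter.mp hi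
    exact ⟨(Finset.mem_product.mp a1).1, (Finset.mem_product.mp a1).2, a2, t, ht, a3⟩
  set ts : ι × ι → ℝ := fun i => (c.y i.2 - c.y i.1) / (c.x i.2 - c.x i.1) with hts
  set w : ι × ι → ℝ := fun i => 1 / (c.M W i.1 (ts i) (A * |c.x i.2 - c.x i.1|) + 3 * ε / 4)
    with hw
  have hw0 : ∀ i, 0 < c.M W i.1 (ts i) (A * |c.x i.2 - c.x i.1|) + 3 * ε / 4 := fun i => by
    have := Cfg.M_nonneg (c := c) hW.le i.1 (ts i) (A * |c.x i.2 - c.x i.1|)
    linarith
  have hst : ∀ i ∈ R, ∀ t ∈ c.near V i.1 i.2,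
      |t - ts i| * (A * |c.x i.2 - c.x i.1|) ≤ A * V := by
    intro i hi t ht
    obtain ⟨a1, a2, a3, t0, ht0, a4⟩ := hrel i hi
    have hne := hc.dx_ne (by linarith) (by linarith) a1 a2 a3 ht0 a4
    have hts0 : ts i ∈ c.near 0 i.1 i.2 := by
      show |c.Y i.2 (ts i) - c.Y i.1 (ts i)| ≤ 0
      have : c.Y i.2 (ts i) - c.Y i.1 (ts i) = 0 := by
        simp only [Cfg.Y, hts]; field_simp; ring
      rw [this, abs_zero]
    have := mul_le_mul_of_nonneg_left (Cfg.time_shift ht hts0) (show 0 ≤ A by linarith)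
    linarith
  have s1 := Cfg.palm_le_lam (c := c) (T := T) (V := V) hN (R := R)
    (fun i hi => (hrel i hi).1) (w := w) (fun i _ => (one_div_pos.mpr (hw0 i)).le)
    (E := fun p => {t | ∃ r, N ≤ c.J W A ε V p t r}) (by
      rintro p hp t ht ⟨r, a1⟩
      have hQ : ∀ q ∈ (c.sel V t (c.Y p t) (c.cb p r)).erase p,
          (p, q) ∈ R ∧ t ∈ c.near V p q := by
        intro q hq
        have q1 := Finset.mem_erase.mp hq
        have q2 := Cfg.mem_sel.mp q1.2
        exact ⟨Finset.mem_filter.mpr ⟨Finset.mem_product.mpr ⟨hp, q2.1⟩, q1.1.symm, t, ht,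
          q2.2.1⟩, q2.2.1⟩
      refine a1.trans (le_trans ?_ (le_sum_fiber R (fun i => c.near V i.1 i.2) t w
        (fun i _ => (one_div_pos.mpr (hw0 i)).le) p _ hQ))
      refine Finset.sum_le_sum fun q hq => ?_
      apply one_div_le_one_div_of_le (hw0 (p, q))
      have b1 := hst _ (hQ q hq).1 t (hQ q hq).2
      rw [abs_sub_comm t] at b1
      have := hc.h3.M_time hW (by positivity) p (ts (p, q)) t b1
      simp only at this ⊢
      linarith)
  have s2 := hc.lam_sweep (V := V) (V' := 1 / 4) (by linarith) (by norm_num) l3 hrel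
    (w := w) (fun i _ => (one_div_pos.mpr (hw0 i)).le)
  have s3 := Cfg.lam_le (c := c) (T := 2 * T) (V := 1 / 4) (B := 12 * T) (u := 2 / ε)
    (by linarith) (by positivity) (R := R) (w := w) (Bad := c.UP (ε / 4) (A / 4) W) (by
      intro t' ht'
      have hD : ∀ p ∈ c.P, 0 < c.dens W t' (c.Y p t') univ := by
        intro p hp
        have := Cfg.card_le_cnt (c := c) (W := W) (t := t') (s := c.Y p t') (I := univ) {p} (by
          intro q hq
          rw [Finset.mem_singleton.mp hq]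
          exact ⟨hp, by simpa using hW.le, mem_univ _⟩)
        simp only [Finset.card_singleton, Nat.cast_one] at this
        exact div_pos (by linarith) (by linarith)
      have b1 := hc.h3.coll_sum R (fun i hi => ⟨(hrel i hi).1, (hrel i hi).2.1, (hrel i hi).2.2.1⟩)
        w t' (fun p => 1 / c.dens W t' (c.Y p t') univ + 2 / ε * ind (c.UP (ε / 4) (A / 4) W p) t')
        (fun p hp => add_nonneg (one_div_pos.mpr (hD p hp)).le
          (mul_nonneg (by positivity) (ind_nonneg _ _))) (by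
          intro i hi hi'
          obtain ⟨a1, a2, a3, t0, ht0, a4⟩ := hrel i hi
          have d0 := one_div_pos.mpr (hD _ a1)
          by_cases hb : t' ∈ c.UP (ε / 4) (A / 4) W i.1
          · simp only [ind_of_mem hb, mul_one]
            have : w i ≤ 2 / ε := by
              have := Cfg.M_nonneg (c := c) hW.le i.1 (ts i) (A * |c.x i.2 - c.x i.1|)
              rw [hw]
              simp only
              rw [div_le_div_iff₀ (hw0 i) hε]
              linarith
            linarith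
          · simp only [ind_of_not hb, mul_zero, add_zero]
            apply one_div_le_one_div_of_le (hD _ a1)
            have hv := abs_pos.mpr (hc.dx_ne (by linarith) (by linarith) a1 a2 a3 ht0 a4)
            have e2 : c.dens W t' (c.Y i.1 t') univ -
                c.dens W t' (c.Y i.1 t') (c.cb i.1 (A * |c.x i.2 - c.x i.1|)) ≤ 2 * (ε / 4) := by
              by_contra hn
              exact hb (hc.h3.coll_ubad a1 a2 a3 hi' (u := |c.x i.2 - c.x i.1|) (e := 0)
                (r' := A * |c.x i.2 - c.x i.1|) le_rfl hv (by nlinarith) (le_of_eq (by ring))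
                (by simp) ordConnected_univ (subset_univ _) (not_le.mp hn))
            have d1 := hst i hi t' (Cfg.near_mono (by linarith) _ _ hi')
            have := hc.h3.M_time hW (by positivity) i.1 t' (ts i) d1
            unfold Cfg.M at this ⊢
            linarith)
      rw [Finset.sum_add_distrib, ← Finset.mul_sum] at b1
      have b2 := cells c.P (fun z => c.Y z t') (fun p => 1 / c.dens W t' (c.Y p t') univ)
        (-(2 * T)) (5 * T) W (2 * W) hW (by linarith) (by linarith) (fun z hz => by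
          have := hc.Y_range hz ht'
          constructor <;> linarith [this.1, this.2]) (by
          intro S hS hd
          rcases S.eq_empty_or_nonempty with rfl | hne
          · simp only [Finset.sum_empty]; linarith
          have hcard : (0 : ℝ) < S.card := by exact_mod_cast hne.card_pos
          have d1 : ∀ p ∈ S, 1 / c.dens W t' (c.Y p t') univ ≤ 2 * W / S.card := by
            intro p hp
            have := Cfg.card_le_cnt (c := c) (W := W) (t := t') (s := c.Y p t') (I := univ) S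
              (fun q hq => ⟨hS hq, hd q hq p hp, mem_univ _⟩)
            unfold Cfg.dens
            rw [one_div_div]
            gcongr
          refine (Finset.sum_le_sum d1).trans (le_of_eq ?_)
          simp only [Finset.sum_const, nsmul_eq_mul]
          field_simp)
      have e : (5 * T / W + 1) * (2 * W) = 10 * T + 2 * W := by field_simp; ring
      rw [e] at b2
      linarith)
  have s4 := l1 c (2 * T) (hc.mono_T (by linarith))
  have s5 : 2 / ε * c.palm (2 * T) (c.UP (ε / 4) (A / 4) W) ≤ 8 * T ^ 2 := by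
    have e : C / (A / 4) = 4 * C / A := by field_simp
    have := mul_le_mul_of_nonneg_right (show C / (A / 4) + ε / 2 ≤ ε by linarith)
      (sq_nonneg (2 * T))
    refine (mul_le_mul_of_nonneg_left (s4.trans this) (by positivity)).trans (le_of_eq ?_)
    field_simp; ring
  have s6 : c.lam (2 * T) (1 / 4) R w ≤ 56 * T ^ 2 := by nlinarith
  refine s1.trans (s2.trans ((mul_le_mul_of_nonneg_left s6 (by positivity)).trans (le_of_eq ?_)))
  ring

end Pool.Agent.Lib.MP_dd58da_co
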