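import Pool.Agent.Lib.MP_dd58da_co.Meas

set_option autoImplicit false

open MeasureTheory Set Filter
open scoped Classical

namespace Pool.Agent.Lib.MP_dd58da_co

/-- Lebesgue measure on the box `[-T, T] × [-3T, 3T]`. -/
noncomputable def bx (T : ℝ) : Measure (ℝ × ℝ) := (mu T).prod (mu (3 * T))

instance (T : ℝ) : IsFiniteMeasure (bx T) := by
  unfold bx; infer_instance

theorem bx_eq (T : ℝ) :
    bx T = volume.restrict (Icc (-T) T ×ˢ Icc (-(3 * T)) (3 * T)) := by
  unfold bx mu
  rw [Measure.prod_restrict]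
  rfl

theorem bx_ae (T : ℝ) : ∀ᵐ z ∂bx T, |z.1| ≤ T ∧ |z.2| ≤ 3 * T := by
  rw [bx_eq]
  filter_upwards [ae_restrict_mem (measurableSet_Icc.prod measurableSet_Icc)] with z hz
  exact ⟨abs_le.mpr hz.1, abs_le.mpr hz.2⟩

theorem bx_univ {T : ℝ} (hT : 0 ≤ T) : (bx T).real univ = 12 * T ^ 2 := by
  unfold bx
  rw [← univ_prod_univ, measureReal_prod_prod, mu_univ hT, mu_univ (by linarith)]
  ring

theorem integral_const_bx {T : ℝ} (hT : 0 ≤ T) (B : ℝ) : ∫ _z, B ∂bx T = 12 * T ^ 2 * B := by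
  rw [integral_const, bx_univ hT, smul_eq_mul]

theorem bx_mono {T : ℝ} {E E' : Set (ℝ × ℝ)}
    (h : ∀ z, |z.1| ≤ T → |z.2| ≤ 3 * T → z ∈ E → z ∈ E') : (bx T).real E ≤ (bx T).real E' :=
  real_mono_ae (by filter_upwards [bx_ae T] with z hz using h z hz.1 hz.2)

theorem bx_le_add {T : ℝ} {E E1 E2 : Set (ℝ × ℝ)}
    (h : ∀ z, |z.1| ≤ T → |z.2| ≤ 3 * T → z ∈ E → z ∈ E1 ∨ z ∈ E2) :
    (bx T).real E ≤ (bx T).real E1 + (bx T).real E2 :=
  (bx_mono (E' := E1 ∪ E2) h).trans (measureReal_union_le _ _)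

theorem sec_eq (T : ℝ) {G : Set (ℝ × ℝ)} (hG : MeasurableSet G) (t : ℝ) :
    ∫ s, ind G (t, s) ∂mu (3 * T) = (mu (3 * T)).real (Prod.mk t ⁻¹' G) := by
  rw [← integral_ind (measurable_prodMk_left hG)]
  rfl

theorem bx_apply (T : ℝ) {G : Set (ℝ × ℝ)} (hG : MeasurableSet G) :
    Integrable (fun t => (mu (3 * T)).real (Prod.mk t ⁻¹' G)) (mu T) ∧
      (bx T).real G = ∫ t, (mu (3 * T)).real (Prod.mk t ⁻¹' G) ∂mu T := by
  have hi : Integrable (ind G) ((mu T).prod (mu (3 * T))) := integrable_ind hG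
  constructor
  · have := hi.integral_prod_left
    simpa only [sec_eq T hG] using this
  · rw [← integral_ind hG]
    unfold bx
    rw [integral_prod _ hi]
    simp only [sec_eq T hG]

theorem section_le {T h : ℝ} (hh : 0 ≤ h) {G : Set (ℝ × ℝ)} (hG : MeasurableSet G) {E : Set ℝ}
    (hE : ∀ t, |t| ≤ T → t ∈ E → h ≤ (mu (3 * T)).real (Prod.mk t ⁻¹' G)) :
    h * (mu T).real E ≤ (bx T).real G := by
  obtain ⟨h1, h2⟩ := bx_apply T hG
  rw [h2]
  apply markov h1 (Eventually.of_forall fun _ => measureReal_nonneg) hh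
  filter_upwards [mu_ae T] with t ht using hE t ht

theorem window_eq (a h : ℝ) : {s : ℝ | |a - s| ≤ h} = Icc (a - h) (a + h) := by
  ext s
  simp only [mem_ofPred_eq, mem_Icc, abs_le]
  constructor <;> rintro ⟨h1, h2⟩ <;> constructor <;> linarith

theorem mu_window_le (T a : ℝ) {h : ℝ} (hh : 0 ≤ h) :
    (mu T).real {s : ℝ | |a - s| ≤ h} ≤ 2 * h := by
  rw [window_eq]
  refine (mu_le_vol (by simp)).trans (le_of_eq ?_)
  rw [Real.volume_real_Icc_of_le (by linarith)]
  ring

theorem mu_window_eq {T a h : ℝ} (hh : 0 ≤ h) (ha : |a| + h ≤ T) :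
    (mu T).real {s : ℝ | |a - s| ≤ h} = 2 * h := by
  rw [mu_eq_vol, window_eq, Real.volume_real_Icc_of_le (by linarith)]
  · ring
  · intro s hs
    have h1 : |a - s| ≤ h := hs
    have := abs_sub a (a - s)
    simp only [sub_sub_cancel] at this
    linarith

namespace Cfg

variable {ι : Type} (c : Cfg ι)

def strip (F : Set ℝ) (p : ι) (h : ℝ) : Set (ℝ × ℝ) := {z | z.1 ∈ F ∧ |c.Y p z.1 - z.2| ≤ h}

variable {c}

theorem measurable_rel (p : ι) : Measurable (fun z : ℝ × ℝ => c.Y p z.1 - z.2) :=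
  ((measurable_Y p).comp measurable_fst).sub measurable_snd

theorem measurable_strip {F : Set ℝ} (hF : MeasurableSet F) (p : ι) (h : ℝ) :
    MeasurableSet (c.strip F p h) :=
  (measurable_fst hF).inter (measurableSet_le (measurable_rel p).abs measurable_const)

theorem strip_le (T : ℝ) {F : Set ℝ} (hF : MeasurableSet F) (p : ι) {h : ℝ} (hh : 0 ≤ h) :
    (bx T).real (c.strip F p h) ≤ 2 * h * (mu T).real F := by
  obtain ⟨h1, h2⟩ := bx_apply T (measurable_strip (c := c) hF p h)
  rw [h2, ← integral_ind hF, ← integral_const_mul]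
  apply integral_mono h1 ((integrable_ind hF).const_mul _)
  intro t
  by_cases ht : t ∈ F
  · simp only [ind_of_mem ht, mul_one]
    refine le_trans (measureReal_mono ?_) (mu_window_le (3 * T) (c.Y p t) hh)
    intro s hs
    exact hs.2
  · have : Prod.mk t ⁻¹' c.strip F p h = ∅ := by
      ext s
      simp only [mem_preimage, mem_empty_iff_false, iff_false]
      exact fun hs => ht hs.1
    simp [ind_of_not ht, this]

theorem Adm.abs_Y {K T : ℝ} (hc : c.Adm K T) {p : ι} (hp : p ∈ c.P) {t : ℝ} (ht : |t| ≤ T) :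
    |c.Y p t| ≤ 2 * T := by
  have := hc.Y_range hp ht
  have h0 : 0 ≤ T := (abs_nonneg _).trans ht
  rw [abs_le]
  constructor <;> linarith [this.1, this.2]

theorem Adm.strip_ge {K T : ℝ} (hc : c.Adm K T) {F : Set ℝ} (hF : MeasurableSet F) {p : ι}
    (hp : p ∈ c.P) {h : ℝ} (hh : 0 ≤ h) (hT : h ≤ T) :
    2 * h * (mu T).real F ≤ (bx T).real (c.strip F p h) := by
  apply section_le (by linarith) (measurable_strip hF p h)
  intro t ht htF
  rw [← mu_window_eq (T := 3 * T) (a := c.Y p t) hh (by linarith [hc.abs_Y hp ht])]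
  exact measureReal_mono fun s hs => ⟨htF, hs⟩

/-- Transfer from area to point-centred time measure. -/
theorem Adm.palm_le_area {K T : ℝ} (hc : c.Adm K T) (hT : 1 ≤ T) {E : ι → Set ℝ}
    {B : Set (ℝ × ℝ)}
    (h : ∀ p ∈ c.P, ∀ t, |t| ≤ T → t ∈ E p → ∀ s, |c.Y p t - s| ≤ 1 / 2 → (t, s) ∈ B) :
    c.palm T E ≤ 2 * (bx T).real B := by
  set B' := toMeasurable (bx T) B with hB'
  have hB'm : MeasurableSet B' := measurableSet_toMeasurable _ _
  have hm : ∀ p ∈ c.P, MeasurableSet (c.strip univ p (1 / 2) ∩ B') :=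
    fun p _ => (measurable_strip MeasurableSet.univ p _).inter hB'm
  have h1 : ∀ p ∈ c.P, (mu T).real (E p) ≤ 1 * (bx T).real (c.strip univ p (1 / 2) ∩ B') := by
    intro p hp
    have := section_le (T := T) (h := 1) zero_le_one (hm p hp) (E := E p) (by
      intro t ht htE
      have e := mu_window_eq (T := 3 * T) (a := c.Y p t) (h := 1 / 2) (by norm_num)
        (by linarith [hc.abs_Y hp ht])
      rw [show (2 : ℝ) * (1 / 2) = 1 by norm_num] at e
      refine le_trans e.ge (measureReal_mono fun s hs => ?_)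
      exact ⟨⟨mem_univ _, hs⟩, subset_toMeasurable _ _ (h p hp t ht htE s hs)⟩)
    linarith
  have h2 := integral_sum_ind (μ := bx T) c.P (fun _ => 1) _ hm
  have h3 := upper1 (μ := bx T) (integrable_sum_ind c.P (fun _ => 1) _ hm) (integrable_const 0)
    B' (u := 2) (by norm_num) (Eventually.of_forall (by
      intro z
      by_cases hz : z ∈ B'
      · simp only [one_mul, ind_of_mem hz, zero_add, mul_one]
        apply sum_ind_le
        intro S hS hz
        have := hc.h3.card_le_two z.1 S hS (by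
            intro a ha b hb
            have a1 := abs_le.mp (hz a ha).1.2
            have b1 := abs_le.mp (hz b hb).1.2
            rw [abs_le]
            constructor <;> linarith [a1.1, a1.2, b1.1, b1.2])
        exact_mod_cast this
      · have : ∀ i ∈ c.P, 1 * ind (c.strip univ i (1 / 2) ∩ B') z = 0 := by
          intro i _
          rw [ind_of_not (fun h => hz h.2)]
          simp
        rw [Finset.sum_eq_zero this, ind_of_not hz]
        simp))
  rw [h2] at h3
  have h4 : (bx T).real B' = (bx T).real B := by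
    simp [hB', Measure.real, measure_toMeasurable]
  rw [h4] at h3
  simp only [integral_zero, zero_add] at h3
  exact (Finset.sum_le_sum h1).trans h3

theorem measurable_cnt (W : ℝ) (I : Set ℝ) :
    Measurable (fun z : ℝ × ℝ => c.cnt W z.1 z.2 I) := by
  have : (fun z : ℝ × ℝ => c.cnt W z.1 z.2 I) =
      fun z => ∑ p ∈ c.P.filter (fun p => c.x p ∈ I), ind (c.strip univ p W) z := by
    funext z
    rw [sum_ind]
    unfold cnt
    congr 2
    ext p
    simp only [mem_sel, Finset.mem_filter, strip, mem_ofPred_eq, mem_univ, true_and]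
    tauto
  rw [this]
  exact Finset.measurable_sum _ fun p _ => measurable_ind (measurable_strip MeasurableSet.univ p W)

end Cfg

end Pool.Agent.Lib.MP_dd58da_co
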