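import Pool.Agent.Lib.MP_dd58da_co.Rank

set_option autoImplicit false

open MeasureTheory Set Filter
open scoped Classical

namespace Pool.Agent.Lib.MP_dd58da_co

namespace Cfg

variable {ι : Type} {c : Cfg ι}

theorem card_le_of_max (Q : Finset ι) (f : ι → ℝ) {B : ℝ} (hB : 0 ≤ B)
    (h : ∀ q ∈ Q, (∀ q' ∈ Q, f q' ≤ f q) → (Q.card : ℝ) ≤ B) : (Q.card : ℝ) ≤ B := by
  rcases Q.eq_empty_or_nonempty with rfl | hne
  · simpa using hB
  · obtain ⟨q, hq, hm⟩ := Q.exists_max_image f hne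
    exact h q hq hm

theorem card_le_cnt {W t s : ℝ} {I : Set ℝ} (Q : Finset ι)
    (h : ∀ q ∈ Q, q ∈ c.P ∧ |c.Y q t - s| ≤ W ∧ c.x q ∈ I) : (Q.card : ℝ) ≤ c.cnt W t s I := by
  unfold cnt
  exact_mod_cast Finset.card_le_card fun q hq => mem_sel.mpr (h q hq)

theorem card_rank_close {V t Z : ℝ} (hZ : 0 ≤ Z) (p : ι) (Q : Finset ι)
    (h : ∀ q ∈ Q, q ∈ c.P ∧ t ∈ c.near V p q ∧ c.cnt V t (c.Y p t) (uIcc (c.x p) (c.x q)) ≤ Z) :
    (Q.card : ℝ) ≤ 2 * Z := by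
  have h1 : ((Q.filter (fun q => c.x p ≤ c.x q)).card : ℝ) ≤ Z := by
    apply card_le_of_max _ c.x hZ
    intro q hq hm
    have hq' := Finset.mem_filter.mp hq
    refine le_trans (card_le_cnt _ fun q' hq'' => ?_) (h q hq'.1).2.2
    have h2 := Finset.mem_filter.mp hq''
    refine ⟨(h q' h2.1).1, (h q' h2.1).2.1, ?_⟩
    rw [uIcc_of_le hq'.2]
    exact ⟨h2.2, hm q' hq''⟩
  have h2 : ((Q.filter (fun q => ¬ c.x p ≤ c.x q)).card : ℝ) ≤ Z := by
    apply card_le_of_max _ (fun q => -c.x q) hZ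
    intro q hq hm
    have hq' := Finset.mem_filter.mp hq
    refine le_trans (card_le_cnt _ fun q' hq'' => ?_) (h q hq'.1).2.2
    have h2 := Finset.mem_filter.mp hq''
    refine ⟨(h q' h2.1).1, (h q' h2.1).2.1, ?_⟩
    rw [uIcc_of_ge (not_le.mp hq'.2).le]
    exact ⟨by linarith [hm q' hq''], (not_le.mp h2.2).le⟩
  have h3 := Finset.card_filter_add_card_filter_not (s := Q) (fun q => c.x p ≤ c.x q)
  have h4 : ((Q.filter (fun q => c.x p ≤ c.x q)).card : ℝ) +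
      (Q.filter (fun q => ¬ c.x p ≤ c.x q)).card = Q.card := by exact_mod_cast h3
  linarith

/-- Intervals with few points at the large scale rarely have many points at the small scale. -/
theorem Adm.lemM {K T β W Kw Z : ℝ} (hc : c.Adm K T) (hW : 1 ≤ W) (hβ : 1 ≤ β * W)
    (hKw : 6 * W ≤ Kw) (hK : Kw ≤ K) (hZ : 0 ≤ Z) :
    (bx T).real {z | ∃ I : Set ℝ, I.OrdConnected ∧ c.cnt Kw z.1 z.2 I ≤ Z ∧
      β < c.dens W z.1 z.2 I} ≤ 256 * Z / (Kw * β ^ 2) * T ^ 2 := by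
  have hT : 1 ≤ T := by linarith [hc.hK]
  have hβ0 : 0 < β := by
    by_contra hn
    have := mul_nonpos_of_nonpos_of_nonneg (not_lt.mp hn) (show 0 ≤ W by linarith)
    linarith
  set R := (c.P ×ˢ c.P).filter (fun i : ι × ι => i.1 ≠ i.2 ∧ ∃ t s, |t| ≤ T ∧
    |c.Y i.1 t - s| ≤ W ∧ |c.Y i.2 t - s| ≤ W ∧ c.cnt Kw t s (uIcc (c.x i.1) (c.x i.2)) ≤ Z)
    with hR
  have hn2 : ∀ {p q : ι} {t s : ℝ}, |c.Y p t - s| ≤ W → |c.Y q t - s| ≤ W →
      t ∈ c.near (2 * W) p q := by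
    intro p q t s h1 h2
    show |c.Y q t - c.Y p t| ≤ 2 * W
    rw [abs_le] at h1 h2 ⊢
    constructor <;> linarith [h1.1, h1.2, h2.1, h2.2]
  have hrel : c.Rel (2 * W) T R := by
    intro i hi
    obtain ⟨h1, h2, t, s, ht, h3, h4, _⟩ := Finset.mem_filter.mp hi
    exact ⟨(Finset.mem_product.mp h1).1, (Finset.mem_product.mp h1).2, h2, t, ht, hn2 h3 h4⟩
  have hm : ∀ i ∈ R, MeasurableSet (c.strip (c.near (2 * W) i.1 i.2) i.1 W) :=
    fun i _ => measurable_strip (measurable_near _ _ _) _ _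
  have s1 := markov (μ := bx T) (integrable_sum_ind R (fun _ => 1) _ hm)
    (Eventually.of_forall fun z => Finset.sum_nonneg fun i _ =>
      mul_nonneg zero_le_one (ind_nonneg _ _))
    (E := {z | ∃ I : Set ℝ, I.OrdConnected ∧ c.cnt Kw z.1 z.2 I ≤ Z ∧ β < c.dens W z.1 z.2 I})
    (N := 2 * β ^ 2 * W ^ 2) (by positivity) (by
      filter_upwards [bx_ae T] with z hz
      rintro ⟨I, hI, h1, h2⟩
      simp only [one_mul]
      have h3 := le_sum_ind R (fun i => c.strip (c.near (2 * W) i.1 i.2) i.1 W) z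
        (c.sel W z.1 z.2 I).offDiag (by
          intro i hi
          obtain ⟨a1, a2, a3⟩ := Finset.mem_offDiag.mp hi
          rw [mem_sel] at a1 a2
          refine Finset.mem_filter.mpr ⟨Finset.mem_product.mpr ⟨a1.1, a2.1⟩, a3, z.1, z.2, hz.1,
            a1.2.1, a2.2.1, le_trans (cnt_mono fun y _ b1 b2 => ⟨b1, ?_⟩) h1⟩
          exact hI.uIcc_subset a1.2.2 a2.2.2 b2) (by
          intro i hi
          obtain ⟨a1, a2, _⟩ := Finset.mem_offDiag.mp hi
          rw [mem_sel] at a1 a2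
          exact ⟨hn2 a1.2.1 a2.2.1, a1.2.1⟩)
      rw [Finset.offDiag_card, Nat.cast_sub (Nat.le_mul_self _), Nat.cast_mul] at h3
      unfold dens cnt at h2
      rw [lt_div_iff₀ (by linarith)] at h2
      nlinarith)
  rw [integral_sum_ind R (fun _ => 1) _ hm] at s1
  have s2 : ∑ i ∈ R, 1 * (bx T).real (c.strip (c.near (2 * W) i.1 i.2) i.1 W) ≤
      2 * W * c.lam T (2 * W) R (fun _ => 1) := by
    unfold lam
    rw [Finset.mul_sum]
    refine Finset.sum_le_sum fun i _ => ?_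
    simp only [one_mul]
    exact strip_le T (measurable_near _ _ _) _ (by linarith)
  have s3 := hc.lam_sweep (V := 2 * W) (V' := Kw / 4) (by linarith) (by linarith) (by linarith)
    hrel (w := fun _ => 1) (fun _ _ => zero_le_one)
  have s4 := lam_le (c := c) (T := 2 * T) (V := Kw / 4) (B := 8 * Z * T) (u := 0) (by linarith)
    le_rfl (R := R) (w := fun _ => 1) (Bad := fun _ => ∅) (by
      intro t' _
      simp only [one_mul, zero_mul, add_zero]
      refine (sum_pairs_le c.P R (fun i hi => (hrel i hi).1)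
        (fun i => c.near (Kw / 4) i.1 i.2) t' (fun _ => 2 * Z) ?_).trans ?_
      · intro p _ Q hQ
        apply card_rank_close (c := c) (V := Kw / 4) (t := t') hZ p
        intro q hq
        obtain ⟨h1, h2⟩ := hQ q hq
        obtain ⟨h3, _, t, s, _, h4, h5, h6⟩ := Finset.mem_filter.mp h1
        refine ⟨(Finset.mem_product.mp h3).2, h2, le_trans (cnt_mono fun y _ b1 b2 => ⟨?_, b2⟩) h6⟩
        have b3 := time_shift (hn2 h4 h5) h2
        have b4 := mul_le_mul_of_nonneg_left (abs_sub_left_of_mem_uIcc b2) (abs_nonneg (t - t'))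
        have e : c.Y y t - s = ((c.Y y t' - c.Y p t') - (t - t') * (c.x y - c.x p)) +
            (c.Y p t - s) := by simp only [Y]; ring
        rw [e]
        have b5 := abs_add_le ((c.Y y t' - c.Y p t') - (t - t') * (c.x y - c.x p)) (c.Y p t - s)
        have b6 := abs_sub (c.Y y t' - c.Y p t') ((t - t') * (c.x y - c.x p))
        rw [abs_mul] at b6
        simp only at h4 b3
        linarith
      · have := hc.card_le hT
        simp only [Finset.sum_const, nsmul_eq_mul]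
        nlinarith)
  have s5 : 2 * β ^ 2 * W ^ 2 * (bx T).real {z | ∃ I : Set ℝ, I.OrdConnected ∧
      c.cnt Kw z.1 z.2 I ≤ Z ∧ β < c.dens W z.1 z.2 I} ≤
      2 * W * (2 * W / (Kw / 4) * (2 * (2 * T) * (8 * Z * T))) := by
    refine s1.trans (s2.trans (mul_le_mul_of_nonneg_left (s3.trans ?_) (by linarith)))
    apply mul_le_mul_of_nonneg_left _ (div_nonneg (by linarith) (by linarith))
    linarith
  have hKw0 : 0 < Kw := by linarith
  have e : 2 * W * (2 * W / (Kw / 4) * (2 * (2 * T) * (8 * Z * T))) =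
      2 * β ^ 2 * W ^ 2 * (256 * Z / (Kw * β ^ 2) * T ^ 2) := by
    field_simp; ring
  rw [e] at s5
  exact le_of_mul_le_mul_left s5 (by positivity)

variable (c) in
def UB (ε V W : ℝ) : Set (ℝ × ℝ) := {z | c.Ubad ε V W z.1 z.2}

theorem Adm.Ubase {K T V W ε ζ : ℝ} (hc : c.Adm K T) (hε : 0 < ε) (hζ : 0 < ζ) (hζ1 : ζ ≤ 1)
    (hV : 1 ≤ V) (hVW : V ≤ W) (Z : ℕ) (hZ : 3 ≤ Z) (hWZ : W ≤ Z) (hK : 6 * W ≤ K) :
    (bx T).real (c.UB ε V W) ≤
      16 * (4 / ζ + 2) / ε ^ 2 * (144 / V + 27648 * W / Z + 6912 * W / K) * T ^ 2 +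
      (bx T).real {z | ∃ a, ε / 4 < c.dens W z.1 z.2 (c.blk (Z / ζ) Z z.1 z.2 a)} := by
  have hZ' : (3 : ℝ) ≤ Z := by exact_mod_cast hZ
  have hWK : W ≤ Z / ζ := by
    rw [le_div_iff₀ hζ]
    nlinarith
  have s1 := bx_le_add (T := T) (E := c.UB ε V W)
    (E1 := {z | ε ^ 2 * Z ^ 2 / 16 ≤ (4 * (Z / ζ) + 3 + Z) * c.En V W (Z / ζ) Z z})
    (E2 := {z | ∃ a, ε / 4 < c.dens W z.1 z.2 (c.blk (Z / ζ) Z z.1 z.2 a)}) (by
      intro z _ _ hz
      by_cases h : ∃ a, ε / 4 < c.dens W z.1 z.2 (c.blk (Z / ζ) Z z.1 z.2 a)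
      · exact Or.inr h
      · push Not at h
        exact Or.inl (hc.h3.D1 hε (by linarith) hVW hWK Z h hz))
  have hpos : 0 ≤ 4 * (Z / ζ) + 3 + Z := by positivity
  have s2 := markov (μ := bx T)
    ((integrable_En (c := c) hV hVW (Z / ζ) Z T).const_mul (4 * (Z / ζ) + 3 + Z))
    (Eventually.of_forall fun z => mul_nonneg hpos (En_nonneg _ _ _ _ _))
    (E := {z | ε ^ 2 * Z ^ 2 / 16 ≤ (4 * (Z / ζ) + 3 + Z) * c.En V W (Z / ζ) Z z})
    (N := ε ^ 2 * Z ^ 2 / 16) (by positivity) (Eventually.of_forall fun z hz => hz)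
  rw [integral_const_mul] at s2
  have s3 := hc.L2 (Kw := Z / ζ) hV hVW hK Z
  have hK0 : 0 < K := by linarith
  have hW0 : 0 < W := by linarith
  have s4 : (4 * (Z / ζ) + 3 + Z) * (T ^ 2 * (144 * Z / V + 27648 * W + 6912 * Z * W / K)) ≤
      ε ^ 2 * Z ^ 2 / 16 *
        (16 * (4 / ζ + 2) / ε ^ 2 * (144 / V + 27648 * W / Z + 6912 * W / K) * T ^ 2) := by
    have e : ε ^ 2 * Z ^ 2 / 16 *
        (16 * (4 / ζ + 2) / ε ^ 2 * (144 / V + 27648 * W / Z + 6912 * W / K) * T ^ 2) =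
        (4 * (Z / ζ) + 2 * Z) * (T ^ 2 * (144 * Z / V + 27648 * W + 6912 * Z * W / K)) := by
      field_simp
    rw [e]
    apply mul_le_mul_of_nonneg_right (by linarith) (by positivity)
  have s5 := le_of_mul_le_mul_left
    (s2.trans ((mul_le_mul_of_nonneg_left s3 hpos).trans s4)) (by positivity)
  linarith

end Cfg

theorem ev_div (a : ℝ) {η : ℝ} (hη : 0 < η) : ∀ᶠ K : ℝ in atTop, a / K ≤ η := by
  filter_upwards [eventually_ge_atTop (|a| / η), eventually_gt_atTop 0] with K h1 h2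
  rw [div_le_iff₀ h2]
  rw [div_le_iff₀ hη] at h1
  linarith [le_abs_self a]

theorem exists_nat_div (a b : ℝ) {η : ℝ} (hη : 0 < η) : ∃ Z : ℕ, 3 ≤ Z ∧ b ≤ Z ∧ a / Z ≤ η := by
  have h1 : ∀ᶠ Z : ℕ in atTop, a / (Z : ℝ) ≤ η :=
    tendsto_natCast_atTop_atTop.eventually (ev_div a hη)
  have h2 : ∀ᶠ Z : ℕ in atTop, b ≤ (Z : ℝ) :=
    tendsto_natCast_atTop_atTop.eventually (eventually_ge_atTop b)
  obtain ⟨Z, h3, h4, h5⟩ := ((eventually_ge_atTop 3).and (h2.and h1)).exists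
  exact ⟨Z, h3, h4, h5⟩

variable {ι : Type}

/-- Uniformity of the slope distribution across window sizes, qualitative form. -/
theorem U0 {ε ε' : ℝ} (hε : 0 < ε) (hε' : 0 < ε') :
    ∀ᶠ V : ℝ in atTop, ∀ W, V ≤ W → ∀ᶠ K : ℝ in atTop, ∀ (c : Cfg ι) (T : ℝ), c.Adm K T →
      (bx T).real (c.UB ε V W) ≤ ε' * T ^ 2 := by
  set ζ := min 1 (ε' * ε ^ 2 / 8192) with hζ
  have hζ0 : 0 < ζ := lt_min one_pos (by positivity)
  have hζ1 : ζ ≤ 1 := min_le_left _ _
  have hζ2 : ζ ≤ ε' * ε ^ 2 / 8192 := min_le_right _ _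
  set A := 16 * (4 / ζ + 2) / ε ^ 2 with hA
  have hA0 : 0 < A := by positivity
  filter_upwards [ev_div (A * 144) (show 0 < ε' / 6 by positivity), eventually_ge_atTop 1,
    eventually_ge_atTop (4 / ε)] with V h1 h2 h3 W hVW
  obtain ⟨Z, hZ1, hZ2, hZ3⟩ := exists_nat_div (A * (27648 * W)) (6 * W)
    (show 0 < ε' / 6 by positivity)
  filter_upwards [ev_div (A * (6912 * W)) (show 0 < ε' / 6 by positivity),
    eventually_ge_atTop (6 * W), eventually_gt_atTop (2 * (Z / ζ))] with K k1 k2 k3 c T hc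
  have hZ' : (3 : ℝ) ≤ Z := by exact_mod_cast hZ1
  have hKw : (Z : ℝ) ≤ Z / ζ := by
    rw [le_div_iff₀ hζ0]; nlinarith
  have s1 := hc.Ubase hε hζ0 hζ1 h2 hVW Z hZ1 (by linarith) k2
  have s2 := hc.lemM (β := ε / 4) (W := W) (Kw := Z / ζ) (Z := Z) (by linarith) (by
    rw [div_le_iff₀ hε] at h3; nlinarith) (by linarith) (by linarith) (by linarith)
  have s3 : (bx T).real {z | ∃ a, ε / 4 < c.dens W z.1 z.2 (c.blk (Z / ζ) Z z.1 z.2 a)} ≤
      (bx T).real {z | ∃ I : Set ℝ, I.OrdConnected ∧ c.cnt (Z / ζ) z.1 z.2 I ≤ Z ∧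
        ε / 4 < c.dens W z.1 z.2 I} := by
    apply bx_mono
    rintro z hz _ ⟨a, ha⟩
    exact ⟨_, Cfg.blk_ord _ _ _ _ a, (hc.inj (by linarith) k3 hz z.2).cnt_blk Z a, ha⟩
  have e1 : 256 * Z / (Z / ζ * (ε / 4) ^ 2) = 4096 * ζ / ε ^ 2 := by
    field_simp; ring
  have s4 : 4096 * ζ / ε ^ 2 ≤ ε' / 2 := by
    rw [div_le_iff₀ (by positivity)]; linarith
  rw [e1] at s2
  have e2 : A * (144 / V + 27648 * W / Z + 6912 * W / K) =
      A * 144 / V + A * (27648 * W) / Z + A * (6912 * W) / K := by ring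
  rw [← hA, e2] at s1
  have := sq_nonneg T
  nlinarith

/-- Uniformity with the sharp dependence on the smaller window. -/
theorem U1 {ε : ℝ} (hε : 0 < ε) : ∃ C : ℝ, 1 ≤ C ∧ ∀ V, 1 ≤ V → ∀ ε', 0 < ε' →
    ∀ᶠ W : ℝ in atTop, ∀ᶠ K : ℝ in atTop, ∀ (c : Cfg ι) (T : ℝ), c.Adm K T →
      (bx T).real (c.UB ε V W) ≤ (C / V + ε') * T ^ 2 := by
  set ζ := min 1 (ε / 4) with hζ
  have hζ0 : 0 < ζ := lt_min one_pos (by positivity)
  have hζ1 : ζ ≤ 1 := min_le_left _ _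
  have hζ2 : ζ ≤ ε / 4 := min_le_right _ _
  set A := 16 * (4 / ζ + 2) / ε ^ 2 with hA
  have hA0 : 0 < A := by positivity
  refine ⟨A * 144 + 1, by linarith, fun V hV ε' hε' => ?_⟩
  filter_upwards [U0 (ι := ι) (show 0 < ε / 8 by positivity) (show 0 < ε' / 3 by positivity),
    eventually_ge_atTop V] with W hW hVW
  obtain ⟨Z, hZ1, hZ2, hZ3⟩ := exists_nat_div (A * (27648 * W)) W
    (show 0 < ε' / 3 by positivity)
  have hZ' : (3 : ℝ) ≤ Z := by exact_mod_cast hZ1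
  have hKw : (Z : ℝ) ≤ Z / ζ := by
    rw [le_div_iff₀ hζ0]; nlinarith
  filter_upwards [ev_div (A * (6912 * W)) (show 0 < ε' / 3 by positivity),
    eventually_ge_atTop (6 * W), eventually_gt_atTop (2 * (Z / ζ)), hW (Z / ζ) (by linarith)]
    with K k1 k2 k3 k4 c T hc
  have s1 := hc.Ubase hε hζ0 hζ1 hV hVW Z hZ1 hZ2 k2
  have s2 := k4 c T hc
  have s3 : (bx T).real {z | ∃ a, ε / 4 < c.dens W z.1 z.2 (c.blk (Z / ζ) Z z.1 z.2 a)} ≤
      (bx T).real (c.UB (ε / 8) W (Z / ζ)) := by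
    apply bx_mono
    rintro z hz _ ⟨a, ha⟩
    refine ⟨_, Cfg.blk_ord (c := c) (Z / ζ) Z z.1 z.2 a, lt_of_lt_of_le ?_ (le_abs_self _)⟩
    have h1 := (hc.inj (Kw := Z / ζ) (by linarith) k3 hz z.2).cnt_blk Z a
    have h2 : c.dens (Z / ζ) z.1 z.2 (c.blk (Z / ζ) Z z.1 z.2 a) ≤ ζ / 2 := by
      unfold Cfg.dens
      rw [div_le_iff₀ (by positivity)]
      refine h1.trans (le_of_eq ?_)
      field_simp
    linarith
  have e2 : A * (144 / V + 27648 * W / Z + 6912 * W / K) =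
      A * 144 / V + A * (27648 * W) / Z + A * (6912 * W) / K := by ring
  rw [← hA, e2] at s1
  have e3 : A * 144 / V ≤ (A * 144 + 1) / V := by gcongr; linarith
  have := sq_nonneg T
  nlinarith

/-- The times at which the window around `p` is not uniform. -/
def Cfg.UP (c : Cfg ι) (ε V W : ℝ) (p : ι) : Set ℝ := {t | c.Ubad ε V W t (c.Y p t)}

/-- Point-centred uniformity. -/
theorem PU {ε : ℝ} (hε : 0 < ε) : ∃ C : ℝ, 1 ≤ C ∧ ∀ V, 1 ≤ V → ∀ ε', 0 < ε' →
    ∀ᶠ W : ℝ in atTop, ∀ᶠ K : ℝ in atTop, ∀ (c : Cfg ι) (T : ℝ), c.Adm K T →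
      c.palm T (c.UP ε V W) ≤ (C / V + ε') * T ^ 2 := by
  obtain ⟨C, hC, h⟩ := U1 (ι := ι) (show 0 < ε / 2 by positivity)
  refine ⟨2 * C + 96 / ε, by have : 0 < 96 / ε := by positivity
                             linarith, fun V hV ε' hε' => ?_⟩
  filter_upwards [h V hV (ε' / 2) (by positivity), eventually_ge_atTop V] with W hW hVW
  filter_upwards [hW, eventually_ge_atTop 1] with K k1 k2 c T hc
  have hT : 1 ≤ T := k2.trans hc.hK
  have hV0 : 0 < V := by linarith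
  have hT2 := sq_nonneg T
  rcases le_total V (12 / ε) with hs | hs
  · have s1 : c.palm T (c.UP ε V W) ≤ c.palm T (fun _ => univ) :=
      Cfg.palm_mono fun _ _ _ _ _ => mem_univ _
    rw [Cfg.palm_univ (by linarith)] at s1
    have s2 := hc.card_le hT
    have s3 : 8 ≤ (2 * C + 96 / ε) / V := by
      rw [le_div_iff₀ hV0]
      have : 96 / ε = 8 * (12 / ε) := by ring
      linarith
    nlinarith
  · have s1 := hc.palm_le_area hT (E := c.UP ε V W) (B := c.UB (ε / 2) V W) (by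
      rintro p _ t _ ⟨I, hI, hU⟩ s hs'
      refine ⟨I, hI, ?_⟩
      have a1 := hc.h3.dens_shift hV0 t _ _ I hs'
      have a2 := hc.h3.dens_shift hV0 t _ _ I (show |s - c.Y p t| ≤ 1 / 2 by rwa [abs_sub_comm])
      have a3 := hc.h3.dens_shift (W := W) (by linarith) t _ _ I hs'
      have a4 := hc.h3.dens_shift (W := W) (by linarith) t _ _ I
        (show |s - c.Y p t| ≤ 1 / 2 by rwa [abs_sub_comm])
      have a5 : (2 * (1 / 2) + 2) / V ≤ ε / 4 := by
        rw [div_le_iff₀ hV0]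
        rw [div_le_iff₀ hε] at hs
        linarith
      have a6 : (2 * (1 / 2) + 2) / W ≤ (2 * (1 / 2) + 2) / V := by gcongr
      simp only
      rw [lt_abs] at hU ⊢
      rcases hU with hU | hU
      · left; linarith
      · right; linarith)
    have s2 := k1 c T hc
    have s3 : 2 * C / V ≤ (2 * C + 96 / ε) / V := by
      gcongr
      have : 0 < 96 / ε := by positivity
      linarith
    have e : 2 * C / V = 2 * (C / V) := by ring
    nlinarith

end Pool.Agent.Lib.MP_dd58da_co
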